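import Pool.Agent.Run7.h936.SO.Basic

/-! Coding of structures and assignments by ordinals. -/

namespace Run7.h936.SO

universe u

open Ordinal Set

/-- The ordinal `y` codes the structure `A` on `M` transported to the ordinal `o` by the
bijection `F : M → {ξ < o}`. -/
structure Codes {V : Vocab} {M : Type u} (A : Str V M) (F : M → Ordinal.{u})
    (o y : Ordinal.{u}) : Prop where
  inj : Function.Injective F
  range : ∀ ξ, ξ < o ↔ ∃ m, F m = ξ
  rel : ∀ R a, A.rel R a ↔ U (opair ((R : ℕ) : Ordinal.{u}) (ostk (List.ofFn fun i => F (a i)))) y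
  fn : ∀ f a x, A.fn f a = x ↔ U (opair ((V.nRel + f : ℕ) : Ordinal.{u})
    (opair (F x) (ostk (List.ofFn fun i => F (a i))))) y

/-- `v` codes the assignment `e`. -/
def CodesV {M : Type u} (F : M → Ordinal.{u}) (e : ℕ → M) (v : Ordinal.{u}) : Prop :=
  ∀ (i : ℕ) (ξ : Ordinal.{u}), U (opair (i : Ordinal.{u}) ξ) v ↔ ξ = F (e i)

/-- `w` codes the second-order assignment `W`. -/
def CodesW {M : Type u} (F : M → Ordinal.{u}) (W : SOAssign M) (w : Ordinal.{u}) : Prop :=
  ∀ (n k : ℕ) (a : Fin n → M), W n k a ↔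
    U (opair (opair (n : Ordinal.{u}) (k : Ordinal.{u})) (ostk (List.ofFn fun i => F (a i)))) w

/-- All tuples of the structure codes `y`, `y'` correspond under `h : o ≃ o'`. -/
def IsoCode (V : Vocab) (o y o' y' : Ordinal.{u}) : Prop :=
  ∃ h : Ordinal.{u} → Ordinal.{u}, Set.BijOn h (Iio o) (Iio o') ∧
    (∀ R : Fin V.nRel, ∀ ξ : Fin (V.relAr R) → Ordinal.{u}, (∀ i, ξ i < o) →
      (U (opair ((R : ℕ) : Ordinal.{u}) (ostk (List.ofFn ξ))) y ↔
       U (opair ((R : ℕ) : Ordinal.{u}) (ostk (List.ofFn fun i => h (ξ i)))) y')) ∧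
    (∀ f : Fin V.nFun, ∀ η : Ordinal.{u}, η < o → ∀ ξ : Fin (V.funAr f) → Ordinal.{u},
      (∀ i, ξ i < o) →
      (U (opair ((V.nRel + f : ℕ) : Ordinal.{u}) (opair η (ostk (List.ofFn ξ)))) y ↔
       U (opair ((V.nRel + f : ℕ) : Ordinal.{u})
        (opair (h η) (ostk (List.ofFn fun i => h (ξ i))))) y'))

/-- The function symbols are interpreted by total functions in the code `y`. -/
def FnCode (V : Vocab) (o y : Ordinal.{u}) : Prop :=
  ∀ f : Fin V.nFun, ∀ ξ : Fin (V.funAr f) → Ordinal.{u}, (∀ i, ξ i < o) →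
    ∃ η < o, ∀ η' < o, (U (opair ((V.nRel + f : ℕ) : Ordinal.{u})
      (opair η' (ostk (List.ofFn ξ)))) y ↔ η' = η)

end Run7.h936.SO
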