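import Pool.Agent.Run7.h936.SO.Sigma
import Pool.Agent.Run7.h936.SO.Codes

/-!
# Levels coded by second-order variables

A group `b` of second-order variables: the unary variable `X^1_b` (domain) and the ternary
variables `X^3_{6b}, …, X^3_{6b+5}`.
-/

namespace Run7.h936.SO

universe u

open Ordinal Set

/-- The domain of group `b`. -/
def GDom {M : Type u} (W : SOAssign M) (b : ℕ) (x : M) : Prop := W 1 b ![x]

/-- The structure coded by group `b`. -/
def grp {M : Type u} (W : SOAssign M) (b : ℕ) : FStr {x : M // GDom W b x} where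
  P := fun x y z => W 3 (6 * b) ![x.1, y.1, z.1]
  Q := fun x a => ∃ t : {x : M // GDom W b x}, W 3 (6 * b) ![x.1, t.1, a.1]
  r := fun s x y z =>
    match s with
    | 0 => x = y
    | 1 => W 3 (6 * b) ![x.1, y.1, z.1]
    | 2 => W 3 (6 * b + 1) ![x.1, y.1, z.1]
    | 3 => W 3 (6 * b + 2) ![x.1, y.1, z.1]
    | 4 => W 3 (6 * b + 3) ![x.1, y.1, z.1]
    | 5 => W 3 (6 * b + 4) ![x.1, y.1, z.1]
    | 6 => W 3 (6 * b + 5) ![x.1, y.1, z.1]
    | _ => False

/-- Group `b` is isomorphic to the level `δ`. -/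
structure IsLv {M : Type u} (W : SOAssign M) (b : ℕ) (δ : Ordinal.{u})
    (c : {x : M // GDom W b x} ≃ Lvl δ) : Prop where
  cord : COrd δ
  P : ∀ x y z, (grp W b).P x y z ↔ (Lv δ).P (c x) (c y) (c z)
  r : ∀ s x y z, (grp W b).r s x y z ↔ (Lv δ).r s (c x) (c y) (c z)

/-- The ordinal `κ⁺` for `κ = #M`. -/
noncomputable def Om (M : Type u) : Ordinal.{u} := (Order.succ (Cardinal.mk M)).ord

/-- `x = ⟨o, y⟩` codes the structure `A`. -/
def IsCode {V : Vocab} {M : Type u} (A : Str V M) (x : Ordinal.{u}) : Prop :=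
  ∃ F : M → Ordinal.{u}, Codes A F (of1 x) (of2 x)

end Run7.h936.SO
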