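import Pool.Agent.Run7.h936.SO.Level

/-!
# Basic formulas in the levels
-/

namespace Run7.h936.SO

universe u

open Ordinal Set

/-- `ξ` belongs to the set of ordinals named by `c`. -/
def U (ξ c : Ordinal.{u}) : Prop := toZFSet ξ ∈ val c

/-- The ordinal coding a list. -/
noncomputable def ostk (l : List Ordinal.{u}) : Ordinal.{u} := l.foldr opair 0

@[simp] theorem ostk_nil : ostk ([] : List Ordinal.{u}) = 0 := rfl
@[simp] theorem ostk_cons (x : Ordinal.{u}) (l : List Ordinal.{u}) :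
    ostk (x :: l) = opair x (ostk l) := rfl

theorem ostk_lt {δ : Ordinal.{u}} [COrd δ] {l : List Ordinal.{u}} (h : ∀ x ∈ l, x < δ) :
    ostk l < δ := by
  induction l with
  | nil => exact COrd.pos
  | cons x l ih =>
    rw [ostk_cons]
    exact COrd.closed _ (h x (by simp)) _ (ih fun y hy => h y (by simp [hy]))

namespace Fm
/-- `v_i < v_j` -/
def ltv (i j : ℕ) : Fm := rel 2 i j 0
/-- `val v_i ∈ val v_j` -/
def Ev (i j : ℕ) : Fm := rel 3 i j 0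
/-- `val v_j` is the von Neumann ordinal `v_i` -/
def Vv (i j : ℕ) : Fm := rel 4 i j 0
/-- `SatE v_i v_j v_k` -/
def SEv (i j k : ℕ) : Fm := rel 5 i j k
/-- `SatT v_i v_j v_k` -/
def STv (i j k : ℕ) : Fm := rel 6 i j k
/-- `U v_i v_j` -/
def Uv (i j : ℕ) : Fm := ex (and (Vv (i + 1) 0) (Ev 0 (j + 1)))
end Fm

section
variable {δ : Ordinal.{u}} [COrd δ]

@[simp] theorem sat_ltv (i j : ℕ) (a : Lvl δ) :
    (Fm.ltv i j).Sat (Lv δ) a ↔ nth (Lv δ) a i < nth (Lv δ) a j := by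
  rw [Fm.ltv, Fm.sat_rel]; exact Iff.rfl
@[simp] theorem sat_Ev (i j : ℕ) (a : Lvl δ) :
    (Fm.Ev i j).Sat (Lv δ) a ↔ val (nth (Lv δ) a i).1 ∈ val (nth (Lv δ) a j).1 := by
  rw [Fm.Ev, Fm.sat_rel]; exact Iff.rfl
@[simp] theorem sat_Vv (i j : ℕ) (a : Lvl δ) :
    (Fm.Vv i j).Sat (Lv δ) a ↔ val (nth (Lv δ) a j).1 = toZFSet (nth (Lv δ) a i).1 := by
  rw [Fm.Vv, Fm.sat_rel]; exact Iff.rfl
@[simp] theorem sat_SEv (i j k : ℕ) (a : Lvl δ) : (Fm.SEv i j k).Sat (Lv δ) a ↔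
    SatE (nth (Lv δ) a i).1 (nth (Lv δ) a j).1 (nth (Lv δ) a k).1 := by
  rw [Fm.SEv, Fm.sat_rel]; exact Iff.rfl
@[simp] theorem sat_STv (i j k : ℕ) (a : Lvl δ) : (Fm.STv i j k).Sat (Lv δ) a ↔
    SatT (nth (Lv δ) a i).1 (nth (Lv δ) a j).1 (nth (Lv δ) a k).1 := by
  rw [Fm.STv, Fm.sat_rel]; exact Iff.rfl

omit [COrd δ] in
/-- Elements of a set named below `δ` are named below `δ`. -/
theorem exists_name_of_mem {n : Ordinal.{u}} (hn : n < δ) {y : ZFSet.{u}} (hy : y ∈ val n) :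
    ∃ k : Lvl δ, val k.1 = y := by
  rw [mem_val] at hy
  obtain ⟨_, k, _, hk⟩ := hy
  exact ⟨⟨k.1, k.2.trans_le ((of1_le _).trans hn.le)⟩, hk⟩

@[simp] theorem sat_Uv (i j : ℕ) (a : Lvl δ) :
    (Fm.Uv i j).Sat (Lv δ) a ↔ U (nth (Lv δ) a i).1 (nth (Lv δ) a j).1 := by
  simp only [Fm.Uv, Fm.sat_ex', Fm.sat_and, sat_Vv, sat_Ev, nth_pr_zero, nth_pr_succ]
  constructor
  · rintro ⟨x, h1, h2⟩
    rw [h1] at h2; exact h2
  · intro h
    obtain ⟨k, hk⟩ := exists_name_of_mem (nth (Lv δ) a j).2 h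
    exact ⟨k, hk, by rw [hk]; exact h⟩

end

/-- The levels in which we evaluate: closed, above `ω`, limits of closed ordinals, and *full*:
every bounded set of ordinals has a name. -/
class FullΩ (Ω : Ordinal.{u}) : Prop extends COrd Ω where
  omega_lt : ω < Ω
  lim : ∀ a < Ω, ∃ δ < Ω, a < δ ∧ Closed δ
  full : ∀ γ < Ω, ∀ X : Set Ordinal.{u}, (∀ ξ ∈ X, ξ < γ) →
    ∃ c < Ω, ∀ ξ, U ξ c ↔ ξ ∈ X

end Run7.h936.SO
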