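import Pool.Agent.Run7.h936.SO.Basic

/-!
# Local clauses characterizing the levels
-/

namespace Run7.h936.SO

universe u v

open Ordinal Set

theorem dec_one (m₁ m₂ : Ordinal.{u}) :
    dec (opair 1 (opair m₁ m₂)) = Fm.nand (dec m₁) (dec m₂) := by
  rw [dec]; simp

theorem dec_two (m : Ordinal.{u}) : dec (opair 2 m) = Fm.ex (dec m) := by
  have h : (2 : Ordinal.{u}) ≠ 1 := by exact_mod_cast (by norm_num : (2 : ℕ) ≠ 1)
  rw [dec]; simp [h]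

theorem dec_three (m : Ordinal.{u}) : dec (opair 3 m) = Fm.top (dec m) := by
  have h : (3 : Ordinal.{u}) ≠ 1 := by exact_mod_cast (by norm_num : (3 : ℕ) ≠ 1)
  have h2 : (3 : Ordinal.{u}) ≠ 2 := by exact_mod_cast (by norm_num : (3 : ℕ) ≠ 2)
  rw [dec]; simp [h, h2]

theorem dec_four (m : Ordinal.{u}) : dec (opair 4 m) = Fm.drop (dec m) := by
  have h : (4 : Ordinal.{u}) ≠ 1 := by exact_mod_cast (by norm_num : (4 : ℕ) ≠ 1)
  have h2 : (4 : Ordinal.{u}) ≠ 2 := by exact_mod_cast (by norm_num : (4 : ℕ) ≠ 2)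
  have h3 : (4 : Ordinal.{u}) ≠ 3 := by exact_mod_cast (by norm_num : (4 : ℕ) ≠ 3)
  rw [dec]; simp [h, h2, h3]

theorem dec_other {g : Ordinal.{u}} (m : Ordinal.{u}) (h1 : g ≠ 1) (h2 : g ≠ 2) (h3 : g ≠ 3)
    (h4 : g ≠ 4) : dec (opair g m) = Fm.atom (natOf m) := by
  rw [dec]; simp [h1, h2, h3, h4]

section
variable {A : Type v} (M : FStr A) [Std M] (c : A → Ordinal.{u})


/-- `d` is closed (relative to `c`). -/
def Cl (d : A) : Prop := ∀ a b, c a < c d → c b < c d → c (PFun.pr M a b) < c d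

/-- The local clauses. -/
structure Clauses : Prop where
  /-- clause for `∈` -/
  cE : ∀ k d m a z, M.r 3 k (PFun.pr M d (PFun.pr M m a)) z ↔ Cl M c d ∧ c a < c d ∧ ∃ k', c k' < c d ∧
    (∀ j, (c j < c k ∨ c j < c k') → (M.r 3 j k j ↔ M.r 3 j k' j)) ∧ M.r 5 d m (PFun.pr M k' a)
  /-- clause for von Neumann ordinals -/
  cV : ∀ ξ k z, M.r 4 ξ k z ↔ (∀ j, M.r 3 j k j → ∃ η, c η < c ξ ∧ M.r 4 η j j) ∧
    (∀ η, c η < c ξ → ∃ j, M.r 3 j k j ∧ M.r 4 η j j)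
  cS1 : ∀ d g m₁ m₂ a, c g = 1 → (M.r 5 d (PFun.pr M g (PFun.pr M m₁ m₂)) a ↔
    Cl M c d ∧ c a < c d ∧ ¬ (M.r 5 d m₁ a ∧ M.r 5 d m₂ a))
  cS2 : ∀ d g m a, c g = 2 → (M.r 5 d (PFun.pr M g m) a ↔
    Cl M c d ∧ c a < c d ∧ ∃ x, c x < c d ∧ M.r 5 d m (PFun.pr M x a))
  cS3 : ∀ d g m a, c g = 3 → (M.r 5 d (PFun.pr M g m) a ↔ Cl M c d ∧ c a < c d ∧ M.r 5 d m a)
  cS4 : ∀ d g m x y b, c g = 4 → (M.r 5 d (PFun.pr M g m) (PFun.pr M x (PFun.pr M y b)) ↔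
    Cl M c d ∧ c (PFun.pr M x (PFun.pr M y b)) < c d ∧ M.r 5 d m (PFun.pr M x b))
  cS0 : ∀ d g m x y b, c g ≠ 1 → c g ≠ 2 → c g ≠ 3 → c g ≠ 4 →
    (M.r 5 d (PFun.pr M g m) (PFun.pr M x (PFun.pr M y b)) ↔ Cl M c d ∧ c (PFun.pr M x (PFun.pr M y b)) < c d ∧ M.r 3 x y x)
  cT1 : ∀ d g m₁ m₂ a, c g = 1 → (M.r 6 d (PFun.pr M g (PFun.pr M m₁ m₂)) a ↔
    Cl M c d ∧ c a < c d ∧ ¬ (M.r 6 d m₁ a ∧ M.r 6 d m₂ a))
  cT2 : ∀ d g m a, c g = 2 → (M.r 6 d (PFun.pr M g m) a ↔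
    Cl M c d ∧ c a < c d ∧ ∃ x, c x < c d ∧ M.r 6 d m (PFun.pr M x a))
  cT3 : ∀ d g m x b, c g = 3 → (M.r 6 d (PFun.pr M g m) (PFun.pr M x b) ↔
    Cl M c d ∧ c (PFun.pr M x b) < c d ∧ M.r 6 d m x)
  cT4 : ∀ d g m x y b, c g = 4 → (M.r 6 d (PFun.pr M g m) (PFun.pr M x (PFun.pr M y b)) ↔
    Cl M c d ∧ c (PFun.pr M x (PFun.pr M y b)) < c d ∧ M.r 6 d m (PFun.pr M x b))
  cT0 : ∀ d g m x y z b, c g ≠ 1 → c g ≠ 2 → c g ≠ 3 → c g ≠ 4 →
    (M.r 6 d (PFun.pr M g m) (PFun.pr M x (PFun.pr M y (PFun.pr M z b))) ↔ Cl M c d ∧ c (PFun.pr M x (PFun.pr M y (PFun.pr M z b))) < c d ∧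
      ((c m = (0 : ℕ) ∧ M.r 0 x y z) ∨ (c m = (1 : ℕ) ∧ M.r 1 x y z) ∨
       (c m = (2 : ℕ) ∧ M.r 2 x y z) ∨ (c m = (3 : ℕ) ∧ M.r 3 x y z) ∨
       (c m = (4 : ℕ) ∧ M.r 4 x y z) ∨ (c m = (5 : ℕ) ∧ M.r 5 x y z) ∨
       (c m = (6 : ℕ) ∧ M.r 6 x y z)))
end

section
variable {δ : Ordinal.{u}} [COrd δ]

theorem cl_iff (d : Lvl δ) : Cl (Lv δ) (fun x => x.1) d ↔ Closed d.1 := by
  constructor
  · intro h a ha b hb
    exact h ⟨a, ha.trans d.2⟩ ⟨b, hb.trans d.2⟩ ha hb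
  · intro h a b ha hb
    exact h _ ha _ hb

omit [COrd δ] in
/-- Extensionality for names. -/
theorem val_eq_iff {k k' : Ordinal.{u}} (hk : k < δ) (hk' : k' < δ) :
    val k = val k' ↔ ∀ j : Lvl δ, (j.1 < k ∨ j.1 < k') → (val j.1 ∈ val k ↔ val j.1 ∈ val k') := by
  constructor
  · intro h j _; rw [h]
  · intro h
    ext y
    constructor
    · intro hy
      obtain ⟨_, j, _, rfl⟩ := mem_val.1 hy
      have hj : j.1 < k := j.2.trans_le (of1_le _)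
      exact (h ⟨j.1, hj.trans hk⟩ (Or.inl hj)).1 hy
    · intro hy
      obtain ⟨_, j, _, rfl⟩ := mem_val.1 hy
      have hj : j.1 < k' := j.2.trans_le (of1_le _)
      exact (h ⟨j.1, hj.trans hk'⟩ (Or.inr hj)).2 hy

theorem satE_iff {d m a : Ordinal.{u}} : SatE d m a ↔
    ∃ (_ : Closed d) (h : a < d), (dec m).Sat (LvE d) ⟨a, h⟩ := by
  rw [SatE]; simp

theorem satT_iff' {d m a : Ordinal.{u}} : SatT d m a ↔
    ∃ (_ : Closed d) (h : a < d), (dec m).Sat (Lv d) ⟨a, h⟩ := by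
  rw [satT_iff]; simp

omit [COrd δ] in
theorem mem_val' {n d m a : Ordinal.{u}} (hn : n = opair d (opair m a)) {y : ZFSet.{u}} :
    y ∈ val n ↔ ∃ (h : Closed d ∧ a < d) (k : Lvl d),
      (dec m).Sat (LvE d) ⟨opair k.1 a, h.1 _ k.2 _ h.2⟩ ∧ val k.1 = y := by
  have h1 : of1 n = d := by rw [hn, of1_opair]
  have h2 : of1 (of2 n) = m := by rw [hn, of2_opair, of1_opair]
  have h3 : of2 (of2 n) = a := by rw [hn, of2_opair, of2_opair]
  subst h1 h2 h3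
  exact mem_val

/-- The levels satisfy the clauses. -/
theorem clauses_Lv : Clauses (Lv δ) (fun x => x.1) where
  cE := by
    intro k d m a z
    rw [cl_iff]
    change val k.1 ∈ val (opair d.1 (opair m.1 a.1)) ↔ _
    rw [mem_val' rfl]
    constructor
    · rintro ⟨⟨h1, h2⟩, k', h3, h4⟩
      refine ⟨h1, h2, ⟨k'.1, k'.2.trans d.2⟩, k'.2, ?_, ?_⟩
      · exact (val_eq_iff k.2 (k'.2.trans d.2)).1 h4.symm
      · exact ⟨h1, h1 _ k'.2 _ h2, h3⟩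
    · rintro ⟨h1, h2, k', h3, h4, h5⟩
      obtain ⟨_, _, h6⟩ := h5
      exact ⟨⟨h1, h2⟩, ⟨k'.1, h3⟩, h6, ((val_eq_iff k.2 k'.2).2 h4).symm⟩
  cV := by
    intro ξ k z
    change val k.1 = toZFSet ξ.1 ↔ _
    constructor
    · intro h
      constructor
      · intro j hj
        change val j.1 ∈ val k.1 at hj
        rw [h, mem_toZFSet_iff] at hj
        obtain ⟨η, h1, h2⟩ := hj
        exact ⟨⟨η, h1.trans ξ.2⟩, h1, h2.symm⟩
      · intro η hη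
        have : toZFSet η.1 ∈ val k.1 := by rw [h]; exact toZFSet_mem_toZFSet_iff.2 hη
        obtain ⟨j, hj⟩ := exists_name_of_mem k.2 this
        refine ⟨j, ?_, hj⟩
        change val j.1 ∈ val k.1
        rw [hj]; exact this
    · rintro ⟨h1, h2⟩
      ext y
      rw [mem_toZFSet_iff]
      constructor
      · intro hy
        obtain ⟨j, rfl⟩ := exists_name_of_mem k.2 hy
        obtain ⟨η, h3, h4⟩ := h1 j hy
        exact ⟨η.1, h3, h4.symm⟩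
      · rintro ⟨η, h3, rfl⟩
        obtain ⟨j, h4, h5⟩ := h2 ⟨η, h3.trans ξ.2⟩ h3
        change val j.1 ∈ val k.1 at h4
        change val j.1 = toZFSet η at h5
        rw [← h5]; exact h4
  cS1 := by
    intro d g m₁ m₂ a hg
    rw [cl_iff]
    change SatE d.1 (opair g.1 (opair m₁.1 m₂.1)) a.1 ↔
      Closed d.1 ∧ a.1 < d.1 ∧ ¬ (SatE d.1 m₁.1 a.1 ∧ SatE d.1 m₂.1 a.1)
    rw [show g.1 = 1 from hg, satE_iff, satE_iff, satE_iff, dec_one]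
    constructor
    · rintro ⟨h1, h2, h3⟩
      rw [sat_nand] at h3
      exact ⟨h1, h2, fun ⟨⟨_, _, h4⟩, ⟨_, _, h5⟩⟩ => h3 ⟨h4, h5⟩⟩
    · rintro ⟨h1, h2, h3⟩
      refine ⟨h1, h2, ?_⟩
      rw [sat_nand]
      exact fun ⟨h4, h5⟩ => h3 ⟨⟨h1, h2, h4⟩, ⟨h1, h2, h5⟩⟩
  cS2 := by
    intro d g m a hg
    rw [cl_iff]
    change SatE d.1 (opair g.1 m.1) a.1 ↔
      Closed d.1 ∧ a.1 < d.1 ∧ ∃ x : Lvl δ, x.1 < d.1 ∧ SatE d.1 m.1 (opair x.1 a.1)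
    rw [show g.1 = 2 from hg, satE_iff, dec_two]
    constructor
    · rintro ⟨h1, h2, h3⟩
      have : COrd d.1 := ⟨h1, (zero_le).trans_lt h2⟩
      rw [sat_ex] at h3
      obtain ⟨x, hx⟩ := h3
      exact ⟨h1, h2, ⟨x.1, x.2.trans d.2⟩, x.2, h1, h1 _ x.2 _ h2, hx⟩
    · rintro ⟨h1, h2, x, h3, h4⟩
      have : COrd d.1 := ⟨h1, (zero_le).trans_lt h2⟩
      refine ⟨h1, h2, ?_⟩
      rw [sat_ex]
      obtain ⟨_, _, h5⟩ := h4
      exact ⟨⟨x.1, h3⟩, h5⟩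
  cS3 := by
    intro d g m a hg
    rw [cl_iff]
    change SatE d.1 (opair g.1 m.1) a.1 ↔ Closed d.1 ∧ a.1 < d.1 ∧ SatE d.1 m.1 a.1
    rw [show g.1 = 3 from hg, satE_iff, satE_iff, dec_three]
    constructor
    · rintro ⟨h1, h2, h3⟩
      have : COrd d.1 := ⟨h1, (zero_le).trans_lt h2⟩
      rw [sat_top] at h3
      exact ⟨h1, h2, h1, h2, h3⟩
    · rintro ⟨h1, h2, _, _, h3⟩
      have : COrd d.1 := ⟨h1, (zero_le).trans_lt h2⟩
      refine ⟨h1, h2, ?_⟩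
      rw [sat_top]; exact h3
  cS4 := by
    intro d g m x y b hg
    rw [cl_iff]
    change SatE d.1 (opair g.1 m.1) (opair x.1 (opair y.1 b.1)) ↔
      Closed d.1 ∧ opair x.1 (opair y.1 b.1) < d.1 ∧ SatE d.1 m.1 (opair x.1 b.1)
    rw [show g.1 = 4 from hg, satE_iff, satE_iff, dec_four]
    constructor
    · rintro ⟨h1, h2, h3⟩
      have : COrd d.1 := ⟨h1, (zero_le).trans_lt h2⟩
      rw [sat_drop] at h3
      refine ⟨h1, h2, h1, ?_, ?_⟩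
      · exact h1 _ ((le_opair_left _ _).trans_lt h2) _
          (((le_opair_right _ _).trans (le_opair_right _ _)).trans_lt h2)
      · convert h3 using 2
        simp
    · rintro ⟨h1, h2, _, h3, h4⟩
      have : COrd d.1 := ⟨h1, (zero_le).trans_lt h2⟩
      refine ⟨h1, h2, ?_⟩
      rw [sat_drop]
      convert h4 using 2
      simp
  cS0 := by
    intro d g m x y b hg1 hg2 hg3 hg4
    rw [cl_iff]
    change SatE d.1 (opair g.1 m.1) (opair x.1 (opair y.1 b.1)) ↔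
      Closed d.1 ∧ opair x.1 (opair y.1 b.1) < d.1 ∧ val x.1 ∈ val y.1
    rw [satE_iff, dec_other _ hg1 hg2 hg3 hg4]
    constructor
    · rintro ⟨h1, h2, h3⟩
      have : COrd d.1 := ⟨h1, (zero_le).trans_lt h2⟩
      rw [sat_atom] at h3
      refine ⟨h1, h2, ?_⟩
      change val (of1 (opair x.1 (opair y.1 b.1))) ∈
        val (of1 (of2 (opair x.1 (opair y.1 b.1)))) at h3
      simpa using h3
    · rintro ⟨h1, h2, h3⟩
      have : COrd d.1 := ⟨h1, (zero_le).trans_lt h2⟩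
      refine ⟨h1, h2, ?_⟩
      rw [sat_atom]
      change val (of1 (opair x.1 (opair y.1 b.1))) ∈
        val (of1 (of2 (opair x.1 (opair y.1 b.1))))
      simpa using h3
  cT1 := by
    intro d g m₁ m₂ a hg
    rw [cl_iff]
    change SatT d.1 (opair g.1 (opair m₁.1 m₂.1)) a.1 ↔
      Closed d.1 ∧ a.1 < d.1 ∧ ¬ (SatT d.1 m₁.1 a.1 ∧ SatT d.1 m₂.1 a.1)
    rw [show g.1 = 1 from hg, satT_iff', satT_iff', satT_iff', dec_one]
    constructor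
    · rintro ⟨h1, h2, h3⟩
      rw [sat_nand] at h3
      exact ⟨h1, h2, fun ⟨⟨_, _, h4⟩, ⟨_, _, h5⟩⟩ => h3 ⟨h4, h5⟩⟩
    · rintro ⟨h1, h2, h3⟩
      refine ⟨h1, h2, ?_⟩
      rw [sat_nand]
      exact fun ⟨h4, h5⟩ => h3 ⟨⟨h1, h2, h4⟩, ⟨h1, h2, h5⟩⟩
  cT2 := by
    intro d g m a hg
    rw [cl_iff]
    change SatT d.1 (opair g.1 m.1) a.1 ↔
      Closed d.1 ∧ a.1 < d.1 ∧ ∃ x : Lvl δ, x.1 < d.1 ∧ SatT d.1 m.1 (opair x.1 a.1)
    rw [show g.1 = 2 from hg, satT_iff', dec_two]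
    constructor
    · rintro ⟨h1, h2, h3⟩
      have : COrd d.1 := ⟨h1, (zero_le).trans_lt h2⟩
      rw [sat_ex] at h3
      obtain ⟨x, hx⟩ := h3
      refine ⟨h1, h2, ⟨x.1, x.2.trans d.2⟩, x.2, ?_⟩
      rw [satT_iff']
      exact ⟨h1, h1 _ x.2 _ h2, hx⟩
    · rintro ⟨h1, h2, x, h3, h4⟩
      have : COrd d.1 := ⟨h1, (zero_le).trans_lt h2⟩
      refine ⟨h1, h2, ?_⟩
      rw [sat_ex]
      rw [satT_iff'] at h4
      obtain ⟨_, _, h5⟩ := h4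
      exact ⟨⟨x.1, h3⟩, h5⟩
  cT3 := by
    intro d g m x b hg
    rw [cl_iff]
    change SatT d.1 (opair g.1 m.1) (opair x.1 b.1) ↔
      Closed d.1 ∧ opair x.1 b.1 < d.1 ∧ SatT d.1 m.1 x.1
    rw [show g.1 = 3 from hg, satT_iff', satT_iff', dec_three]
    constructor
    · rintro ⟨h1, h2, h3⟩
      have : COrd d.1 := ⟨h1, (zero_le).trans_lt h2⟩
      rw [sat_top, Std.tp_eq] at h3
      refine ⟨h1, h2, h1, (le_opair_left _ _).trans_lt h2, ?_⟩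
      convert h3 using 2
      simp
    · rintro ⟨h1, h2, _, h3, h4⟩
      have : COrd d.1 := ⟨h1, (zero_le).trans_lt h2⟩
      refine ⟨h1, h2, ?_⟩
      rw [sat_top, Std.tp_eq]
      convert h4 using 2
      simp
  cT4 := by
    intro d g m x y b hg
    rw [cl_iff]
    change SatT d.1 (opair g.1 m.1) (opair x.1 (opair y.1 b.1)) ↔
      Closed d.1 ∧ opair x.1 (opair y.1 b.1) < d.1 ∧ SatT d.1 m.1 (opair x.1 b.1)
    rw [show g.1 = 4 from hg, satT_iff', satT_iff', dec_four]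
    constructor
    · rintro ⟨h1, h2, h3⟩
      have : COrd d.1 := ⟨h1, (zero_le).trans_lt h2⟩
      rw [sat_drop] at h3
      refine ⟨h1, h2, h1, ?_, ?_⟩
      · exact h1 _ ((le_opair_left _ _).trans_lt h2) _
          (((le_opair_right _ _).trans (le_opair_right _ _)).trans_lt h2)
      · convert h3 using 2
        simp
    · rintro ⟨h1, h2, _, h3, h4⟩
      have : COrd d.1 := ⟨h1, (zero_le).trans_lt h2⟩
      refine ⟨h1, h2, ?_⟩
      rw [sat_drop]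
      convert h4 using 2
      simp
  cT0 := by
    intro d g m x y z b hg1 hg2 hg3 hg4
    rw [cl_iff]
    change SatT d.1 (opair g.1 m.1) (opair x.1 (opair y.1 (opair z.1 b.1))) ↔
      Closed d.1 ∧ opair x.1 (opair y.1 (opair z.1 b.1)) < d.1 ∧
      ((m.1 = (0 : ℕ) ∧ orel 0 x.1 y.1 z.1) ∨ (m.1 = (1 : ℕ) ∧ orel 1 x.1 y.1 z.1) ∨
       (m.1 = (2 : ℕ) ∧ orel 2 x.1 y.1 z.1) ∨ (m.1 = (3 : ℕ) ∧ orel 3 x.1 y.1 z.1) ∨
       (m.1 = (4 : ℕ) ∧ orel 4 x.1 y.1 z.1) ∨ (m.1 = (5 : ℕ) ∧ orel 5 x.1 y.1 z.1) ∨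
       (m.1 = (6 : ℕ) ∧ orel 6 x.1 y.1 z.1))
    rw [satT_iff', dec_other _ hg1 hg2 hg3 hg4]
    have key : orel (natOf m.1) x.1 y.1 z.1 ↔
      ((m.1 = (0 : ℕ) ∧ orel 0 x.1 y.1 z.1) ∨ (m.1 = (1 : ℕ) ∧ orel 1 x.1 y.1 z.1) ∨
       (m.1 = (2 : ℕ) ∧ orel 2 x.1 y.1 z.1) ∨ (m.1 = (3 : ℕ) ∧ orel 3 x.1 y.1 z.1) ∨
       (m.1 = (4 : ℕ) ∧ orel 4 x.1 y.1 z.1) ∨ (m.1 = (5 : ℕ) ∧ orel 5 x.1 y.1 z.1) ∨
       (m.1 = (6 : ℕ) ∧ orel 6 x.1 y.1 z.1)) := by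
      rw [← natOf_eq_iff (x := m.1) (n := 0) (by norm_num),
        ← natOf_eq_iff (x := m.1) (n := 1) (by norm_num),
        ← natOf_eq_iff (x := m.1) (n := 2) (by norm_num),
        ← natOf_eq_iff (x := m.1) (n := 3) (by norm_num),
        ← natOf_eq_iff (x := m.1) (n := 4) (by norm_num),
        ← natOf_eq_iff (x := m.1) (n := 5) (by norm_num),
        ← natOf_eq_iff (x := m.1) (n := 6) (by norm_num)]
      generalize natOf m.1 = s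
      match s with
      | 0 => simp
      | 1 => simp
      | 2 => simp
      | 3 => simp
      | 4 => simp
      | 5 => simp
      | 6 => simp
      | s + 7 => simp [orel]
    constructor
    · rintro ⟨h1, h2, h3⟩
      have : COrd d.1 := ⟨h1, (zero_le).trans_lt h2⟩
      rw [sat_atom] at h3
      refine ⟨h1, h2, key.1 ?_⟩
      change orel (natOf m.1) (of1 (opair x.1 (opair y.1 (opair z.1 b.1))))
        (of1 (of2 (opair x.1 (opair y.1 (opair z.1 b.1)))))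
        (of1 (of2 (of2 (opair x.1 (opair y.1 (opair z.1 b.1)))))) at h3
      simpa using h3
    · rintro ⟨h1, h2, h3⟩
      have : COrd d.1 := ⟨h1, (zero_le).trans_lt h2⟩
      refine ⟨h1, h2, ?_⟩
      rw [sat_atom]
      change orel (natOf m.1) (of1 (opair x.1 (opair y.1 (opair z.1 b.1))))
        (of1 (of2 (opair x.1 (opair y.1 (opair z.1 b.1)))))
        (of1 (of2 (of2 (opair x.1 (opair y.1 (opair z.1 b.1))))))
      simpa using key.2 h3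

end

end Run7.h936.SO
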