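import Pool.Agent.Run7.h936.SO.Hull

/-!
# The core argument: recursive types realised by elements of one type are isolated
-/

namespace Run7.h936.SO

universe u v

open Ordinal Set

section
variable {δ : Ordinal.{u}} [COrd δ]


/-- `x` is definable from `⟨b, q⟩` for some `b < g`. -/
def HH (g q x : Lvl δ) : Prop := ∃ b < g, Dfn (PFun.pr (Lv δ) b q) x

theorem HH.mono {g g' q x : Lvl δ} (h : HH g q x) (hg : g ≤ g') : HH g' q x := by
  obtain ⟨b, hb, h⟩ := h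
  exact ⟨b, hb.trans_le hg, h⟩

theorem pr_lt {g x y : Lvl δ} (hg : Closed g.1) (hx : x < g) (hy : y < g) : (PFun.pr (Lv δ) x y) < g :=
  hg _ hx _ hy

/-- `b` is definable from `⟨c, g⟩` for some `c < g`. -/
def PG (g a : Lvl δ) : Prop := ∃ b < g, Dfn (PFun.pr (Lv δ) b g) a

theorem PG.mono {g g' a : Lvl δ} (h : PG g a) (hg : g ≤ g') (hc : Closed g'.1) : PG g' a := by
  rcases hg.eq_or_lt with rfl | hlt
  · exact h
  · obtain ⟨b, hb, h⟩ := h
    exact ⟨(PFun.pr (Lv δ) b g), pr_lt hc (hb.trans hlt) hlt, ((Dfn.refl _).of_f1).trans h⟩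

theorem PG.pair {g a a' : Lvl δ} (h : PG g a) (h' : PG g a') (hc : Closed g.1) :
    PG g (PFun.pr (Lv δ) a a') := by
  obtain ⟨b, hb, h⟩ := h
  obtain ⟨b', hb', h'⟩ := h'
  have h1 : Dfn (PFun.pr (Lv δ) (PFun.pr (Lv δ) b b') g) b := (Dfn.refl _).of_f1.of_f1
  have h2 : Dfn (PFun.pr (Lv δ) (PFun.pr (Lv δ) b b') g) b' := (Dfn.refl _).of_f1.of_f2
  have h3 : Dfn (PFun.pr (Lv δ) (PFun.pr (Lv δ) b b') g) g := (Dfn.refl _).of_f2
  exact ⟨(PFun.pr (Lv δ) b b'), pr_lt hc hb hb', ((h1.pair h3).trans h).pair ((h2.pair h3).trans h')⟩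

theorem not_closed_lt {a : Ordinal.{u}} (h0 : 0 < a) (hc : ¬ Closed a) :
    of1 a < a ∧ of2 a < a := by
  constructor
  · refine lt_of_le_of_ne (of1_le a) fun h => ?_
    have h1 : opair 0 a < opair a (of2 a) := by
      rw [opair_lt_iff]
      unfold GLt
      simp only
      right
      rw [max_eq_right (zero_le), max_eq_left (of2_le a)]
      exact ⟨rfl, Or.inl h0⟩
    have h2 : opair a (of2 a) = a := by
      conv_lhs => rw [← h]
      rw [h]; conv_rhs => rw [← opair_of a, h]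
    rw [h2] at h1
    exact absurd (le_opair_right 0 a) (not_le.2 h1)
  · refine lt_of_le_of_ne (of2_le a) fun h => ?_
    apply hc
    intro b hb c hcc
    have h1 : opair b c < opair (of1 a) a := by
      rw [opair_lt_iff]
      unfold GLt
      left
      exact lt_of_lt_of_le (max_lt hb hcc) (le_max_right _ _)
    have h2 : opair (of1 a) a = a := by
      conv_rhs => rw [← opair_of a, h]
    rwa [h2] at h1

theorem closed_one : Closed (1 : Ordinal.{u}) := by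
  intro a ha b hb
  rw [Order.lt_one_iff] at ha hb
  rw [ha, hb, opair_zero_zero]
  exact zero_lt_one

/-- Every ordinal is generated over some closed ordinal by smaller parameters. -/
theorem exists_PG (one : Lvl δ) (h1 : one.1 = 1) (a : Lvl δ) :
    ∃ g : Lvl δ, Closed g.1 ∧ 0 < g.1 ∧ (g ≤ a ∨ g.1 = 1) ∧ PG g a := by
  induction a using WellFoundedLT.induction with
  | _ a ih =>
    have hz : ∀ g : Lvl δ, 0 < g.1 → (PFun.z0 (Lv δ)) < g := fun g hg => hg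
    by_cases h0 : a.1 = 0
    · refine ⟨one, by rw [h1]; exact closed_one, by rw [h1]; exact zero_lt_one, Or.inr h1,
        (PFun.z0 (Lv δ)), hz _ (by rw [h1]; exact zero_lt_one), ?_⟩
      rw [eq_z0_iff] at h0
      rw [h0]; exact Dfn.z0 _
    have hpos : 0 < a.1 := pos_iff_ne_zero.2 h0
    by_cases hc : Closed a.1
    · exact ⟨a, hc, hpos, Or.inl le_rfl, (PFun.z0 (Lv δ)), hz a hpos, (Dfn.refl _).of_f2⟩
    · obtain ⟨k1, k2⟩ := not_closed_lt hpos hc
      obtain ⟨g₁, c1, p1, l1, q1⟩ := ih (PFun.f1 (Lv δ) a) k1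
      obtain ⟨g₂, c2, p2, l2, q2⟩ := ih (PFun.f2 (Lv δ) a) k2
      have k1' : PFun.f1 (Lv δ) a < a := k1
      have k2' : PFun.f2 (Lv δ) a < a := k2
      rcases le_total g₁ g₂ with hle | hle
      · refine ⟨g₂, c2, p2, l2.imp (fun h => h.trans k2'.le) id, ?_⟩
        have := (q1.mono hle c2).pair q2 c2
        rwa [PFun.pr_f] at this
      · refine ⟨g₁, c1, p1, l1.imp (fun h => h.trans k1'.le) id, ?_⟩
        have := q1.pair (q2.mono hle c1) c1
        rwa [PFun.pr_f] at this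

/-- The combinatorial lemma about lists of generators. -/
theorem list_lemma : ∀ (gs vs : List (Lvl δ)), List.Forall₂ (· ≤ ·) vs gs →
    (∀ h ∈ gs, Closed h.1) → gs.Pairwise (· < ·) → ∀ b : Lvl δ, (∀ h ∈ gs, b < h) →
    vs = gs ∨ ∃ l h rest, gs = l ++ h :: rest ∧
      ∃ b' < h, Dfn (PFun.pr (Lv δ) b' (stk (Lv δ) rest)) (PFun.pr (Lv δ) b (stk (Lv δ) vs)) := by
  intro gs
  induction gs with
  | nil =>
    intro vs hvs _ _ b _
    cases hvs
    exact Or.inl rfl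
  | cons g gs ih =>
    intro vs hvs hcl hp b hb
    cases hvs with
    | @cons v _ vs' _ hv hvs' =>
    have hgs : ∀ h ∈ gs, g < h := (List.pairwise_cons.1 hp).1
    have hbg : b < g := hb g (by simp)
    have hcg : Closed g.1 := hcl g (by simp)
    rcases ih vs' hvs' (fun h hh => hcl h (by simp [hh])) (List.pairwise_cons.1 hp).2 (PFun.pr (Lv δ) b v)
      (fun h hh => pr_lt (hcl h (by simp [hh])) (hb h (by simp [hh])) (hv.trans_lt (hgs h hh)))
      with h1 | ⟨l, h, rest, h1, b', h2, h3⟩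
    · subst h1
      rcases hv.eq_or_lt with rfl | hlt
      · exact Or.inl rfl
      · refine Or.inr ⟨[], g, vs', rfl, (PFun.pr (Lv δ) b v), pr_lt hcg hbg hlt, ?_⟩
        have e1 : Dfn (PFun.pr (Lv δ) (PFun.pr (Lv δ) b v) (stk (Lv δ) vs')) b := (Dfn.refl _).of_f1.of_f1
        have e2 : Dfn (PFun.pr (Lv δ) (PFun.pr (Lv δ) b v) (stk (Lv δ) vs')) v := (Dfn.refl _).of_f1.of_f2
        have e3 : Dfn (PFun.pr (Lv δ) (PFun.pr (Lv δ) b v) (stk (Lv δ) vs')) (stk (Lv δ) vs') := (Dfn.refl _).of_f2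
        rw [stk_cons]
        exact e1.pair (e2.pair e3)
    · refine Or.inr ⟨g :: l, h, rest, by rw [h1]; rfl, b', h2, ?_⟩
      rw [stk_cons]
      exact h3.of_f1.of_f1.pair (h3.of_f1.of_f2.pair h3.of_f2)

end

/-- Truth in lower levels. -/
theorem satT_code {δ : Ordinal.{u}} [hδ : COrd δ] {a : Ordinal.{u}} (h : a < δ) (φ : Fm) :
    SatT δ φ.code a ↔ φ.Sat (Lv δ) ⟨a, h⟩ := by
  rw [satT_iff, dec_code]
  constructor
  · rintro ⟨_, _, h1⟩; exact h1
  · intro h1; exact ⟨hδ.closed, h, h1⟩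

/-- The formula used to transfer the truth predicate. -/
def rho (φ : Fm) : Fm :=
  Fm.all (Fm.imp (Fm.lt' 0 1) (Fm.ex (Fm.and (Fm.prv 1 3 0) (Fm.iff (Fm.ap φ [0])
    (Fm.ex (Fm.and (Fm.prv 2 6 0) (Fm.ex (Fm.and (Fm.num 0 0) (Fm.ex (Fm.and (Fm.prv 2 1 0)
      (Fm.STv 7 9 0)))))))))))

theorem sat_rho {δ : Ordinal.{u}} [COrd δ] (φ : Fm) (g q u v m t : Lvl δ) :
    (rho φ).Sat (Lv δ) (PFun.pr (Lv δ) g (PFun.pr (Lv δ) q (PFun.pr (Lv δ) u
      (PFun.pr (Lv δ) v (PFun.pr (Lv δ) m t))))) ↔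
    ∀ b < g, (φ.Sat (Lv δ) (PFun.pr (Lv δ) (PFun.pr (Lv δ) b q) (PFun.z0 (Lv δ))) ↔
      SatT u.1 m.1 (opair (opair b.1 v.1) 0)) := by
  simp only [rho, Fm.sat_all, Fm.sat_imp, Fm.sat_ex', Fm.sat_and, Fm.sat_iff, sat_ltL, sat_ap,
    Fm.sat_prv, sat_numL, sat_STv, nth_pr_zero, nth_pr_succ, List.map_cons, List.map_nil,
    stk_cons, stk_nil, Nat.cast_zero, eq_z0_iff]
  refine forall_congr' fun b => imp_congr_right fun _ => ?_
  constructor
  · rintro ⟨r, rfl, h⟩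
    rw [h]
    constructor
    · rintro ⟨s, rfl, z, rfl, w, rfl, h⟩
      simpa using h
    · intro h
      exact ⟨_, rfl, _, rfl, _, rfl, by simpa using h⟩
  · intro h
    refine ⟨_, rfl, ?_⟩
    rw [h]
    constructor
    · intro h
      exact ⟨_, rfl, _, rfl, _, rfl, by simpa using h⟩
    · rintro ⟨s, rfl, z, rfl, w, rfl, h⟩
      simpa using h

/-- Main lemma: a level computing truth for parameters below `g`, definable from `x`. -/
theorem exists_level {Ω : Ordinal.{u}} [COrd Ω] (hω : ω < Ω) {x g : Lvl Ω} {gs : List (Lvl Ω)}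
    (hg : Dfn x g) (hgs : ∀ h ∈ gs, Dfn x h)
    (hgc : Closed g.1) (hgp : 0 < g.1)
    (hcl : ∀ h ∈ gs, Closed h.1) (hinc : gs.Pairwise (· < ·)) (hlt : ∀ h ∈ gs, g < h)
    (hnh : ∀ l h rest, gs = l ++ h :: rest → ¬ HH h (stk (Lv Ω) rest) x)
    (hng : ¬ HH g (stk (Lv Ω) gs) x) :
    ∃ u v : Lvl Ω, Dfn x u ∧ Dfn x v ∧ ∀ φ : Fm, ∀ b < g,
      (φ.Sat (Lv Ω) (PFun.pr (Lv Ω) (PFun.pr (Lv Ω) b (stk (Lv Ω) gs)) (PFun.z0 (Lv Ω))) ↔
        SatT u.1 φ.code (opair (opair b.1 v.1) 0)) := by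
  -- the hull of `x`
  have hH : ElSub {y : Lvl Ω | ∃ b ∈ ({x} : Set (Lvl Ω)), Dfn b y} := by
    apply elSub_hull (B := {x}) ⟨x, rfl⟩
    rintro b₁ rfl b₂ rfl
    exact ⟨_, rfl, Dfn.refl _, Dfn.refl _⟩
  obtain ⟨ζ, hζ, j, hj, hjr, _, _, _⟩ := hH.collapse
  have hmem : ∀ y, Dfn x y → ∃ y', j y' = y := by
    intro y hy
    have : y ∈ Set.range j := by rw [hjr]; exact ⟨x, rfl, hy⟩
    exact this
  have hdfn : ∀ y, Dfn x (j y) := by
    intro y
    have : j y ∈ Set.range j := ⟨y, rfl⟩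
    rw [hjr] at this
    obtain ⟨b, hb, h⟩ := this
    rw [Set.mem_singleton_iff] at hb
    rw [← hb]; exact h
  obtain ⟨x', hx'⟩ := hmem x (Dfn.refl x)
  obtain ⟨g', hg'⟩ := hmem g hg
  obtain ⟨gs', hgs'⟩ : ∃ gs' : List (Lvl ζ), gs'.map j = gs := by
    clear hnh hng hlt hinc hcl
    induction gs with
    | nil => exact ⟨[], rfl⟩
    | cons h gs ih =>
      obtain ⟨gs', e⟩ := ih (fun k hk => hgs k (by simp [hk]))
      obtain ⟨h', e'⟩ := hmem h (hgs h (by simp))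
      exact ⟨h' :: gs', by simp [e, e']⟩
  have hstk : ∀ l : List (Lvl ζ), j (stk (Lv ζ) l) = stk (Lv Ω) (l.map j) := by
    intro l
    induction l with
    | nil => exact hj.z0
    | cons y l ih => rw [stk_cons, hj.pr, ih, List.map_cons, stk_cons]
  set q' : Lvl ζ := stk (Lv ζ) gs' with hq'
  have hgc' : Closed g'.1 := by rw [hj.closed_iff, hg']; exact hgc
  have hz0 : PFun.z0 (Lv ζ) < g' := by
    rw [hj.lt_iff, hj.z0, hg']; exact hgp
  -- transfer of `HH`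
  have hHH : ∀ (b h y : Lvl ζ), b < h → ∀ q, Dfn (PFun.pr (Lv ζ) b q) y → HH (j h) (j q) (j y) := by
    intro b h y hb q hd
    refine ⟨j b, hj.lt_iff.1 hb, ?_⟩
    have := hj.dfn hd
    rwa [hj.pr] at this
  -- the hull `Z`
  set B : Set (Lvl ζ) := {p | ∃ b < g', p = PFun.pr (Lv ζ) b q'} with hB
  have hZ : ElSub {y : Lvl ζ | ∃ b ∈ B, Dfn b y} := by
    apply elSub_hull (B := B) ⟨PFun.pr (Lv ζ) (PFun.z0 (Lv ζ)) q', _, hz0, rfl⟩
    rintro _ ⟨b₁, h1, rfl⟩ _ ⟨b₂, h2, rfl⟩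
    refine ⟨_, ⟨PFun.pr (Lv ζ) b₁ b₂, pr_lt hgc' h1 h2, rfl⟩, ?_, ?_⟩
    · exact (Dfn.refl _).of_f1.of_f1.pair (Dfn.refl _).of_f2
    · exact (Dfn.refl _).of_f1.of_f2.pair (Dfn.refl _).of_f2
  obtain ⟨ζ', hζ', k, hk, hkr, hle, hkle, hkfix⟩ := hZ.collapse
  have hkmem : ∀ y, (∃ b < g', Dfn (PFun.pr (Lv ζ) b q') y) → ∃ y', k y' = y := by
    rintro y ⟨b, hb, hd⟩
    have : y ∈ Set.range k := by rw [hkr]; exact ⟨_, ⟨b, hb, rfl⟩, hd⟩
    exact this
  have hZmem : ∀ y : Lvl ζ, y < g' → y ∈ {y : Lvl ζ | ∃ b ∈ B, Dfn b y} :=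
    fun y hy => ⟨_, ⟨y, hy, rfl⟩, (Dfn.refl _).of_f1⟩
  have hfix : ∀ y : Lvl ζ, y < g' → ∃ y' : Lvl ζ', y'.1 = y.1 ∧ k y' = y := by
    intro y hy
    obtain ⟨y', hy'⟩ := hkmem y ⟨y, hy, (Dfn.refl _).of_f1⟩
    refine ⟨y', ?_, hy'⟩
    have h1 : y'.1 ≤ y.1 := by rw [← hy']; exact hkle y'
    set w : Lvl ζ := ⟨y'.1, h1.trans_lt y.2⟩ with hw
    have hwy : w ≤ y := h1
    have h2 : k y' = w := by
      refine hkfix y' (fun z hz => hZmem z ?_) w (hZmem w (hwy.trans_lt hy)) rfl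
      exact lt_of_lt_of_le (show z < w from hz) (hwy.trans hy.le)
    rw [hy'] at h2
    rw [h2]
  obtain ⟨v', hv'⟩ := hkmem q' ⟨_, hz0, (Dfn.refl _).of_f2⟩
  rcases hle.eq_or_lt with heq | hlt'
  · -- the bad case
    exfalso
    subst heq
    have hkid : ∀ y : Lvl ζ', y < g' → k y = y := by
      intro y hy
      obtain ⟨y', h1, h2⟩ := hfix y hy
      have : y' = y := Subtype.ext h1
      rwa [this] at h2
    have hx'' : k x' ∈ Set.range k := ⟨x', rfl⟩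
    rw [hkr] at hx''
    obtain ⟨_, ⟨b, hb, rfl⟩, φ, hφ⟩ := hx''
    have hφ' : DefBy φ (PFun.pr (Lv ζ') b v') x' := by
      rw [hk.defBy, hk.pr, hkid b hb, hv']
      exact hφ
    -- `v'` is a stack
    obtain ⟨vs, hvs1, hvs2⟩ : ∃ vs : List (Lvl ζ'), v' = stk (Lv ζ') vs ∧
        List.Forall₂ (· ≤ ·) vs gs' := by
      have : ∀ (gs' : List (Lvl ζ')) (v' : Lvl ζ'), k v' = stk (Lv ζ') gs' →
          ∃ vs : List (Lvl ζ'), v' = stk (Lv ζ') vs ∧ List.Forall₂ (· ≤ ·) vs gs' := by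
        intro gs'
        induction gs' with
        | nil =>
          intro v' hv'
          refine ⟨[], ?_, List.Forall₂.nil⟩
          rw [stk_nil] at hv' ⊢
          apply hk.inj
          rw [hv', hk.z0]
        | cons h gs' ih =>
          intro v' hv'
          rw [stk_cons] at hv'
          have e1 : k (PFun.f1 (Lv ζ') v') = h := by rw [hk.f1, hv', PFun.f1_pr]
          have e2 : k (PFun.f2 (Lv ζ') v') = stk (Lv ζ') gs' := by rw [hk.f2, hv', PFun.f2_pr]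
          obtain ⟨vs, e3, e4⟩ := ih _ e2
          refine ⟨PFun.f1 (Lv ζ') v' :: vs, ?_, List.Forall₂.cons ?_ e4⟩
          · rw [stk_cons, ← e3, PFun.pr_f]
          · rw [← e1]; exact hkle _
      exact this gs' v' hv'
    have hgs'c : ∀ h ∈ gs', Closed h.1 := by
      intro h hh
      rw [hj.closed_iff]
      exact hcl _ (by rw [← hgs']; exact List.mem_map_of_mem hh)
    have hgs'i : gs'.Pairwise (· < ·) := by
      have := hinc
      rw [← hgs', List.pairwise_map] at this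
      exact this.imp (fun h => hj.lt_iff.2 h)
    have hb' : ∀ h ∈ gs', b < h := by
      intro h hh
      have h1 : g' < h := by
        rw [hj.lt_iff, hg']
        exact hlt _ (by rw [← hgs']; exact List.mem_map_of_mem hh)
      exact hb.trans h1
    rcases list_lemma gs' vs hvs2 hgs'c hgs'i b hb' with h1 | ⟨l, h, rest, h1, b', h2, h3⟩
    · apply hng
      have h4 := hHH b g' x' hb (stk (Lv ζ') gs') (by rw [← h1, ← hvs1]; exact ⟨φ, hφ'⟩)
      rwa [hg', hx', hstk, hgs'] at h4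
    · apply hnh (l.map j) (j h) (rest.map j) (by rw [← hgs', h1]; simp)
      have h4 := hHH b' h x' h2 (stk (Lv ζ') rest) (h3.trans (by rw [← hvs1]; exact ⟨φ, hφ'⟩))
      rwa [hx', hstk] at h4
  · -- the good case
    set u' : Lvl ζ := ⟨ζ', hlt'⟩ with hu'
    set w' : Lvl ζ := ⟨v'.1, v'.2.trans hlt'⟩ with hw'
    refine ⟨j u', j w', hdfn _, hdfn _, ?_⟩
    intro φ
    -- the code of `φ` in level `ζ`
    set m : Lvl Ω := ⟨(φ.code : Ordinal.{u}), (natCast_lt_omega0 _).trans hω⟩ with hm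
    obtain ⟨m', hm'⟩ := hmem m (Dfn.num x φ.code m rfl)
    have hmv : m'.1 = (φ.code : Ordinal.{u}) := by
      rw [hj.num, hm']
    have key : (rho φ).Sat (Lv ζ) (PFun.pr (Lv ζ) g' (PFun.pr (Lv ζ) q' (PFun.pr (Lv ζ) u'
        (PFun.pr (Lv ζ) w' (PFun.pr (Lv ζ) m' (PFun.z0 (Lv ζ))))))) := by
      rw [sat_rho]
      intro b hb
      obtain ⟨b', hb1, hb2⟩ := hfix b hb
      have e1 : PFun.pr (Lv ζ) (PFun.pr (Lv ζ) b q') (PFun.z0 (Lv ζ)) =
          k (PFun.pr (Lv ζ') (PFun.pr (Lv ζ') b' v') (PFun.z0 (Lv ζ'))) := by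
        rw [hk.pr, hk.pr, hb2, hv', hk.z0]
      rw [e1, ← hk.el, hmv]
      have e2 : opair (opair b.1 w'.1) 0 =
          (PFun.pr (Lv ζ') (PFun.pr (Lv ζ') b' v') (PFun.z0 (Lv ζ'))).1 := by
        rw [pr_val, pr_val, z0_val, hb1]
      rw [e2]
      exact (satT_code (δ := ζ') (PFun.pr (Lv ζ') (PFun.pr (Lv ζ') b' v') (PFun.z0 (Lv ζ'))).2 φ).symm
    rw [hj.el, hj.pr, hj.pr, hj.pr, hj.pr, hj.pr, sat_rho, hg', hm', hstk, hgs'] at key
    exact key

end Run7.h936.SO
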