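import Pool.Agent.Run7.h936.SO.Core

/-!
# The core theorem
-/

namespace Run7.h936.SO

universe u v

open Ordinal Set

section
variable {Ω : Ordinal.{u}} [COrd Ω]


/-- Decreasing chains of generators, constant on `S`. -/
structure Chain (S : Set (Lvl Ω)) (gs : List (Lvl Ω)) : Prop where
  t : ∃ t : Fm, ∀ x ∈ S, DefBy t x (stk (Lv Ω) gs)
  closed : ∀ h ∈ gs, Closed h.1 ∧ 0 < h.1
  inc : gs.Pairwise (· < ·)
  nh : ∀ l h rest, gs = l ++ h :: rest → ∀ x ∈ S, ¬ HH h (stk (Lv Ω) rest) x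
  top : ∀ h rest, gs = h :: rest → ∀ x ∈ S, HH h (stk (Lv Ω) gs) x

theorem sub_dfn {l : List (Lvl Ω)} {x : Lvl Ω} (h : Dfn x (stk (Lv Ω) l)) :
    ∀ y ∈ l, Dfn x y := by
  induction l with
  | nil => intro y hy; simp at hy
  | cons z l ih =>
    rw [stk_cons] at h
    intro y hy
    rcases List.mem_cons.1 hy with rfl | hy
    · exact h.of_f1
    · exact ih h.of_f2 y hy

/-- all elements of `S` have the same type -/
def SameType (S : Set (Lvl Ω)) : Prop :=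
  ∀ x ∈ S, ∀ y ∈ S, ∀ φ : Fm, φ.Sat (Lv Ω) (PFun.pr (Lv Ω) x (PFun.z0 (Lv Ω))) → φ.Sat (Lv Ω) (PFun.pr (Lv Ω) y (PFun.z0 (Lv Ω)))

/-- `S` is defined by the set of formulas `𝔸` -/
def TypeDef (S : Set (Lvl Ω)) (𝔸 : Set Fm) : Prop :=
  ∀ x : Lvl Ω, x ∈ S ↔ ∀ φ ∈ 𝔸, φ.Sat (Lv Ω) (PFun.pr (Lv Ω) x (PFun.z0 (Lv Ω)))

/-- `Ψ` expresses truth of all formulas of `𝔸` in lower levels -/
def Unif (Ω' : Ordinal.{u}) [COrd Ω'] (𝔸 : Set Fm) (Ψ : Fm) : Prop :=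
  ∀ u y : Lvl Ω', Closed u.1 → y < u →
    (Ψ.Sat (Lv Ω') (PFun.pr (Lv Ω') u (PFun.pr (Lv Ω') y (PFun.z0 (Lv Ω')))) ↔
    ∀ φ ∈ 𝔸, SatT u.1 φ.code (opair y.1 0))

/-- `Ψ` expresses truth of all formulas of `𝔸` in lower levels, with an element of `S` as a
parameter -/
def UnifOn (Ω' : Ordinal.{u}) [COrd Ω'] (S : Set (Lvl Ω')) (𝔸 : Set Fm) (Ψ : Fm) : Prop :=
  ∀ x ∈ S, ∀ u y : Lvl Ω', Closed u.1 → y < u →
    (Ψ.Sat (Lv Ω') (PFun.pr (Lv Ω') u (PFun.pr (Lv Ω') y (PFun.pr (Lv Ω') x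
      (PFun.z0 (Lv Ω'))))) ↔ ∀ φ ∈ 𝔸, SatT u.1 φ.code (opair y.1 0))

variable {S : Set (Lvl Ω)} (htype : SameType S)

include htype

/-- (A) no element of `S` is definable from the chain, if `S` has two elements. -/
theorem not_dfn {q : Lvl Ω} (ht : ∃ t : Fm, ∀ x ∈ S, DefBy t x q) {x₀ y₀ : Lvl Ω}
    (hx₀ : x₀ ∈ S) (hy₀ : y₀ ∈ S) (hne : x₀ ≠ y₀) : ∀ x ∈ S, ¬ Dfn q x := by
  intro x hx hd
  obtain ⟨t, ht⟩ := ht
  obtain ⟨φ, hφ⟩ := hd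
  have key : ∀ y ∈ S, y = x := by
    intro y hy
    have h1 : (Fm.ex (Fm.and (Fm.dBy t 0 1) (Fm.dBy φ 1 0))).Sat (Lv Ω) (PFun.pr (Lv Ω) x (PFun.z0 (Lv Ω))) := by
      simp only [Fm.sat_ex', Fm.sat_and, sat_dBy, nth_pr_zero, nth_pr_succ]
      exact ⟨q, ht x hx, hφ⟩
    have h2 := htype x hx y hy _ h1
    simp only [Fm.sat_ex', Fm.sat_and, sat_dBy, nth_pr_zero, nth_pr_succ] at h2
    obtain ⟨q', h3, h4⟩ := h2
    rw [h3.unique (ht y hy)] at h4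
    exact h4.unique hφ
  exact hne ((key x₀ hx₀).trans (key y₀ hy₀).symm)

omit htype in
/-- `g` is the least possible next generator for `x`. -/
def Gam (q x g : Lvl Ω) : Prop :=
  Closed g.1 ∧ 0 < g.1 ∧ HH g (PFun.pr (Lv Ω) g q) x ∧
    ∀ g' < g, Closed g'.1 → 0 < g'.1 → ¬ HH g' (PFun.pr (Lv Ω) g' q) x

omit htype in
theorem HH_of_PG {g q b x : Lvl Ω} (h : PG g b) (hd : Dfn (PFun.pr (Lv Ω) b q) x) : HH g (PFun.pr (Lv Ω) g q) x := by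
  obtain ⟨c, hc, h⟩ := h
  refine ⟨c, hc, ?_⟩
  have e1 : Dfn (PFun.pr (Lv Ω) c (PFun.pr (Lv Ω) g q)) c := (Dfn.refl _).of_f1
  have e2 : Dfn (PFun.pr (Lv Ω) c (PFun.pr (Lv Ω) g q)) g := (Dfn.refl _).of_f2.of_f1
  have e3 : Dfn (PFun.pr (Lv Ω) c (PFun.pr (Lv Ω) g q)) q := (Dfn.refl _).of_f2.of_f2
  exact ((((e1.pair e2).trans h)).pair e3).trans hd

omit htype in
theorem exists_Gam (hω : ω < Ω) (q x : Lvl Ω) : ∃ g, Gam q x g := by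
  have h1 : (1 : Ordinal.{u}) < Ω := one_lt_omega0.trans hω
  obtain ⟨g, hc, hp, _, hg⟩ := exists_PG (⟨1, h1⟩ : Lvl Ω) rfl x
  have hne : {g : Lvl Ω | Closed g.1 ∧ 0 < g.1 ∧ HH g (PFun.pr (Lv Ω) g q) x}.Nonempty :=
    ⟨g, hc, hp, HH_of_PG hg (Dfn.refl _).of_f1⟩
  obtain ⟨g, ⟨k1, k2, k3⟩, hmin⟩ := WellFounded.has_min (wellFounded_lt (α := Lvl Ω)) _ hne
  exact ⟨g, k1, k2, k3, fun g' hg' h1 h2 h3 => hmin g' ⟨h1, h2, h3⟩ hg'⟩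

omit htype in
theorem Gam.unique {q x g g' : Lvl Ω} (h : Gam q x g) (h' : Gam q x g') : g = g' := by
  rcases lt_trichotomy g g' with k | k | k
  · exact absurd h.2.2.1 (h'.2.2.2 g k h.1 h.2.1)
  · exact k
  · exact absurd h'.2.2.1 (h.2.2.2 g' k h'.1 h'.2.1)

omit htype in
/-- (C) -/
theorem Gam.not_HH (hω : ω < Ω) {q x g : Lvl Ω} (h : Gam q x g) (hq : ¬ Dfn q x) :
    ¬ HH g q x := by
  rintro ⟨b, hb, hd⟩
  have h1 : (1 : Ordinal.{u}) < Ω := one_lt_omega0.trans hω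
  obtain ⟨g', hc, hp, hle, hg⟩ := exists_PG (⟨1, h1⟩ : Lvl Ω) rfl b
  have hK := HH_of_PG hg hd
  have hge : g ≤ g' := by
    by_contra hlt
    push Not at hlt
    exact h.2.2.2 g' hlt hc hp hK
  rcases hle with hle | hle
  · exact absurd (hge.trans hle) (not_le.2 hb)
  · have hg1 : g.1 = 1 := by
      apply le_antisymm
      · rw [← hle]; exact hge
      · exact Order.one_le_iff_pos.2 h.2.1
    have hb0 : b.1 = 0 := by
      have : b.1 < 1 := by rw [← hg1]; exact hb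
      exact Order.lt_one_iff.1 this
    rw [eq_z0_iff] at hb0
    subst hb0
    exact hq (((Dfn.z0 q).pair (Dfn.refl q)).trans hd)

omit htype in
/-- (D) -/
theorem Gam.lt_head (hω : ω < Ω) {h q x g : Lvl Ω} (hg : Gam q x g) (hq : ¬ Dfn q x)
    (hh : HH h q x) (_hh0 : 0 < h.1) : g < h := by
  by_contra hlt
  push Not at hlt
  exact hg.not_HH hω hq (hh.mono hlt)

/-- the formula defining the next generator -/
def tauF (t φ : Fm) : Fm :=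
  -- env: g, x
  Fm.ex (Fm.and (Fm.dBy t 0 2)  -- q, g, x
    (Fm.and (Fm.clF 1) (Fm.and (Fm.ex (Fm.and (Fm.num 0 0) (Fm.lt' 0 2)))
      (Fm.ex (Fm.and (Fm.lt' 0 2)  -- b, q, g, x
        (Fm.ex (Fm.and (Fm.prv 3 2 0)  -- r, b, q, g, x
          (Fm.ex (Fm.and (Fm.prv 2 1 0)  -- s, r, b, q, g, x
            (Fm.dBy φ 5 0))))))))))

omit htype in
theorem sat_tauF (t φ : Fm) (g x s q : Lvl Ω) (ht : DefBy t x q) :
    (tauF t φ).Sat (Lv Ω) (PFun.pr (Lv Ω) g (PFun.pr (Lv Ω) x s)) ↔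
      Closed g.1 ∧ 0 < g.1 ∧ ∃ b < g, DefBy φ (PFun.pr (Lv Ω) b (PFun.pr (Lv Ω) g q)) x := by
  simp only [tauF, Fm.sat_ex', Fm.sat_and, sat_dBy, sat_clL, sat_numL, sat_ltL, Fm.sat_prv,
    nth_pr_zero, nth_pr_succ, Nat.cast_zero, eq_z0_iff]
  constructor
  · rintro ⟨q', h1, h2, ⟨z, rfl, h3⟩, b, h4, r, rfl, s, rfl, h5⟩
    rw [h1.unique ht] at h5
    exact ⟨h2, h3, b, h4, h5⟩
  · rintro ⟨h2, h3, b, h4, h5⟩
    exact ⟨q, ht, h2, ⟨_, rfl, h3⟩, b, h4, _, rfl, _, rfl, h5⟩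

omit htype in
theorem defBy_tauF {t φ : Fm} {x g q : Lvl Ω} (ht : DefBy t x q) (hg : Gam q x g)
    {b : Lvl Ω} (hb : b < g) (hφ : DefBy φ (PFun.pr (Lv Ω) b (PFun.pr (Lv Ω) g q)) x) : DefBy (tauF t φ) x g := by
  constructor
  · rw [sat_tauF t φ g x _ q ht]
    exact ⟨hg.1, hg.2.1, b, hb, hφ⟩
  · intro g' hg' hs
    rw [sat_tauF t φ g' x _ q ht] at hs
    obtain ⟨h1, h2, b', h3, h4⟩ := hs
    exact hg.2.2.2 g' hg' h1 h2 ⟨b', h3, φ, h4⟩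

/-- (E) the next generator is uniformly definable. -/
theorem exists_uniform (hω : ω < Ω) {q : Lvl Ω} {t : Fm} (ht : ∀ x ∈ S, DefBy t x q)
    {x₀ : Lvl Ω} (hx₀ : x₀ ∈ S) :
    ∃ t' : Fm, ∀ x ∈ S, ∀ g, Gam q x g → DefBy t' x g := by
  obtain ⟨g₀, hg₀⟩ := exists_Gam hω q x₀
  obtain ⟨b₀, hb₀, φ₀, hφ₀⟩ := hg₀.2.2.1
  refine ⟨tauF t φ₀, ?_⟩
  intro x hx g hg
  -- existence
  have h1 : (Fm.ex (Fm.dBy (tauF t φ₀) 0 1)).Sat (Lv Ω) (PFun.pr (Lv Ω) x₀ (PFun.z0 (Lv Ω))) := by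
    simp only [Fm.sat_ex', sat_dBy, nth_pr_zero, nth_pr_succ]
    exact ⟨g₀, defBy_tauF (ht x₀ hx₀) hg₀ hb₀ hφ₀⟩
  have h2 := htype x₀ hx₀ x hx _ h1
  simp only [Fm.sat_ex', sat_dBy, nth_pr_zero, nth_pr_succ] at h2
  obtain ⟨g₁, hg₁⟩ := h2
  obtain ⟨b, hb, φ, hφ⟩ := hg.2.2.1
  have h3 := defBy_tauF (ht x hx) hg hb hφ
  -- comparison
  have h4 : (Fm.all (Fm.all (Fm.imp (Fm.dBy (tauF t φ₀) 1 2) (Fm.imp (Fm.dBy (tauF t φ) 0 2)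
      (Fm.not (Fm.lt' 0 1)))))).Sat (Lv Ω) (PFun.pr (Lv Ω) x₀ (PFun.z0 (Lv Ω))) := by
    simp only [Fm.sat_all, Fm.sat_imp, Fm.sat_not, sat_dBy, sat_ltL, nth_pr_zero, nth_pr_succ]
    intro g₂ g₃ h5 h6 h7
    have e := h5.unique (defBy_tauF (ht x₀ hx₀) hg₀ hb₀ hφ₀)
    subst e
    have h8 := h6.1
    rw [sat_tauF t φ g₃ x₀ _ q (ht x₀ hx₀)] at h8
    obtain ⟨k1, k2, b', k3, k4⟩ := h8
    exact hg₀.2.2.2 g₃ h7 k1 k2 ⟨b', k3, φ, k4⟩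
  have h5 := htype x₀ hx₀ x hx _ h4
  simp only [Fm.sat_all, Fm.sat_imp, Fm.sat_not, sat_dBy, sat_ltL, nth_pr_zero, nth_pr_succ] at h5
  have h6 : g₁ ≤ g := not_lt.1 (h5 g₁ g hg₁ h3)
  have h7 : g ≤ g₁ := by
    by_contra hlt
    push Not at hlt
    have h8 := hg₁.1
    rw [sat_tauF t φ₀ g₁ x _ q (ht x hx)] at h8
    obtain ⟨k1, k2, b', k3, k4⟩ := h8
    exact hg.2.2.2 g₁ hlt k1 k2 ⟨b', k3, φ₀, k4⟩
  rw [le_antisymm h7 h6]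
  exact hg₁

/-- `A* `: `A` holds of the element defined by `φ` from the parameter. -/
def starF (φ A : Fm) : Fm := Fm.ex (Fm.and (Fm.dBy φ 0 1) (Fm.ap A [0]))

omit htype in
theorem sat_starF {δ : Ordinal.{u}} [COrd δ] (φ A : Fm) (p s : Lvl δ) :
    (starF φ A).Sat (Lv δ) (PFun.pr (Lv δ) p s) ↔
      ∃ z, DefBy φ p z ∧ A.Sat (Lv δ) (PFun.pr (Lv δ) z (PFun.z0 (Lv δ))) := by
  simp only [starF, Fm.sat_ex', Fm.sat_and, sat_dBy, sat_ap, nth_pr_zero, nth_pr_succ,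
    List.map_cons, List.map_nil, stk_cons, stk_nil]

/-- the transfer formula: truth of `φ` at `⟨b,q⟩`, `b < g`, is computed by level `u`; env `[x]` -/
def thetaF (s s' t t' φ : Fm) : Fm :=
  -- env after quantifiers: m, q, g, v, u, x
  Fm.all (Fm.all (Fm.all (Fm.all (Fm.all (Fm.imp (Fm.dBy s 4 5) (Fm.imp (Fm.dBy s' 3 5)
    (Fm.imp (Fm.dBy t' 2 5) (Fm.imp (Fm.dBy t 1 5) (Fm.imp (Fm.num φ.code 0)
      -- build the environment [g, q, u, v, m]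
      (Fm.app (rho φ) [2, 1, 4, 3, 0] 0))))))))))

omit htype in
theorem sat_thetaF (s s' t t' φ : Fm) (x u v g q r : Lvl Ω) (h1 : DefBy s x u) (h2 : DefBy s' x v)
    (h3 : DefBy t' x g) (h4 : DefBy t x q) (m : Lvl Ω) (hm : m.1 = (φ.code : Ordinal.{u})) :
    (thetaF s s' t t' φ).Sat (Lv Ω) (PFun.pr (Lv Ω) x r) ↔
      ∀ b < g, (φ.Sat (Lv Ω) (PFun.pr (Lv Ω) (PFun.pr (Lv Ω) b q) (PFun.z0 (Lv Ω))) ↔ SatT u.1 φ.code (opair (opair b.1 v.1) 0)) := by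
  simp only [thetaF, Fm.sat_all, Fm.sat_imp, sat_dBy, sat_numL, Fm.sat_app, nth_pr_zero,
    nth_pr_succ, List.map_cons, List.map_nil, List.foldr_cons, List.foldr_nil, sat_rho]
  constructor
  · intro h
    have := h u v g q m h1 h2 h3 h4 hm
    rwa [hm] at this
  · rintro h u' v' g' q' m' k1 k2 k3 k4 k5
    rw [k1.unique h1, k2.unique h2, k3.unique h3, k4.unique h4, k5]
    exact h

/-- the descent formula; env `[x]` -/
def chiF (s s' t' Ψ : Fm) (n : ℕ) : Fm :=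
  -- u, v, g
  Fm.ex (Fm.ex (Fm.ex (Fm.and (Fm.dBy s 0 3) (Fm.and (Fm.dBy s' 1 3) (Fm.and (Fm.dBy t' 2 3)
    (Fm.ex (Fm.and (Fm.lt' 0 3)  -- b, u, v, g, x
      (Fm.ex (Fm.and (Fm.lt' 0 2)  -- z, b, u, v, g, x
        (Fm.and (Fm.ap Ψ [2, 0, 5])
          (Fm.ex (Fm.and (Fm.num n 0)  -- m, z, b, u, v, g, x
            (Fm.ex (Fm.and (Fm.prv 3 5 0)  -- ⟨b,v⟩, m, z, b, u, v, g, x
              (Fm.ex (Fm.and (Fm.num 0 0)  -- 0, ⟨b,v⟩, m, z, b, u, v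
                (Fm.ex (Fm.and (Fm.prv 2 1 0)  -- ⟨⟨b,v⟩,0⟩, 0, ⟨b,v⟩, m, z, b, u, v
                  (Fm.ex (Fm.and (Fm.prv 5 1 0)  -- ⟨z,..⟩, ., ., ., m, z, b, u, v
                    (Fm.STv 7 4 0)))))))))))))))))))))

omit htype in
theorem sat_chiF (s s' t' Ψ : Fm) (n : ℕ) (x r : Lvl Ω) (hω : ω < Ω) :
    (chiF s s' t' Ψ n).Sat (Lv Ω) (PFun.pr (Lv Ω) x r) ↔ ∃ g v u : Lvl Ω, DefBy s x u ∧ DefBy s' x v ∧
      DefBy t' x g ∧ ∃ b < g, ∃ z < u, Ψ.Sat (Lv Ω) (PFun.pr (Lv Ω) u (PFun.pr (Lv Ω) z (PFun.pr (Lv Ω) x (PFun.z0 (Lv Ω))))) ∧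
      SatT u.1 n (opair z.1 (opair (opair b.1 v.1) 0)) := by
  simp only [chiF, Fm.sat_ex', Fm.sat_and, sat_dBy, sat_numL, sat_ltL, sat_ap, Fm.sat_prv,
    sat_STv, nth_pr_zero, nth_pr_succ, List.map_cons, List.map_nil, stk_cons, stk_nil,
    Nat.cast_zero, eq_z0_iff]
  constructor
  · rintro ⟨g, v, u, h1, h2, h3, b, h4, z, h5, h6, m, h7, p, rfl, o, rfl, p', rfl, p'', rfl, h8⟩
    refine ⟨g, v, u, h1, h2, h3, b, h4, z, h5, h6, ?_⟩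
    rw [h7] at h8
    simpa using h8
  · rintro ⟨g, v, u, h1, h2, h3, b, h4, z, h5, h6, h8⟩
    refine ⟨g, v, u, h1, h2, h3, b, h4, z, h5, h6, ⟨(n : Ordinal.{u}),
      (natCast_lt_omega0 _).trans hω⟩, rfl, _, rfl, _, rfl, _, rfl, _, rfl, ?_⟩
    simpa using h8

variable {𝔸 : Set Fm} (hA : TypeDef S 𝔸) {Ψ : Fm} (hΨ : UnifOn Ω S 𝔸 Ψ)

include hA hΨ

/-- (F) the next generator is constant on `S`. -/
theorem gam_const (hω : ω < Ω) {gs : List (Lvl Ω)} (hch : Chain S gs)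
    {x₁ x₂ g₁ g₂ : Lvl Ω} (hx₁ : x₁ ∈ S) (hx₂ : x₂ ∈ S)
    (hg₁ : Gam (stk (Lv Ω) gs) x₁ g₁) (hg₂ : Gam (stk (Lv Ω) gs) x₂ g₂)
    (hnd : ∀ x ∈ S, ¬ Dfn (stk (Lv Ω) gs) x)
    (hmin : ∀ x ∈ S, ∀ g, Gam (stk (Lv Ω) gs) x g → g₁ ≤ g) : g₁ = g₂ := by
  by_contra hne
  have hlt : g₁ < g₂ := lt_of_le_of_ne (hmin x₂ hx₂ g₂ hg₂) hne
  obtain ⟨t, ht⟩ := hch.t
  set q := stk (Lv Ω) gs with hq
  obtain ⟨t', ht'⟩ := exists_uniform htype hω ht hx₁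
  have hlthead : ∀ h ∈ gs, g₂ < h := by
    intro h hh
    cases hgs : gs with
    | nil => rw [hgs] at hh; simp at hh
    | cons h₀ rest =>
      have h1 : g₂ < h₀ := hg₂.lt_head hω (hnd x₂ hx₂)
        (by rw [hq]; exact hch.top h₀ rest hgs x₂ hx₂)
        (hch.closed h₀ (by rw [hgs]; simp)).2
      rw [hgs] at hh
      rcases List.mem_cons.1 hh with rfl | hh
      · exact h1
      · have := hch.inc
        rw [hgs] at this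
        exact h1.trans ((List.pairwise_cons.1 this).1 h hh)
  obtain ⟨u₂, v₂, ⟨s, hs⟩, ⟨s', hs'⟩, htr⟩ := exists_level hω (x := x₂) (g := g₂) (gs := gs)
    ⟨t', ht' x₂ hx₂ g₂ hg₂⟩ (sub_dfn ⟨t, ht x₂ hx₂⟩) hg₂.1 hg₂.2.1
    (fun h hh => (hch.closed h hh).1) hch.inc hlthead
    (fun l h rest e => hch.nh l h rest e x₂ hx₂) (hg₂.not_HH hω (hnd x₂ hx₂))
  -- `x₁` is definable from `⟨b, q⟩` with `b < g₂`
  obtain ⟨b₁, hb₁, hd₁⟩ := hg₁.2.2.1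
  set b : Lvl Ω := (PFun.pr (Lv Ω) b₁ g₁) with hb
  have hbg : b < g₂ := pr_lt hg₂.1 (hb₁.trans hlt) hlt
  obtain ⟨φ, hφ⟩ : Dfn (PFun.pr (Lv Ω) b q) x₁ := by
    have e1 : Dfn (PFun.pr (Lv Ω) b q) b₁ := (Dfn.refl _).of_f1.of_f1
    have e2 : Dfn (PFun.pr (Lv Ω) b q) g₁ := (Dfn.refl _).of_f1.of_f2
    have e3 : Dfn (PFun.pr (Lv Ω) b q) q := (Dfn.refl _).of_f2
    exact (e1.pair (e2.pair e3)).trans hd₁
  -- all `A*` hold in level `u₂`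
  have hstar : ∀ A ∈ 𝔸, SatT u₂.1 (starF φ A).code (opair (opair b.1 v₂.1) 0) := by
    intro A hAA
    rw [← htr _ b hbg, sat_starF]
    exact ⟨x₁, hφ, (hA x₁).1 hx₁ A hAA⟩
  have hstar0 : SatT u₂.1 (starF φ Fm.tt).code (opair (opair b.1 v₂.1) 0) := by
    rw [← htr _ b hbg, sat_starF]
    exact ⟨x₁, hφ, Fm.sat_tt _ _⟩
  have hcl₂ : Closed u₂.1 ∧ ∃ h : opair (opair b.1 v₂.1) 0 < u₂.1, True := by
    rw [satT_iff] at hstar0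
    obtain ⟨h1, h2, _⟩ := hstar0
    exact ⟨h1, h2, trivial⟩
  obtain ⟨hcl₂, hlt₂, _⟩ := hcl₂
  have : COrd u₂.1 := ⟨hcl₂, (zero_le).trans_lt hlt₂⟩
  -- rewriting the parameter in level `u₂`
  have hbv : opair b.1 v₂.1 < u₂.1 := (le_opair_left _ _).trans_lt hlt₂
  set p₂ : Lvl u₂.1 := ⟨opair b.1 v₂.1, hbv⟩ with hp₂
  have hpar : (⟨opair (opair b.1 v₂.1) 0, hlt₂⟩ : Lvl u₂.1) =
      PFun.pr (Lv u₂.1) p₂ (PFun.z0 (Lv u₂.1)) := Subtype.ext rfl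
  obtain ⟨z, hz, _⟩ : ∃ z, DefBy φ p₂ z ∧ _ := by
    have := (satT_code hlt₂ (starF φ Fm.tt)).1 hstar0
    rw [hpar, sat_starF] at this
    exact this
  have hzA : ∀ A ∈ 𝔸, SatT u₂.1 A.code (opair z.1 0) := by
    intro A hAA
    have := (satT_code hlt₂ (starF φ A)).1 (hstar A hAA)
    rw [hpar, sat_starF] at this
    obtain ⟨z', hz', h2⟩ := this
    rw [hz'.unique hz] at h2
    have h3 : opair z.1 0 < u₂.1 := (PFun.pr (Lv u₂.1) z (PFun.z0 (Lv u₂.1))).2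
    rw [satT_code h3]
    exact h2
  -- the descent formula holds at `x₂`
  have hchi : (chiF s s' t' Ψ (Fm.dBy φ 0 1).code).Sat (Lv Ω) (PFun.pr (Lv Ω) x₂ (PFun.z0 (Lv Ω))) := by
    rw [sat_chiF _ _ _ _ _ _ _ hω]
    refine ⟨g₂, v₂, u₂, hs, hs', ht' x₂ hx₂ g₂ hg₂, b, hbg, ⟨z.1, z.2.trans u₂.2⟩, z.2, ?_, ?_⟩
    · exact (hΨ x₂ hx₂ u₂ ⟨z.1, z.2.trans u₂.2⟩ hcl₂ z.2).2 hzA
    · have h3 : opair z.1 (opair (opair b.1 v₂.1) 0) < u₂.1 :=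
        (PFun.pr (Lv u₂.1) z (PFun.pr (Lv u₂.1) p₂ (PFun.z0 (Lv u₂.1)))).2
      rw [satT_code h3]
      have h4 : (⟨opair z.1 (opair (opair b.1 v₂.1) 0), h3⟩ : Lvl u₂.1) =
        PFun.pr (Lv u₂.1) z (PFun.pr (Lv u₂.1) p₂ (PFun.z0 (Lv u₂.1))) := Subtype.ext rfl
      rw [h4, sat_dBy]
      simpa using hz
  have hchi₁ := htype x₂ hx₂ x₁ hx₁ _ hchi
  rw [sat_chiF _ _ _ _ _ _ _ hω] at hchi₁
  obtain ⟨g', v₁, u₁, hs₁, hs'₁, ht₁, b', hb', z', hz', hΨ₁, hT₁⟩ := hchi₁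
  have hgg : g' = g₁ := ht₁.unique (ht' x₁ hx₁ g₁ hg₁)
  subst hgg
  -- truth transfer at `x₁`
  have htr₁ : ∀ A : Fm, ∀ c < g', (A.Sat (Lv Ω) (PFun.pr (Lv Ω) (PFun.pr (Lv Ω) c q) (PFun.z0 (Lv Ω))) ↔
      SatT u₁.1 A.code (opair (opair c.1 v₁.1) 0)) := by
    intro A
    set m : Lvl Ω := ⟨(A.code : Ordinal.{u}), (natCast_lt_omega0 _).trans hω⟩ with hm
    have h1 := (sat_thetaF s s' t t' A x₂ u₂ v₂ g₂ q (PFun.z0 (Lv Ω)) hs hs' (ht' x₂ hx₂ g₂ hg₂) (ht x₂ hx₂)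
      m rfl).2 (htr A)
    have h2 := htype x₂ hx₂ x₁ hx₁ _ h1
    exact (sat_thetaF s s' t t' A x₁ u₁ v₁ g' q (PFun.z0 (Lv Ω)) hs₁ hs'₁ ht₁ (ht x₁ hx₁) m rfl).1 h2
  -- level `u₁`
  have hcl₁ : Closed u₁.1 ∧ ∃ h : opair z'.1 (opair (opair b'.1 v₁.1) 0) < u₁.1, True := by
    have := hT₁
    rw [satT_iff] at this
    obtain ⟨h1, h2, _⟩ := this
    exact ⟨h1, h2, trivial⟩
  obtain ⟨hcl₁, hlt₁, _⟩ := hcl₁
  have : COrd u₁.1 := ⟨hcl₁, (zero_le).trans_lt hlt₁⟩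
  have hlt₁' : opair (opair b'.1 v₁.1) 0 < u₁.1 := (le_opair_right _ _).trans_lt hlt₁
  have hbv₁ : opair b'.1 v₁.1 < u₁.1 := (le_opair_left _ _).trans_lt hlt₁'
  set p₁ : Lvl u₁.1 := ⟨opair b'.1 v₁.1, hbv₁⟩ with hp₁
  set zz : Lvl u₁.1 := ⟨z'.1, hz'⟩ with hzz
  have hpar₁ : (⟨opair (opair b'.1 v₁.1) 0, hlt₁'⟩ : Lvl u₁.1) =
      PFun.pr (Lv u₁.1) p₁ (PFun.z0 (Lv u₁.1)) := Subtype.ext rfl
  have hdz : DefBy φ p₁ zz := by
    have := (satT_code hlt₁ (Fm.dBy φ 0 1)).1 hT₁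
    have h4 : (⟨opair z'.1 (opair (opair b'.1 v₁.1) 0), hlt₁⟩ : Lvl u₁.1) =
      PFun.pr (Lv u₁.1) zz (PFun.pr (Lv u₁.1) p₁ (PFun.z0 (Lv u₁.1))) := Subtype.ext rfl
    rw [h4, sat_dBy] at this
    simpa using this
  have hzA₁ := (hΨ x₁ hx₁ u₁ z' hcl₁ hz').1 hΨ₁
  -- back to `Ω`
  have hback : ∀ A : Fm, (SatT u₁.1 A.code (opair z'.1 0)) →
      (starF φ A).Sat (Lv Ω) (PFun.pr (Lv Ω) (PFun.pr (Lv Ω) b' q) (PFun.z0 (Lv Ω))) := by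
    intro A hAz
    rw [htr₁ _ b' hb', satT_code hlt₁', hpar₁, sat_starF]
    refine ⟨zz, hdz, ?_⟩
    have h3 : opair z'.1 0 < u₁.1 := (PFun.pr (Lv u₁.1) zz (PFun.z0 (Lv u₁.1))).2
    exact (satT_code h3 A).1 hAz
  obtain ⟨y, hy, _⟩ : ∃ y, DefBy φ (PFun.pr (Lv Ω) b' q) y ∧ _ := by
    have := hback Fm.tt (by
      have h3 : opair z'.1 0 < u₁.1 := (PFun.pr (Lv u₁.1) zz (PFun.z0 (Lv u₁.1))).2
      rw [satT_code h3]; exact Fm.sat_tt _ _)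
    rw [sat_starF] at this
    exact this
  have hyS : y ∈ S := by
    rw [hA]
    intro A hAA
    have := hback A (hzA₁ A hAA)
    rw [sat_starF] at this
    obtain ⟨y', hy', h5⟩ := this
    rw [hy'.unique hy] at h5
    exact h5
  obtain ⟨gy, hgy⟩ := exists_Gam hω q y
  have h6 : g' ≤ gy := hmin y hyS gy hgy
  exact hgy.not_HH hω (hnd y hyS) (HH.mono ⟨b', hb', φ, hy⟩ h6)

/-- (G) chains can be extended. -/
theorem chain_extend (hω : ω < Ω) {gs : List (Lvl Ω)} (hch : Chain S gs) {x₀ y₀ : Lvl Ω}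
    (hx₀ : x₀ ∈ S) (hy₀ : y₀ ∈ S) (hne : x₀ ≠ y₀) :
    ∃ g, Chain S (g :: gs) ∧ ∀ h ∈ gs, g < h := by
  obtain ⟨t, ht⟩ := hch.t
  set q := stk (Lv Ω) gs with hq
  have hnd := not_dfn htype ⟨t, ht⟩ hx₀ hy₀ hne
  -- minimal generator
  have hne' : {g : Lvl Ω | ∃ x ∈ S, Gam q x g}.Nonempty := by
    obtain ⟨g, hg⟩ := exists_Gam hω q x₀
    exact ⟨g, x₀, hx₀, hg⟩
  obtain ⟨g, ⟨x₁, hx₁, hg⟩, hmin⟩ := WellFounded.has_min (wellFounded_lt (α := Lvl Ω)) _ hne'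
  have hmin' : ∀ x ∈ S, ∀ g', Gam q x g' → g ≤ g' :=
    fun x hx g' hg' => not_lt.1 (hmin g' ⟨x, hx, hg'⟩)
  have hconst : ∀ x ∈ S, Gam q x g := by
    intro x hx
    obtain ⟨g', hg'⟩ := exists_Gam hω q x
    have := gam_const htype hA hΨ hω hch hx₁ hx hg hg' hnd hmin'
    rw [this]; exact hg'
  obtain ⟨t', ht'⟩ := exists_uniform htype hω ht hx₀
  have hlthead : ∀ h ∈ gs, g < h := by
    intro h hh
    cases hgs : gs with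
    | nil => rw [hgs] at hh; simp at hh
    | cons h₀ rest =>
      have h1 : g < h₀ := hg.lt_head hω (hnd x₁ hx₁)
        (by rw [hq]; exact hch.top h₀ rest hgs x₁ hx₁)
        (hch.closed h₀ (by rw [hgs]; simp)).2
      rw [hgs] at hh
      rcases List.mem_cons.1 hh with rfl | hh
      · exact h1
      · have := hch.inc
        rw [hgs] at this
        exact h1.trans ((List.pairwise_cons.1 this).1 h hh)
  refine ⟨g, ⟨?_, ?_, ?_, ?_, ?_⟩, hlthead⟩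
  · refine ⟨Fm.ex (Fm.ex (Fm.and (Fm.dBy t' 1 3) (Fm.and (Fm.dBy t 0 3) (Fm.prv 1 0 2)))), ?_⟩
    intro x hx
    apply DefBy.of_unique
    intro z
    simp only [Fm.sat_ex', Fm.sat_and, sat_dBy, Fm.sat_prv, nth_pr_zero, nth_pr_succ]
    rw [stk_cons]
    constructor
    · rintro ⟨x', y', h3, h4, h5⟩
      rw [h3.unique (ht' x hx g (hconst x hx)), h4.unique (ht x hx)] at h5
      exact h5.symm
    · rintro rfl
      exact ⟨g, q, ht' x hx g (hconst x hx), ht x hx, rfl⟩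
  · intro h hh
    rcases List.mem_cons.1 hh with rfl | hh
    · exact ⟨hg.1, hg.2.1⟩
    · exact hch.closed h hh
  · exact List.pairwise_cons.2 ⟨hlthead, hch.inc⟩
  · intro l h rest e x hx
    cases l with
    | nil =>
      rw [List.nil_append, List.cons.injEq] at e
      obtain ⟨rfl, rfl⟩ := e
      exact (hconst x hx).not_HH hω (hnd x hx)
    | cons a l =>
      rw [List.cons_append, List.cons.injEq] at e
      exact hch.nh l h rest e.2 x hx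
  · intro h rest e x hx
    rw [List.cons.injEq] at e
    obtain ⟨rfl, rfl⟩ := e
    rw [stk_cons]
    exact (hconst x hx).2.2.1

/-- The core theorem. -/
theorem core (hω : ω < Ω) {x y : Lvl Ω} (hx : x ∈ S) (hy : y ∈ S) : x = y := by
  by_contra hne
  have step := fun gs (hch : Chain S gs) => chain_extend htype hA hΨ hω hch hx hy hne
  have hnil : Chain S ([] : List (Lvl Ω)) := by
    refine ⟨⟨Fm.num 0 0, ?_⟩, ?_, List.Pairwise.nil, ?_, ?_⟩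
    · intro x _
      apply DefBy.of_unique
      intro z
      simp only [sat_numL, nth_pr_zero, Nat.cast_zero, eq_z0_iff, stk_nil]
    · intro h hh; simp at hh
    · intro l h rest e
      exact absurd e (by simp)
    · intro h rest e
      exact absurd e (by simp)
  have H : ∀ g : Lvl Ω, ∀ gs, Chain S (g :: gs) → False := by
    intro g
    induction g using WellFoundedLT.induction with
    | _ g ih =>
      intro gs hch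
      obtain ⟨g', h1, h2⟩ := step _ hch
      exact ih g' (h2 g (by simp)) _ h1
  obtain ⟨g, h1, _⟩ := step _ hnil
  exact H g [] h1

end

end Run7.h936.SO
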