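import Pool.Agent.Run7.h936.SO.Hull
import Pool.Agent.Run7.h936.SO.Groups
import Pool.Agent.Run7.h488.SO.P1

/-! Sets of numbers definable over a structure, in the levels. -/

namespace Run7.h936.SO

universe u

open Ordinal Set Run7.h488.SO Run7.h505.SO

section
variable {Ω : Ordinal.{u}} [hΩ : FullΩ Ω] {V : Vocab} {M : Type u} {A : Str V M}
  {F : M → Ordinal.{u}} {o y : Lvl Ω}

/-- Assignments are coded. -/
theorem exists_codesV (hA : Codes A F o.1 y.1) (e : ℕ → M) : ∃ v : Lvl Ω, CodesV F e v.1 := by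
  obtain ⟨γ, g1, g2, g3, g4⟩ := exists_closed Ω o.1 o.2
  obtain ⟨v, hv, hv'⟩ := FullΩ.full (Ω := Ω) γ g1
    {z | ∃ k : ℕ, z = opair (k : Ordinal.{u}) (F (e k))} (by
      rintro z ⟨k, rfl⟩
      exact g4 _ ((natCast_lt_omega0 k).trans g3) _ ((F_lt hA _).trans g2))
  refine ⟨⟨v, hv⟩, fun n ξ => ?_⟩
  change U _ v ↔ _
  rw [hv']
  constructor
  · rintro ⟨k, hk⟩
    obtain ⟨hk1, hk2⟩ := opair_inj hk
    have : n = k := by exact_mod_cast hk1
    subst this
    exact hk2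
  · rintro rfl
    exact ⟨n, rfl⟩

/-- Second-order assignments are coded. -/
theorem exists_codesW (hA : Codes A F o.1 y.1) (W : SOAssign M) :
    ∃ w : Lvl Ω, CodesW F W w.1 := by
  obtain ⟨γ, g1, g2, g3, g4⟩ := exists_closed Ω o.1 o.2
  have : COrd γ := ⟨g4, omega0_pos.trans g3⟩
  obtain ⟨w, hw, hw'⟩ := FullΩ.full (Ω := Ω) γ g1
    {z | ∃ (n k : ℕ) (a : Fin n → M), W n k a ∧ z = opair (opair (n : Ordinal.{u})
      (k : Ordinal.{u})) (ostk (List.ofFn fun i => F (a i)))} (by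
      rintro z ⟨n, k, a, _, rfl⟩
      refine g4 _ ?_ _ ?_
      · rw [opair_nat]; exact (natCast_lt_omega0 _).trans g3
      · apply ostk_lt
        intro x hx
        rw [List.mem_ofFn] at hx
        obtain ⟨i, rfl⟩ := hx
        exact (F_lt hA _).trans g2)
  refine ⟨⟨w, hw⟩, fun n k a => ?_⟩
  change _ ↔ U _ w
  rw [hw']
  constructor
  · intro ha
    exact ⟨n, k, a, ha, rfl⟩
  · rintro ⟨n', k', a', ha', hz⟩
    obtain ⟨h5, h6⟩ := opair_inj hz
    rw [opair_nat, opair_nat, Nat.cast_inj] at h5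
    have h7 := congrArg Nat.unpair h5
    rw [Nat.unpair_pair, Nat.unpair_pair, Prod.mk.injEq] at h7
    obtain ⟨rfl, rfl⟩ := h7
    have h9 : a = a' := by
      funext i
      exact hA.inj (congrFun (ostk_ofFn_inj h6) i)
    rw [h9]; exact ha'

end

/-- The formula expressing that `θ` holds when `X^1_0` is the set of the first `v_0` elements. -/
def DF (Θ : ℕ → Fm) (m : ℕ) : Fm :=
  Fm.ex (Fm.ex (Fm.ex (Fm.ex (Fm.ex (Fm.ex (Fm.ex (Fm.and (Fm.prv 6 5 8) (Fm.and (Fm.num m 4)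
    (Fm.and (Fm.num 2 1) (Fm.and (Fm.num 0 0) (Fm.and (nf 7) (Fm.and
      (Fm.all (Fm.imp (Fm.ltv 0 7)
        (Fm.iff (Fm.ex (Fm.and (Fm.prv 1 2 0) (U2 3 0 4))) (Fm.ltv 0 8))))
      (Fm.and (Fm.all (Fm.imp (nf 0) (Fm.ex (Fm.and (Fm.ltv 0 8)
        (Fm.all (Fm.iff (U2 2 0 6) (Fm.eqv 0 1)))))))
      (Fm.app (Θ (m + 1)) [4, 6, 5, 3, 2] 0))))))))))))))

theorem d_exists (V : Vocab) (θ : Formula V) : ∃ D : Fm,
    (∀ (Ω : Ordinal.{u}) [FullΩ Ω] (n x t : Lvl Ω),
      D.Sat (Lv Ω) (PFun.pr (Lv Ω) n (PFun.pr (Lv Ω) x t)) → ∃ k : ℕ, n.1 = k) ∧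
    ∀ (Ω : Ordinal.{u}) [FullΩ Ω] (M : Type u) (A : Str V M) (F : M → Ordinal.{u})
      (n x t : Lvl Ω), Codes A F (of1 x.1) (of2 x.1) → ∀ k : ℕ, n.1 = k →
      (D.Sat (Lv Ω) (PFun.pr (Lv Ω) n (PFun.pr (Lv Ω) x t)) ↔
        ∃ (e : ℕ → M) (W : SOAssign M), (∀ a : Fin 1 → M, W 1 0 a ↔ F (a 0) < k) ∧
          θ.Sat A e W) := by
  obtain ⟨Θ, -, hΘ⟩ := so_truth.{u} V
  refine ⟨DF Θ θ.code, ?_, ?_⟩
  · intro Ω _ n x t h
    simp only [DF, Fm.sat_ex', Fm.sat_and, sat_nf, nth_pr_zero, nth_pr_succ] at h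
    obtain ⟨_, _, _, _, _, _, _, _, _, _, _, h, _⟩ := h
    exact h
  · intro Ω _ M A F n x t hA k hk
    set o : Lvl Ω := PFun.f1 (Lv Ω) x with ho
    set y : Lvl Ω := PFun.f2 (Lv Ω) x with hy
    have hA' : Codes A F o.1 y.1 := hA
    have h10 : opair (1 : Ordinal.{u}) 0 = 2 := by
      have h := opair_nat.{u} 1 0
      have h2 : Nat.pair 1 0 = 2 := by decide
      rw [h2] at h
      exact_mod_cast h
    simp only [DF, Fm.sat_ex', Fm.sat_and, Fm.sat_all, Fm.sat_imp, Fm.sat_iff, Fm.sat_prv,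
      Fm.sat_eqv, sat_numL, sat_nf, sat_ltv, sat_U2, Fm.sat_app, nth_pr_zero, nth_pr_succ,
      List.map_cons, List.map_nil, List.foldr_cons, List.foldr_nil, eq_z0_iff, Nat.cast_zero]
    constructor
    · rintro ⟨o', y', c, v, w, q, z, h1, h2, h3, rfl, -, h4, h5, h6⟩
      have ho' : o' = o := by rw [ho, ← h1]; simp
      have hy' : y' = y := by rw [hy, ← h1]; simp
      subst ho' hy'
      have h5' : ∀ n : ℕ, ∃ m : M, ∀ ξ' : Lvl Ω, U (opair (n : Ordinal.{u}) ξ'.1) v.1 ↔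
          ξ'.1 = F m := by
        intro n
        obtain ⟨ξ, hξ1, hξ2⟩ := h5 (nm Ω n) ⟨n, rfl⟩
        obtain ⟨m, hm⟩ := (hA'.range ξ.1).1 hξ1
        refine ⟨m, fun ξ' => ?_⟩
        rw [hm]
        have := hξ2 ξ'
        rw [nm_val] at this
        rw [this]
        exact Subtype.ext_iff
      choose e he using h5'
      have hcv : CodesV F e v.1 := by
        intro n ξ'
        by_cases hlt : ξ' < Ω
        · exact he n ⟨ξ', hlt⟩
        · constructor
          · intro hU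
            exact absurd (((le_opair_right _ _).trans_lt (U_lt hU)).trans v.2) hlt
          · intro hU
            rw [hU] at hlt
            exact absurd ((F_lt hA' _).trans o.2) hlt
      refine ⟨e, (fun n k a => U (opair (opair (n : Ordinal.{u})
        (k : Ordinal.{u})) (ostk (List.ofFn fun i => F (a i)))) w.1), ?_, ?_⟩
      · intro a
        have h7 := h4 ⟨F (a 0), (F_lt hA' _).trans o.2⟩ (F_lt hA' _)
        have h8 : U (opair (opair ((1 : ℕ) : Ordinal.{u}) ((0 : ℕ) : Ordinal.{u}))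
            (ostk (List.ofFn fun i => F (a i)))) w.1 ↔ F (a 0) < n.1 := by
          rw [Nat.cast_one, Nat.cast_zero, h10]
          have h9 : ostk (List.ofFn fun i : Fin 1 => F (a i)) = opair (F (a 0)) 0 := by
            simp [List.ofFn_succ]
          rw [h9]
          constructor
          · intro hU
            exact h7.1 ⟨_, rfl, by rw [h3]; exact hU⟩
          · intro hlt
            obtain ⟨p, rfl, hU⟩ := h7.2 hlt
            rw [h3] at hU
            exact hU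
        rw [hk] at h8
        exact h8
      · exact (hΘ Ω M A F o y v w e _ _ c hA' hcv (fun n k a => Iff.rfl) θ (θ.code + 1)
          (Nat.lt_succ_self _) h2).1 h6
    · rintro ⟨e, W, hW, hθ⟩
      obtain ⟨v, hv⟩ := exists_codesV hA' e
      obtain ⟨w, hw⟩ := exists_codesW hA' W
      refine ⟨o, y, nm Ω θ.code, v, w, nm Ω 2, PFun.z0 (Lv Ω), ?_, rfl, ?_, rfl, ⟨k, hk⟩,
        ?_, ?_, ?_⟩
      · rw [ho, hy]; simp
      · rw [nm_val]
      · intro ξ hξ
        obtain ⟨m, hm⟩ := (hA'.range ξ.1).1 hξ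
        have h7 := hw 1 0 (fun _ => m)
        rw [Nat.cast_one, Nat.cast_zero, h10] at h7
        have h9 : ostk (List.ofFn fun _ : Fin 1 => F m) = opair (F m) 0 := by
          simp [List.ofFn_succ]
        rw [h9, hW, hm] at h7
        change _ ↔ ξ.1 < n.1
        rw [hk, h7]
        constructor
        · rintro ⟨p, rfl, hU⟩
          rw [nm_val] at hU
          exact_mod_cast hU
        · intro hU
          refine ⟨_, rfl, ?_⟩
          rw [nm_val]
          exact_mod_cast hU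
      · rintro i ⟨j, hj⟩
        refine ⟨⟨F (e j), (F_lt hA' _).trans o.2⟩, F_lt hA' _, ?_⟩
        intro ξ'
        change U (opair i.1 ξ'.1) v.1 ↔ _
        rw [hj, hv j]
        exact ⟨fun h => Subtype.ext h, fun h => congrArg Subtype.val h⟩
      · exact (hΘ Ω M A F o y v w e W _ (nm Ω θ.code) hA' hv hw θ (θ.code + 1)
          (Nat.lt_succ_self _) rfl).2 hθ

end Run7.h936.SO
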