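import Pool.Agent.Run7.h936.SO.Defs

/-!
# Definable axiomatizations
-/

namespace Run7.h936.SO

universe u

/-- The set `Y` of natural numbers is second-order definable over the structure `A`: some
second-order formula `θ` holds, when `X^1_0` is interpreted by a finite set `S` of elements of `A`
(and for all values of the other variables), if and only if the number of elements of `S` is
in `Y`. -/
def DefinableOver {V : Vocab} {M : Type u} (A : Str V M) (Y : Set ℕ) : Prop :=
  ∃ θ : Formula V, ∀ (e : ℕ → M) (W : SOAssign M) (S : Finset M),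
    θ.Sat A e (W.upd 1 0 (fun a => a 0 ∈ S)) ↔ S.card ∈ Y

/-- `T` is definably axiomatized: it has the same models (with domain a nonempty type in the
universe `u`) as some set `T₀` of sentences whose set of Gödel numbers is many-one reducible to a
set `Y` of natural numbers which is second-order definable over some model of `T`. -/
def DefinablyAxiomatized.{w} {V : Vocab} (T : Set (Formula V)) : Prop :=
  ∃ T₀ : Set (Formula V), (∀ φ ∈ T₀, φ.IsSentence) ∧
    (∀ (M : Type w) [Nonempty M] (A : Str V M), A.ModelsAll T ↔ A.ModelsAll T₀) ∧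
    ∃ (M : Type w) (_ : Nonempty M) (A : Str V M) (Y : Set ℕ), A.ModelsAll T ∧
      DefinableOver A Y ∧ ManyOneReducible (fun n : ℕ => ∃ φ ∈ T₀, φ.code = n) (fun n => n ∈ Y)

/-- `{0}` is definable over every structure. -/
theorem definableOver_zero {V : Vocab} {M : Type u} (A : Str V M) : DefinableOver A {0} := by
  refine ⟨.all 0 (.neg (.sov 1 0 (fun _ => .var 0))), fun e W S => ?_⟩
  simp only [Formula.Sat, Term.val, SOAssign.upd, dif_pos, Function.update_self,
    Set.mem_singleton_iff, Finset.card_eq_zero]
  constructor
  · intro h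
    rw [Finset.eq_empty_iff_forall_notMem]
    exact h
  · rintro rfl x
    exact Finset.notMem_empty x

/-- Recursive axiomatizations are definable. -/
theorem RecursivelyAxiomatized.definably.{w} {V : Vocab} {T : Set (Formula V)}
    (h : RecursivelyAxiomatized.{w} T)
    (hm : ∃ (M : Type w) (_ : Nonempty M) (A : Str V M), A.ModelsAll T) :
    DefinablyAxiomatized.{w} T := by
  obtain ⟨T₀, h1, ⟨hd, h2⟩, h3⟩ := h
  obtain ⟨M, hM, A, hA⟩ := hm
  refine ⟨T₀, h1, h3, M, hM, A, {0}, hA, definableOver_zero A,
    fun n => bif decide (∃ φ ∈ T₀, φ.code = n) then 0 else 1,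
    Computable.cond h2 (Computable.const 0) (Computable.const 1), fun n => ?_⟩
  by_cases hn : ∃ φ ∈ T₀, φ.code = n
  · simp [hn]
  · simp [hn]

end Run7.h936.SO
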