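import Mathlib

/-!
# Second-order logic with full semantics, and the axiom of constructibility

Definitions used in the statement of the result for MP_cba9f6_lc.
-/

namespace Run7.h936.SO

universe u v

/-- A finite vocabulary: `nRel` relation symbols and `nFun` function symbols, with arities
(function symbols of arity `0` are constants). -/
structure Vocab where
  nRel : ℕ
  relAr : Fin nRel → ℕ
  nFun : ℕ
  funAr : Fin nFun → ℕ

/-- Terms over the vocabulary `V`; `var i` is the individual variable `x_i`. -/
inductive Term (V : Vocab) : Type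
  | var (i : ℕ) : Term V
  | app (f : Fin V.nFun) (ts : Fin (V.funAr f) → Term V) : Term V

/-- Second-order formulas over the vocabulary `V`.  For every arity `n` and every `k` there is a
second-order variable `X^n_k` ranging over the `n`-ary relations of the domain. -/
inductive Formula (V : Vocab) : Type
  /-- `t = s` -/
  | eq (t s : Term V) : Formula V
  /-- `R(t_1,…,t_m)` for a relation symbol `R` of the vocabulary -/
  | rel (R : Fin V.nRel) (ts : Fin (V.relAr R) → Term V) : Formula V
  /-- `X^n_k(t_1,…,t_n)` for the second-order variable `X^n_k` -/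
  | sov (n k : ℕ) (ts : Fin n → Term V) : Formula V
  | neg (φ : Formula V) : Formula V
  | and (φ ψ : Formula V) : Formula V
  /-- `∀ x_i, φ` -/
  | all (i : ℕ) (φ : Formula V) : Formula V
  /-- `∀ X^n_k, φ` -/
  | allR (n k : ℕ) (φ : Formula V) : Formula V

/-- A structure for the vocabulary `V` with domain `M`. -/
structure Str (V : Vocab) (M : Type u) where
  rel : (R : Fin V.nRel) → (Fin (V.relAr R) → M) → Prop
  fn : (f : Fin V.nFun) → (Fin (V.funAr f) → M) → M

/-- An assignment of `n`-ary relations to the second-order variables `X^n_k`. -/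
abbrev SOAssign (M : Type u) := (n : ℕ) → ℕ → (Fin n → M) → Prop

/-- Change the value of `X^n_k` to `R`. -/
def SOAssign.upd {M : Type u} (W : SOAssign M) (n k : ℕ) (R : (Fin n → M) → Prop) : SOAssign M :=
  fun n' => if h : n' = n then (h ▸ Function.update (W n) k R) else W n'

/-- Value of a term. -/
def Term.val {V : Vocab} {M : Type u} (A : Str V M) (e : ℕ → M) : Term V → M
  | .var i => e i
  | .app f ts => A.fn f (fun i => (ts i).val A e)

/-- Satisfaction, with full second-order semantics. -/
def Formula.Sat {V : Vocab} {M : Type u} (A : Str V M) :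
    Formula V → (ℕ → M) → SOAssign M → Prop
  | .eq t s, e, _ => t.val A e = s.val A e
  | .rel R ts, e, _ => A.rel R (fun i => (ts i).val A e)
  | .sov n k ts, e, W => W n k (fun i => (ts i).val A e)
  | .neg φ, e, W => ¬ φ.Sat A e W
  | .and φ ψ, e, W => φ.Sat A e W ∧ ψ.Sat A e W
  | .all i φ, e, W => ∀ x : M, φ.Sat A (Function.update e i x) W
  | .allR n k φ, e, W => ∀ R : (Fin n → M) → Prop, φ.Sat A e (W.upd n k R)

/-- The variables of a term. -/
def Term.vars {V : Vocab} : Term V → Set ℕ
  | .var i => {i}
  | .app _ ts => ⋃ i, (ts i).vars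

/-- The free individual variables of a formula. -/
def Formula.free {V : Vocab} : Formula V → Set ℕ
  | .eq t s => t.vars ∪ s.vars
  | .rel _ ts => ⋃ i, (ts i).vars
  | .sov _ _ ts => ⋃ i, (ts i).vars
  | .neg φ => φ.free
  | .and φ ψ => φ.free ∪ ψ.free
  | .all i φ => φ.free \ {i}
  | .allR _ _ φ => φ.free

/-- The free second-order variables of a formula; `(n, k)` stands for `X^n_k`. -/
def Formula.freeR {V : Vocab} : Formula V → Set (ℕ × ℕ)
  | .eq _ _ => ∅
  | .rel _ _ => ∅
  | .sov n k _ => {(n, k)}
  | .neg φ => φ.freeR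
  | .and φ ψ => φ.freeR ∪ ψ.freeR
  | .all _ φ => φ.freeR
  | .allR n k φ => φ.freeR \ {(n, k)}

/-- A sentence is a formula without free variables of either kind. -/
def Formula.IsSentence {V : Vocab} (φ : Formula V) : Prop := φ.free = ∅ ∧ φ.freeR = ∅

/-- The sentence (or formula, all of whose assignments are considered) `φ` is true in `A`. -/
def Str.Models {V : Vocab} {M : Type u} (A : Str V M) (φ : Formula V) : Prop :=
  ∀ (e : ℕ → M) (W : SOAssign M), φ.Sat A e W

/-- `A` is a model of the theory `T`. -/
def Str.ModelsAll {V : Vocab} {M : Type u} (A : Str V M) (T : Set (Formula V)) : Prop :=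
  ∀ φ ∈ T, A.Models φ

/-- Code of a finite list of codes. -/
def codeList : List ℕ → ℕ
  | [] => 0
  | t :: l => Nat.pair 1 (Nat.pair t (codeList l))

/-- Gödel number of a term. -/
def Term.code {V : Vocab} : Term V → ℕ
  | .var i => Nat.pair 1 i
  | .app f ts => Nat.pair 2 (Nat.pair f (codeList (List.ofFn fun i => (ts i).code)))

/-- Gödel number of a formula. -/
def Formula.code {V : Vocab} : Formula V → ℕ
  | .eq t s => Nat.pair 1 (Nat.pair t.code s.code)
  | .rel R ts => Nat.pair 2 (Nat.pair R (codeList (List.ofFn fun i => (ts i).code)))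
  | .sov n k ts => Nat.pair 3 (Nat.pair (Nat.pair n k) (codeList (List.ofFn fun i => (ts i).code)))
  | .neg φ => Nat.pair 4 φ.code
  | .and φ ψ => Nat.pair 5 (Nat.pair φ.code ψ.code)
  | .all i φ => Nat.pair 6 (Nat.pair i φ.code)
  | .allR n k φ => Nat.pair 7 (Nat.pair (Nat.pair n k) φ.code)

/-- A set of formulas is recursive if the set of its Gödel numbers is a computable set. -/
def RecursiveSet {V : Vocab} (T : Set (Formula V)) : Prop :=
  ComputablePred fun n : ℕ => ∃ φ ∈ T, φ.code = n

/-- `T` is recursively axiomatized: it has the same models (with domain a nonempty type in the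
universe `u`) as some recursive set of sentences. -/
def RecursivelyAxiomatized.{w} {V : Vocab} (T : Set (Formula V)) : Prop :=
  ∃ T₀ : Set (Formula V), (∀ φ ∈ T₀, φ.IsSentence) ∧ RecursiveSet T₀ ∧
    ∀ (M : Type w) [Nonempty M] (A : Str V M), A.ModelsAll T ↔ A.ModelsAll T₀

/-- `T` is complete: it has a model, and every sentence is true in all models of `T` or its
negation is true in all models of `T`. -/
def Complete.{w} {V : Vocab} (T : Set (Formula V)) : Prop :=
  (∃ (M : Type w) (_ : Nonempty M) (A : Str V M), A.ModelsAll T) ∧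
  ∀ φ : Formula V, φ.IsSentence →
    (∀ (M : Type w) [Nonempty M] (A : Str V M), A.ModelsAll T → A.Models φ) ∨
    (∀ (M : Type w) [Nonempty M] (A : Str V M), A.ModelsAll T → A.Models (.neg φ))

/-- `A` and `B` are isomorphic. -/
def Str.Isom {V : Vocab} {M N : Type u} (A : Str V M) (B : Str V N) : Prop :=
  ∃ F : M ≃ N, (∀ R a, A.rel R a ↔ B.rel R (fun i => F (a i))) ∧
    (∀ f a, F (A.fn f a) = B.fn f (fun i => F (a i)))

/-- `T` is categorical: any two models are isomorphic. -/
def Categorical.{w} {V : Vocab} (T : Set (Formula V)) : Prop :=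
  ∀ (M N : Type w) [Nonempty M] [Nonempty N] (A : Str V M) (B : Str V N),
    A.ModelsAll T → B.ModelsAll T → A.Isom B

/-! ### The constructible hierarchy -/

/-- The relation symbols of the language of set theory: one binary symbol. -/
inductive SetRel : ℕ → Type
  | mem : SetRel 2

/-- The language of set theory. -/
def setLang : FirstOrder.Language := ⟨fun _ => Empty, SetRel⟩

/-- A class `X` of sets, with the membership relation, as a structure. -/
instance setStructure (X : Set ZFSet.{u}) : setLang.Structure X where
  funMap := fun f => Empty.elim f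
  RelMap := fun {_} r =>
    match r with
    | .mem => fun v => ((v 0 : X) : ZFSet.{u}) ∈ ((v 1 : X) : ZFSet.{u})

/-- `Def(X)`: the sets `x ⊆ X` that are first-order definable over `(X, ∈)` with parameters
from `X`. -/
def DefPow (X : Set ZFSet.{u}) : Set ZFSet.{u} :=
  {x | (∀ y ∈ x, y ∈ X) ∧
    (Set.univ : Set X).Definable₁ setLang {y : X | (y : ZFSet.{u}) ∈ x}}

/-- The constructible hierarchy: `L_α = ⋃_{β < α} Def(L_β)`. -/
noncomputable def LSet (α : Ordinal.{u}) : Set ZFSet.{u} :=
  {x | ∃ β, ∃ _ : β < α, x ∈ DefPow (LSet β)}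
termination_by α

/-- The axiom of constructibility `V = L` (for the universe `ZFSet.{u}` of sets). -/
def VeqL.{w} : Prop := ∀ x : ZFSet.{w}, ∃ α : Ordinal.{w}, x ∈ LSet α

end Run7.h936.SO
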