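import Pool.Agent.Run7.h936.SO.Sigma

/-!
# Definability, elementary embeddings, hulls and condensation
-/

namespace Run7.h936.SO

universe u v

open Ordinal Set

/-! ### More formulas -/

section
variable {δ : Ordinal.{u}} [COrd δ]


omit [COrd δ] in
theorem hltL : ∀ x y z : Lvl δ, (Lv δ).r 2 x y z ↔ ((Equiv.refl (Lvl δ)) x).1 <
    ((Equiv.refl (Lvl δ)) y).1 := fun _ _ _ => Iff.rfl

@[simp] theorem sat_ltL (i j : ℕ) (a : Lvl δ) :
    (Fm.lt' i j).Sat (Lv δ) a ↔ nth (Lv δ) a i < nth (Lv δ) a j := sat_lt' hltL i j a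

@[simp] theorem sat_numL (n i : ℕ) (a : Lvl δ) :
    (Fm.num n i).Sat (Lv δ) a ↔ (nth (Lv δ) a i).1 = (n : ℕ) := sat_num hltL n i a

theorem cl_iff' (d : Lvl δ) : Cl (Lv δ) (fun x => ((Equiv.refl (Lvl δ)) x).1) d ↔ Closed d.1 :=
  cl_iff d

@[simp] theorem sat_clL (d : ℕ) (a : Lvl δ) :
    (Fm.clF d).Sat (Lv δ) a ↔ Closed (nth (Lv δ) a d).1 := by
  rw [sat_clF hltL, cl_iff']

theorem eq_z0_iff {x : Lvl δ} : x.1 = 0 ↔ x = (PFun.z0 (Lv δ)) := by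
  rw [← z0_val (δ := δ), Subtype.ext_iff]

namespace Fm
/-- Evaluate `φ` at the stack of the variables of the list. -/
def ap (φ : Fm) (l : List ℕ) : Fm := ex (and (num 0 0) (app φ (l.map (· + 1)) 0))

/-- `v_i` is the element defined by `φ` from `v_j`. -/
def dBy (φ : Fm) (i j : ℕ) : Fm :=
  and (ap φ [i, j]) (all (imp (lt' 0 (i + 1)) (not (ap φ [0, j + 1]))))
end Fm

@[simp] theorem sat_ap (φ : Fm) (l : List ℕ) (a : Lvl δ) :
    (Fm.ap φ l).Sat (Lv δ) a ↔ φ.Sat (Lv δ) (stk (Lv δ) (l.map (nth (Lv δ) a))) := by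
  simp only [Fm.ap, Fm.sat_ex', Fm.sat_and, sat_numL, Fm.sat_app, nth_pr_zero, Nat.cast_zero]
  have key : ∀ x : Lvl δ, List.map (nth (Lv δ) (PFun.pr (Lv δ) x a)) (List.map (· + 1) l) =
      List.map (nth (Lv δ) a) l := by
    intro x
    rw [List.map_map]
    apply List.map_congr_left
    intro i _
    exact nth_pr_succ (Lv δ) _ _ _
  have key2 : ∀ l : List (Lvl δ), List.foldr (PFun.pr (Lv δ)) (PFun.z0 (Lv δ)) l = stk (Lv δ) l := by
    intro l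
    induction l with
    | nil => rfl
    | cons x l ih => rw [List.foldr_cons, ih, stk_cons]
  constructor
  · rintro ⟨x, h1, h2⟩
    rw [eq_z0_iff] at h1
    subst h1
    rw [key, key2] at h2
    exact h2
  · intro h
    refine ⟨(PFun.z0 (Lv δ)), rfl, ?_⟩
    rw [key, key2]
    exact h

/-- `y` is the least element with `φ[y, b]`. -/
def DefBy (φ : Fm) (b y : Lvl δ) : Prop :=
  φ.Sat (Lv δ) (PFun.pr (Lv δ) y (PFun.pr (Lv δ) b (PFun.z0 (Lv δ)))) ∧ ∀ y' < y, ¬ φ.Sat (Lv δ) (PFun.pr (Lv δ) y' (PFun.pr (Lv δ) b (PFun.z0 (Lv δ))))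

/-- `y` is definable from `b`. -/
def Dfn (b y : Lvl δ) : Prop := ∃ φ, DefBy φ b y

@[simp] theorem sat_dBy (φ : Fm) (i j : ℕ) (a : Lvl δ) :
    (Fm.dBy φ i j).Sat (Lv δ) a ↔ DefBy φ (nth (Lv δ) a j) (nth (Lv δ) a i) := by
  simp [Fm.dBy, DefBy]

theorem DefBy.unique {φ : Fm} {b y y' : Lvl δ} (h : DefBy φ b y) (h' : DefBy φ b y') : y = y' := by
  rcases lt_trichotomy y y' with k | k | k
  · exact absurd h.1 (h'.2 _ k)
  · exact k
  · exact absurd h'.1 (h.2 _ k)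

theorem DefBy.of_unique {φ : Fm} {b y : Lvl δ}
    (h : ∀ y', φ.Sat (Lv δ) (PFun.pr (Lv δ) y' (PFun.pr (Lv δ) b (PFun.z0 (Lv δ)))) ↔ y' = y) : DefBy φ b y :=
  ⟨(h y).2 rfl, fun y' hy' hs => absurd ((h y').1 hs) hy'.ne⟩

theorem exists_defBy {φ : Fm} {b : Lvl δ} (h : ∃ y, φ.Sat (Lv δ) (PFun.pr (Lv δ) y (PFun.pr (Lv δ) b (PFun.z0 (Lv δ))))) :
    ∃ y, DefBy φ b y := by
  classical
  obtain ⟨y, hy, hmin⟩ := WellFounded.has_min (wellFounded_lt (α := Lvl δ))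
    {y | φ.Sat (Lv δ) (PFun.pr (Lv δ) y (PFun.pr (Lv δ) b (PFun.z0 (Lv δ))))} h
  exact ⟨y, hy, fun y' hy' hs => hmin y' hs hy'⟩

theorem Dfn.refl (b : Lvl δ) : Dfn b b :=
  ⟨Fm.eqv 0 1, DefBy.of_unique (by intro y'; simp)⟩

theorem DefBy.comp {φ ψ : Fm} {b x y : Lvl δ} (h1 : DefBy φ b x) (h2 : DefBy ψ x y) :
    DefBy (Fm.ex (Fm.and (Fm.dBy φ 0 2) (Fm.dBy ψ 1 0))) b y := by
  apply DefBy.of_unique
  intro y'
  simp only [Fm.sat_ex', Fm.sat_and, sat_dBy, nth_pr_zero, nth_pr_succ]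
  constructor
  · rintro ⟨x', h3, h4⟩
    have := h3.unique h1
    subst this
    exact h4.unique h2
  · rintro rfl
    exact ⟨x, h1, h2⟩

theorem Dfn.trans {b x y : Lvl δ} (h1 : Dfn b x) (h2 : Dfn x y) : Dfn b y := by
  obtain ⟨φ, h1⟩ := h1
  obtain ⟨ψ, h2⟩ := h2
  exact ⟨_, h1.comp h2⟩

theorem Dfn.f1 (b : Lvl δ) : Dfn b (PFun.f1 (Lv δ) b) := by
  refine ⟨Fm.ex (Fm.prv 1 0 2), DefBy.of_unique ?_⟩
  intro y'
  simp only [Fm.sat_ex', Fm.sat_prv, nth_pr_zero, nth_pr_succ]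
  constructor
  · rintro ⟨x, rfl⟩; simp
  · rintro rfl; exact ⟨_, PFun.pr_f b⟩

theorem Dfn.f2 (b : Lvl δ) : Dfn b (PFun.f2 (Lv δ) b) := by
  refine ⟨Fm.ex (Fm.prv 0 1 2), DefBy.of_unique ?_⟩
  intro y'
  simp only [Fm.sat_ex', Fm.sat_prv, nth_pr_zero, nth_pr_succ]
  constructor
  · rintro ⟨x, rfl⟩; simp
  · rintro rfl; exact ⟨_, PFun.pr_f b⟩

theorem Dfn.num (b : Lvl δ) (n : ℕ) (y : Lvl δ) (hy : y.1 = n) : Dfn b y := by
  refine ⟨Fm.num n 0, DefBy.of_unique ?_⟩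
  intro y'
  simp only [sat_numL, nth_pr_zero]
  rw [← hy, Subtype.ext_iff]

theorem Dfn.z0 (b : Lvl δ) : Dfn b (PFun.z0 (Lv δ)) := Dfn.num b 0 _ (by simp)

theorem Dfn.pair {b x y : Lvl δ} (h1 : Dfn b x) (h2 : Dfn b y) : Dfn b (PFun.pr (Lv δ) x y) := by
  obtain ⟨φ, h1⟩ := h1
  obtain ⟨ψ, h2⟩ := h2
  refine ⟨Fm.ex (Fm.ex (Fm.and (Fm.dBy φ 1 3) (Fm.and (Fm.dBy ψ 0 3) (Fm.prv 1 0 2)))),
    DefBy.of_unique ?_⟩
  intro z
  simp only [Fm.sat_ex', Fm.sat_and, sat_dBy, Fm.sat_prv, nth_pr_zero, nth_pr_succ]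
  constructor
  · rintro ⟨x', y', h3, h4, h5⟩
    rw [h3.unique h1, h4.unique h2] at h5
    exact h5.symm
  · rintro rfl
    exact ⟨x, y, h1, h2, rfl⟩

theorem Dfn.of_f1 {b x y : Lvl δ} (h : Dfn b (PFun.pr (Lv δ) x y)) : Dfn b x := by
  have := h.trans (Dfn.f1 _)
  rwa [PFun.f1_pr] at this

theorem Dfn.of_f2 {b x y : Lvl δ} (h : Dfn b (PFun.pr (Lv δ) x y)) : Dfn b y := by
  have := h.trans (Dfn.f2 _)
  rwa [PFun.f2_pr] at this

/-- Least witnesses are definable. -/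
theorem Dfn.least {φ : Fm} {a x : Lvl δ} (h : φ.Sat (Lv δ) (PFun.pr (Lv δ) x a))
    (hmin : ∀ x' < x, ¬ φ.Sat (Lv δ) (PFun.pr (Lv δ) x' a)) : Dfn a x := by
  have key : ∀ x', (Fm.ex (Fm.and (Fm.prv 1 2 0) (Fm.top φ))).Sat (Lv δ) (PFun.pr (Lv δ) x' (PFun.pr (Lv δ) a (PFun.z0 (Lv δ)))) ↔
      φ.Sat (Lv δ) (PFun.pr (Lv δ) x' a) := by
    intro x'
    simp only [Fm.sat_ex', Fm.sat_and, Fm.sat_prv, sat_top, Std.tp_eq, nth_pr_zero, nth_pr_succ,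
      PFun.f1_pr]
    constructor
    · rintro ⟨z, rfl, h⟩; exact h
    · intro h; exact ⟨_, rfl, h⟩
  exact ⟨_, (key x).2 h, fun x' hx' hs => hmin x' hx' ((key x').1 hs)⟩

end

/-! ### Elementary embeddings -/

/-- Elementary embeddings between levels. -/
structure Emb (ζ δ : Ordinal.{u}) [COrd ζ] [COrd δ] (j : Lvl ζ → Lvl δ) : Prop where
  el : ∀ φ a, Fm.Sat (Lv ζ) φ a ↔ Fm.Sat (Lv δ) φ (j a)
  pr : ∀ x y, j (PFun.pr (Lv ζ) x y) = PFun.pr (Lv δ) (j x) (j y)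

namespace Emb
variable {ζ δ : Ordinal.{u}} [COrd ζ] [COrd δ] {j : Lvl ζ → Lvl δ} (h : Emb ζ δ j)
include h

theorem f1 (x : Lvl ζ) : j (PFun.f1 (Lv ζ) x) = PFun.f1 (Lv δ) (j x) := by
  conv_rhs => rw [← PFun.pr_f (M := Lv ζ) x, h.pr, PFun.f1_pr]

theorem f2 (x : Lvl ζ) : j (PFun.f2 (Lv ζ) x) = PFun.f2 (Lv δ) (j x) := by
  conv_rhs => rw [← PFun.pr_f (M := Lv ζ) x, h.pr, PFun.f2_pr]

theorem lt_iff {x y : Lvl ζ} : x < y ↔ j x < j y := by
  have := h.el (Fm.lt' 0 1) (PFun.pr (Lv ζ) x (PFun.pr (Lv ζ) y y))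
  simpa [h.pr] using this

theorem inj : Function.Injective j := by
  intro x y hxy
  rcases lt_trichotomy x y with k | k | k
  · rw [h.lt_iff, hxy] at k; exact absurd k (lt_irrefl _)
  · exact k
  · rw [h.lt_iff, hxy] at k; exact absurd k (lt_irrefl _)

theorem le_iff {x y : Lvl ζ} : x ≤ y ↔ j x ≤ j y := by
  rw [← not_lt, ← not_lt, h.lt_iff]

theorem num {x : Lvl ζ} (n : ℕ) : x.1 = n ↔ (j x).1 = n := by
  have := h.el (Fm.num n 0) (PFun.pr (Lv ζ) x x)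
  simpa [h.pr] using this

theorem z0 : j (PFun.z0 (Lv ζ)) = PFun.z0 (Lv δ) := by
  have := (h.num (x := PFun.z0 (Lv ζ)) 0).1 (by simp)
  rw [← eq_z0_iff]; simpa using this

theorem closed_iff {x : Lvl ζ} : Closed x.1 ↔ Closed (j x).1 := by
  have := h.el (Fm.clF 0) (PFun.pr (Lv ζ) x x)
  simpa [h.pr] using this

theorem sat2 (φ : Fm) (x y : Lvl ζ) :
    φ.Sat (Lv ζ) (PFun.pr (Lv ζ) x (PFun.pr (Lv ζ) y (PFun.z0 (Lv ζ)))) ↔
      φ.Sat (Lv δ) (PFun.pr (Lv δ) (j x) (PFun.pr (Lv δ) (j y) (PFun.z0 (Lv δ)))) := by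
  rw [h.el, h.pr, h.pr, h.z0]

theorem defBy {φ : Fm} {b y : Lvl ζ} : DefBy φ b y ↔ DefBy φ (j b) (j y) := by
  have := h.el (Fm.dBy φ 0 1) (PFun.pr (Lv ζ) y (PFun.pr (Lv ζ) b b))
  simpa [h.pr] using this

theorem dfn {b y : Lvl ζ} (hd : Dfn b y) : Dfn (j b) (j y) := by
  obtain ⟨φ, hφ⟩ := hd
  exact ⟨φ, h.defBy.1 hφ⟩

theorem satT {d m a : Lvl ζ} : SatT d.1 m.1 a.1 ↔ SatT (j d).1 (j m).1 (j a).1 := by
  have := h.el (Fm.STv 0 1 2) (PFun.pr (Lv ζ) d (PFun.pr (Lv ζ) m (PFun.pr (Lv ζ) a a)))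
  simpa [h.pr] using this

end Emb

/-! ### Collapse of sets of ordinals -/

instance small_col (X : Set Ordinal.{u}) (x : Ordinal.{u}) :
    Small.{u} {y : Ordinal.{u} // y ∈ X ∧ y < x} :=
  small_of_injective (β := Iio x) (f := fun y => ⟨y.1, y.2.2⟩)
    (fun _ _ hab => Subtype.ext (congrArg (fun z : Iio x => z.1) hab))

/-- The collapse of a set of ordinals. -/
noncomputable def col (X : Set Ordinal.{u}) (x : Ordinal.{u}) : Ordinal.{u} :=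
  ⨆ y : {y : Ordinal.{u} // y ∈ X ∧ y < x}, col X y.1 + 1
termination_by x
decreasing_by exact y.2.2

theorem col_lt {X : Set Ordinal.{u}} {x y : Ordinal.{u}} (hx : x ∈ X) (h : x < y) :
    col X x < col X y := by
  rw [col.eq_1 X y]
  exact Ordinal.lt_iSup_add_one (fun y' : {y' : Ordinal.{u} // y' ∈ X ∧ y' < y} => col X y'.1)
    ⟨x, hx, h⟩

theorem exists_of_lt_col {X : Set Ordinal.{u}} (x : Ordinal.{u}) :
    ∀ z, z < col X x → ∃ y ∈ X, y < x ∧ col X y = z := by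
  induction x using WellFoundedLT.induction with
  | _ x ih =>
    intro z hz
    rw [col, Ordinal.lt_iSup_add_one_iff] at hz
    obtain ⟨y, hy⟩ := hz
    rcases hy.eq_or_lt with h | h
    · exact ⟨y.1, y.2.1, y.2.2, h.symm⟩
    · obtain ⟨w, h1, h2, h3⟩ := ih y.1 y.2.2 z h
      exact ⟨w, h1, h2.trans y.2.2, h3⟩

theorem col_le {X : Set Ordinal.{u}} (x : Ordinal.{u}) : col X x ≤ x := by
  induction x using WellFoundedLT.induction with
  | _ x ih =>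
    rw [col]
    apply Ordinal.iSup_add_one_le
    intro y
    exact (ih y.1 y.2.2).trans_lt y.2.2

theorem col_mono {X : Set Ordinal.{u}} {x y : Ordinal.{u}} (h : x ≤ y) : col X x ≤ col X y := by
  rw [col.eq_1 X x]
  apply Ordinal.iSup_add_one_le
  intro z
  exact col_lt z.2.1 (z.2.2.trans_le h)

theorem col_eq_self {X : Set Ordinal.{u}} (x : Ordinal.{u}) (h : ∀ y < x, y ∈ X) :
    col X x = x := by
  induction x using WellFoundedLT.induction with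
  | _ x ih =>
    apply le_antisymm (col_le x)
    by_contra hlt
    push Not at hlt
    have h1 := ih _ hlt (fun y hy => h y (hy.trans hlt))
    have h2 := col_lt (h _ hlt) hlt
    rw [h1] at h2
    exact lt_irrefl _ h2

theorem GLt_map {α : Type*} [LinearOrder α] {f : α → Ordinal.{u}}
    {g : α → Ordinal.{u}} (hf : StrictMono f) (hg : StrictMono g) (x y x' y' : α) :
    GLt (f x, f y) (f x', f y') ↔ GLt (g x, g y) (g x', g y') := by
  have h1 : ∀ a b : α, max (f a) (f b) = f (max a b) := fun a b => (hf.monotone.map_max).symm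
  have h2 : ∀ a b : α, max (g a) (g b) = g (max a b) := fun a b => (hg.monotone.map_max).symm
  unfold GLt
  simp only [h1, h2, hf.lt_iff_lt, hg.lt_iff_lt, hf.injective.eq_iff, hg.injective.eq_iff]

/-! ### Elementary substructures of levels -/

section
variable {δ : Ordinal.{u}} [COrd δ]

/-- Closure conditions making a subset an elementary substructure. -/
structure ElSub (H : Set (Lvl δ)) : Prop where
  z0 : PFun.z0 (Lv δ) ∈ H
  pr : ∀ x ∈ H, ∀ y ∈ H, PFun.pr (Lv δ) x y ∈ H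
  f1 : ∀ x ∈ H, PFun.f1 (Lv δ) x ∈ H
  f2 : ∀ x ∈ H, PFun.f2 (Lv δ) x ∈ H
  least : ∀ (φ : Fm) (a x : Lvl δ), a ∈ H → φ.Sat (Lv δ) (PFun.pr (Lv δ) x a) →
    (∀ x' < x, ¬ φ.Sat (Lv δ) (PFun.pr (Lv δ) x' a)) → x ∈ H

/-- The restriction of the level structure to a subset. -/
def HStr (H : Set (Lvl δ)) : FStr H where
  P := fun x y z => (Lv δ).P x y z
  Q := fun x a => (Lv δ).Q x a
  r := fun s x y z => (Lv δ).r s x y z

variable {H : Set (Lvl δ)} (hH : ElSub H)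

/-- Pairing on the substructure. -/
@[reducible] noncomputable def HStd (hH : ElSub H) : Std (HStr H) where
  pr := fun x y => ⟨PFun.pr (Lv δ) x.1 y.1, hH.pr _ x.2 _ y.2⟩
  f1 := fun x => ⟨PFun.f1 (Lv δ) x.1, hH.f1 _ x.2⟩
  f2 := fun x => ⟨PFun.f2 (Lv δ) x.1, hH.f2 _ x.2⟩
  tp := fun x => ⟨PFun.f1 (Lv δ) x.1, hH.f1 _ x.2⟩
  z0 := ⟨PFun.z0 (Lv δ), hH.z0⟩
  f1_pr := fun x y => Subtype.ext (by simp)
  f2_pr := fun x y => Subtype.ext (by simp)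
  pr_f := fun z => Subtype.ext (by simp)
  P_iff := fun x y z => by
    change (Lv δ).P x y z ↔ _
    rw [PFun.P_iff]
    exact ⟨fun h => Subtype.ext h, fun h => congrArg Subtype.val h⟩
  Q_iff := fun x a => by
    change (Lv δ).Q x a ↔ _
    rw [PFun.Q_iff, Std.tp_eq]
    exact ⟨fun h => Subtype.ext h, fun h => congrArg Subtype.val h⟩
  tp_eq := fun _ => rfl
  r0 := fun x y z => by
    change (Lv δ).r 0 x y z ↔ _
    rw [Std.r0]
    exact ⟨fun h => Subtype.ext h, fun h => congrArg Subtype.val h⟩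
  r1 := fun x y z => by
    change (Lv δ).r 1 x y z ↔ _
    rw [Std.r1]
    exact ⟨fun h => Subtype.ext h, fun h => congrArg Subtype.val h⟩

include hH

theorem ElSub.sat (φ : Fm) (a : H) : φ.Sat (HStr H) a ↔ φ.Sat (Lv δ) a.1 := by
  induction φ generalizing a with
  | atom s =>
    let _ := HStd hH
    rw [sat_atom, sat_atom]; rfl
  | nand φ ψ h1 h2 => simp only [Fm.Sat, h1, h2]
  | ex φ ih =>
    let _ := HStd hH
    rw [sat_ex, sat_ex]
    constructor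
    · rintro ⟨x, hx⟩
      rw [ih] at hx
      exact ⟨x.1, hx⟩
    · intro hex
      obtain ⟨x, hx, hmin⟩ := WellFounded.has_min (wellFounded_lt (α := Lvl δ))
        {x | φ.Sat (Lv δ) (PFun.pr (Lv δ) x a.1)} hex
      have hxH : x ∈ H := hH.least φ a.1 x a.2 hx (fun x' hx' hs => hmin x' hs hx')
      refine ⟨⟨x, hxH⟩, ?_⟩
      rw [ih]
      exact hx
  | top φ ih =>
    let _ := HStd hH
    rw [sat_top, sat_top, ih]; rfl
  | drop φ ih =>
    let _ := HStd hH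
    rw [sat_drop, sat_drop, ih]; rfl

/-- Condensation: elementary substructures of levels are levels. -/
theorem ElSub.collapse : ∃ (ζ : Ordinal.{u}) (_ : COrd ζ) (j : Lvl ζ → Lvl δ),
    Emb ζ δ j ∧ Set.range j = H ∧ ζ ≤ δ ∧ (∀ x, x.1 ≤ (j x).1) ∧
    (∀ x : Lvl ζ, (∀ y : Lvl δ, y.1 < x.1 → y ∈ H) → ∀ y : Lvl δ, y ∈ H → y.1 = x.1 → j x = y) := by
  let _ := HStd hH
  set X : Set Ordinal.{u} := Subtype.val '' H with hX
  have hXδ : ∀ x ∈ X, x < δ := by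
    rintro x ⟨y, _, rfl⟩; exact y.2
  set ζ := col X δ with hζ
  have hmem : ∀ x : H, x.1.1 ∈ X := fun x => ⟨x.1, x.2, rfl⟩
  let f : H → Lvl ζ := fun x => ⟨col X x.1.1, col_lt (hmem x) x.1.2⟩
  have hf : StrictMono f := by
    intro x y hxy
    exact col_lt (hmem x) hxy
  have hfs : Function.Surjective f := by
    rintro ⟨z, hz⟩
    obtain ⟨y, hy, hyδ, h2⟩ := exists_of_lt_col δ z hz
    obtain ⟨y', hy', rfl⟩ := hy
    exact ⟨⟨y', hy'⟩, Subtype.ext h2⟩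
  let c : H ≃ Lvl ζ := Equiv.ofBijective f ⟨hf.injective, hfs⟩
  have hcv : ∀ x : H, (c x).1 = col X x.1.1 := fun x => rfl
  have hclt : ∀ x y : H, (c x).1 < (c y).1 ↔ x.1.1 < y.1.1 := by
    intro x y
    exact (hf.lt_iff_lt (a := x) (b := y))
  have hlt : ∀ x y z : H, (HStr H).r 2 x y z ↔ (c x).1 < (c y).1 := by
    intro x y z
    rw [hclt]; exact Iff.rfl
  have hmono : PrMono (HStr H) c := by
    intro x y x' y'
    rw [hclt]
    change opair x.1.1 y.1.1 < opair x'.1.1 y'.1.1 ↔ _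
    rw [opair_lt_iff]
    exact GLt_map (α := H) (f := fun x : H => x.1.1) (g := fun x : H => (c x).1)
      (fun _ _ hab => hab) (fun a b hab => (hclt a b).2 hab) x y x' y'
  have hpos : 0 < ζ := (zero_le).trans_lt (c ⟨PFun.z0 (Lv δ), hH.z0⟩).2
  have : COrd ζ := ⟨hmono.closed, hpos⟩
  have hcl : Clauses (HStr H) (fun x => (c x).1) := by
    rw [← sat_sigma hlt (⟨PFun.z0 (Lv δ), hH.z0⟩ : H), hH.sat, sat_sigma hltL]
    exact clauses_Lv
  have h7 : ∀ s (x y z : H), ¬ (HStr H).r (s + 7) x y z := by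
    intro s x y z hh
    change orel (s + 7) x.1.1 y.1.1 z.1.1 at hh
    simp [orel] at hh
  refine ⟨ζ, inferInstance, fun x => (c.symm x).1, ⟨?_, ?_⟩, ?_, col_le δ, ?_, ?_⟩
  · intro φ a
    rw [← hH.sat, unique_sat hmono hcl hlt h7, Equiv.apply_symm_apply]
  · intro x y
    have : c.symm (PFun.pr (Lv ζ) x y) = PFun.pr (HStr H) (c.symm x) (c.symm y) := by
      rw [Equiv.symm_apply_eq, hmono.cpr, Equiv.apply_symm_apply, Equiv.apply_symm_apply]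
    change (c.symm (PFun.pr (Lv ζ) x y)).1 = _
    rw [this]
    rfl
  · ext y
    constructor
    · rintro ⟨x, rfl⟩; exact (c.symm x).2
    · intro hy; exact ⟨c ⟨y, hy⟩, by simp⟩
  · intro x
    obtain ⟨y, rfl⟩ := c.surjective x
    change (c y).1 ≤ (c.symm (c y)).1.1
    rw [Equiv.symm_apply_apply, hcv]
    exact col_le _
  · intro x hx y hy hyx
    have h1 : (c ⟨y, hy⟩).1 = y.1 := by
      rw [hcv]
      apply col_eq_self
      intro w hw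
      exact ⟨⟨w, hw.trans y.2⟩, hx ⟨w, hw.trans y.2⟩ (hyx ▸ hw), rfl⟩
    have h2 : x = c ⟨y, hy⟩ := by
      apply Subtype.ext; rw [h1, hyx]
    change (c.symm x).1 = y
    rw [h2, Equiv.symm_apply_apply]

omit hH in
/-- The hull of a directed set of parameters. -/
theorem elSub_hull {B : Set (Lvl δ)} (hne : B.Nonempty)
    (hdir : ∀ b₁ ∈ B, ∀ b₂ ∈ B, ∃ b ∈ B, Dfn b b₁ ∧ Dfn b b₂) :
    ElSub {y : Lvl δ | ∃ b ∈ B, Dfn b y} where
  z0 := by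
    obtain ⟨b, hb⟩ := hne
    exact ⟨b, hb, Dfn.z0 b⟩
  pr := by
    rintro x ⟨b₁, h1, h1'⟩ y ⟨b₂, h2, h2'⟩
    obtain ⟨b, hb, k1, k2⟩ := hdir b₁ h1 b₂ h2
    exact ⟨b, hb, (k1.trans h1').pair (k2.trans h2')⟩
  f1 := by
    rintro x ⟨b, h1, h1'⟩
    exact ⟨b, h1, h1'.trans (Dfn.f1 _)⟩
  f2 := by
    rintro x ⟨b, h1, h1'⟩
    exact ⟨b, h1, h1'.trans (Dfn.f2 _)⟩
  least := by
    rintro φ a x ⟨b, h1, h1'⟩ h2 h3
    exact ⟨b, h1, h1'.trans (Dfn.least h2 h3)⟩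

end

end Run7.h936.SO
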