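import Pool.Agent.Run7.h936.SO.P2
import Pool.Agent.Run7.h936.SO.Hull
import Pool.Agent.Run7.h505.SO.N

/-! The formula defining the least codes of structures. -/

namespace Run7.h936.SO

universe u

open Ordinal Set

/-- Isomorphic codes are the codes of the structure. -/
theorem isCode_iff_isoCode {V : Vocab} {M : Type u} {A : Str V M} {F : M → Ordinal.{u}}
    {o y : Ordinal.{u}} (hF : Codes A F o y) (x' : Ordinal.{u}) :
    IsCode A x' ↔ IsoCode V o y (of1 x') (of2 x') := by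
  classical
  have hFo : ∀ m, F m < o := fun m => (hF.range _).2 ⟨m, rfl⟩
  constructor
  · rintro ⟨G, hG⟩
    have hinv : ∀ ξ : Ordinal.{u}, ∃ η : Ordinal.{u}, ∀ m, F m = ξ → G m = η := by
      intro ξ
      by_cases h : ∃ m, F m = ξ
      · obtain ⟨m, hm⟩ := h
        refine ⟨G m, fun m' hm' => ?_⟩
        rw [hF.inj (hm'.trans hm.symm)]
      · exact ⟨0, fun m hm => absurd ⟨m, hm⟩ h⟩
    choose h hh using hinv
    have hhF : ∀ m, h (F m) = G m := fun m => (hh (F m) m rfl).symm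
    refine ⟨h, ⟨?_, ?_, ?_⟩, ?_, ?_⟩
    · intro ξ hξ
      obtain ⟨m, rfl⟩ := (hF.range ξ).1 hξ
      rw [hhF]
      exact (hG.range _).2 ⟨m, rfl⟩
    · intro ξ hξ ξ' hξ' he
      obtain ⟨m, rfl⟩ := (hF.range ξ).1 hξ
      obtain ⟨m', rfl⟩ := (hF.range ξ').1 hξ'
      rw [hhF, hhF] at he
      rw [hG.inj he]
    · intro η hη
      obtain ⟨m, rfl⟩ := (hG.range η).1 hη
      exact ⟨F m, hFo m, hhF m⟩
    · intro R ξ hξ
      have h1 : ∀ i, ∃ m, F m = ξ i := fun i => (hF.range _).1 (hξ i)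
      choose a ha using h1
      have e1 : ξ = fun i => F (a i) := funext fun i => (ha i).symm
      subst e1
      rw [← hF.rel R a, hG.rel R a]
      simp only [hhF]
    · intro f η hη ξ hξ
      have h1 : ∀ i, ∃ m, F m = ξ i := fun i => (hF.range _).1 (hξ i)
      choose a ha using h1
      have e1 : ξ = fun i => F (a i) := funext fun i => (ha i).symm
      subst e1
      obtain ⟨m, rfl⟩ := (hF.range η).1 hη
      rw [← hF.fn f a m, hG.fn f a m]
      simp only [hhF]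
  · rintro ⟨h, hbij, h1, h2⟩
    refine ⟨fun m => h (F m), ?_, ?_, ?_, ?_⟩
    · intro m m' he
      exact hF.inj (hbij.injOn (hFo m) (hFo m') he)
    · intro ξ
      constructor
      · intro hξ
        obtain ⟨η, hη, rfl⟩ := hbij.surjOn hξ
        obtain ⟨m, rfl⟩ := (hF.range η).1 hη
        exact ⟨m, rfl⟩
      · rintro ⟨m, rfl⟩
        exact hbij.mapsTo (hFo m)
    · intro R a
      rw [hF.rel R a]
      exact h1 R (fun i => F (a i)) (fun i => hFo _)
    · intro f a x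
      rw [hF.fn f a x]
      exact h2 f (F x) (hFo x) (fun i => F (a i)) (fun i => hFo _)

theorem card_of_range {M : Type u} {F : M → Ordinal.{u}} {o : Ordinal.{u}}
    (hinj : Function.Injective F) (hr : ∀ ξ, ξ < o ↔ ∃ m, F m = ξ) :
    o.card = Cardinal.mk M := by
  have e : M ≃ Iio o := Equiv.ofBijective (fun m => (⟨F m, (hr _).2 ⟨m, rfl⟩⟩ : Iio o)) (by
    constructor
    · intro a b h
      exact hinj (congrArg (fun z : Iio o => z.1) h)
    · rintro ⟨ξ, hξ⟩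
      obtain ⟨m, hm⟩ := (hr ξ).1 hξ
      exact ⟨m, Subtype.ext hm⟩)
  have h1 := Cardinal.lift_mk_eq'.2 ⟨e⟩
  rw [Cardinal.mk_Iio_ordinal, Cardinal.lift_lift] at h1
  exact (Cardinal.lift_injective h1).symm

theorem exists_enum' {M : Type u} {o : Ordinal.{u}} (ho : o.card = Cardinal.mk M) :
    ∃ F : M → Ordinal.{u}, Function.Injective F ∧ ∀ ξ, ξ < o ↔ ∃ m, F m = ξ := by
  have h : Cardinal.mk M = Cardinal.mk o.ToType := by
    rw [Cardinal.mk_toType, ho]
  obtain ⟨e⟩ := Cardinal.eq.1 h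
  refine ⟨fun m => ((Ordinal.ToType.mk.symm (e m) : Iio o) : Ordinal.{u}), ?_, fun ξ => ?_⟩
  · intro a b hab
    exact e.injective (Ordinal.ToType.mk.symm.injective (Subtype.ext hab))
  · constructor
    · intro hξ
      exact ⟨e.symm (Ordinal.ToType.mk ⟨ξ, hξ⟩), by simp⟩
    · rintro ⟨m, rfl⟩
      exact (Ordinal.ToType.mk.symm (e m)).2

/-- A code with total functions codes a structure. -/
theorem exists_str {V : Vocab} {M : Type u} {F : M → Ordinal.{u}} {o y : Ordinal.{u}}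
    (hinj : Function.Injective F) (hr : ∀ ξ, ξ < o ↔ ∃ m, F m = ξ) (hfn : FnCode V o y) :
    ∃ A : Str V M, Codes A F o y := by
  have h1 : ∀ (f : Fin V.nFun) (a : Fin (V.funAr f) → M), ∃ m : M, ∀ m' : M,
      U (opair ((V.nRel + f : ℕ) : Ordinal.{u})
        (opair (F m') (ostk (List.ofFn fun i => F (a i))))) y ↔ m' = m := by
    intro f a
    obtain ⟨η, hη, h⟩ := hfn f (fun i => F (a i)) (fun i => (hr _).2 ⟨_, rfl⟩)
    obtain ⟨m, rfl⟩ := (hr η).1 hη
    refine ⟨m, fun m' => ?_⟩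
    rw [h (F m') ((hr _).2 ⟨_, rfl⟩)]
    exact hinj.eq_iff
  choose g hg using h1
  refine ⟨⟨fun R a => U (opair ((R : ℕ) : Ordinal.{u}) (ostk (List.ofFn fun i => F (a i)))) y,
    g⟩, hinj, hr, fun R a => Iff.rfl, fun f a x => ?_⟩
  rw [hg]
  exact eq_comm

/-- The formula defining the least codes. -/
theorem wf_exists (V : Vocab) : ∃ P : Fm, ∀ (M : Type u) [Infinite M] [FullΩ (Om M)]
    (x t : Lvl (Om M)), P.Sat (Lv (Om M)) (PFun.pr (Lv (Om M)) x t) ↔
      ∃ A : Str V M, IsCode A x.1 ∧ ∀ x' < x.1, ¬ IsCode A x' := by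
  obtain ⟨C, hC⟩ := Run7.h505.SO.card_def.{u}
  obtain ⟨FN, hFN⟩ := Run7.h505.SO.fnCode_def.{u} V
  obtain ⟨I, hI⟩ := Run7.h505.SO.iso_def.{u} V
  refine ⟨Fm.ex (Fm.ex (Fm.and (Fm.prv 0 1 2) (Fm.and
    (Fm.all (Fm.imp (Run7.h505.SO.nf 0) (Fm.lt' 0 1))) (Fm.and (Fm.all (Fm.ap C [0, 1]))
    (Fm.and (Fm.ap FN [0, 1]) (Fm.not (Fm.ex (Fm.and (Fm.lt' 0 3) (Fm.ex (Fm.ex
      (Fm.and (Fm.prv 0 1 2) (Fm.ap I [3, 4, 0, 1])))))))))))), ?_⟩
  intro M _ hΩ x t
  have hC' : ∀ z o : Lvl (Om M), C.Sat (Lv (Om M)) (PFun.pr (Lv (Om M)) z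
      (PFun.pr (Lv (Om M)) o (PFun.z0 (Lv (Om M))))) ↔ z.1.card ≤ o.1.card := fun z o => hC _ z o _
  have hFN' : ∀ o y : Lvl (Om M), FN.Sat (Lv (Om M)) (PFun.pr (Lv (Om M)) o
      (PFun.pr (Lv (Om M)) y (PFun.z0 (Lv (Om M))))) ↔ FnCode V o.1 y.1 := fun o y => hFN _ o y _
  have hI' : ∀ o y o' y' : Lvl (Om M), I.Sat (Lv (Om M)) (PFun.pr (Lv (Om M)) o
      (PFun.pr (Lv (Om M)) y (PFun.pr (Lv (Om M)) o' (PFun.pr (Lv (Om M)) y'
      (PFun.z0 (Lv (Om M))))))) ↔ IsoCode V o.1 y.1 o'.1 y'.1 := fun o y o' y' => hI _ o y o' y' _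
  simp only [Fm.sat_ex', Fm.sat_and, sat_ltL, Fm.sat_all, Fm.sat_imp, Run7.h505.SO.sat_nf,
    Fm.sat_not, sat_ap, List.map_cons, List.map_nil, stk_cons, stk_nil, nth_pr_zero, nth_pr_succ,
    hC', hFN', hI', Fm.sat_prv]
  have hle : ∀ z : Lvl (Om M), z.1.card ≤ Cardinal.mk M := by
    intro z
    have h1 : z.1 < (Order.succ (Cardinal.mk M)).ord := z.2
    rwa [Cardinal.lt_ord, Order.lt_succ_iff] at h1
  constructor
  · rintro ⟨y, o, rfl, hω, hz, hfn, hmin⟩
    have hcard : o.1.card = Cardinal.mk M := by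
      apply le_antisymm (hle o)
      have h1 := hz ⟨(Cardinal.mk M).ord, Cardinal.ord_strictMono (Order.lt_succ _)⟩
      change (Cardinal.mk M).ord.card ≤ _ at h1
      rwa [Cardinal.card_ord] at h1
    obtain ⟨F, hF, hr⟩ := exists_enum' hcard
    obtain ⟨A, hA⟩ := exists_str hF hr hfn
    refine ⟨A, ⟨F, ?_⟩, ?_⟩
    · rw [pr_val, of1_opair, of2_opair]; exact hA
    · intro x' hx' hcx
      rw [isCode_iff_isoCode hA] at hcx
      have hx'Ω : x' < Om M := hx'.trans (PFun.pr (Lv (Om M)) o y).2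
      exact hmin ⟨⟨x', hx'Ω⟩, hx', ⟨of2 x', (of2_le _).trans_lt hx'Ω⟩,
        ⟨of1 x', (of1_le _).trans_lt hx'Ω⟩, Subtype.ext (opair_of x'), hcx⟩
  · rintro ⟨A, ⟨F, hF⟩, hmin⟩
    have hcard := card_of_range hF.inj hF.range
    refine ⟨PFun.f2 (Lv (Om M)) x, PFun.f1 (Lv (Om M)) x, Subtype.ext (opair_of x.1), ?_, ?_,
      ?_, ?_⟩
    · rintro z ⟨n, hn⟩
      change z.1 < of1 x.1
      rw [hn]
      by_contra hlt
      rw [not_lt] at hlt
      have h1 := Ordinal.card_le_card hlt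
      rw [hcard, Ordinal.card_nat] at h1
      exact absurd (Cardinal.aleph0_le_mk M) (not_le.2 (h1.trans_lt (Cardinal.natCast_lt_aleph0)))
    · intro z
      change z.1.card ≤ (of1 x.1).card
      rw [hcard]; exact hle z
    · intro f ξ hξ
      have h1 : ∀ i, ∃ m, F m = ξ i := fun i => (hF.range _).1 (hξ i)
      choose a ha using h1
      have e1 : ξ = fun i => F (a i) := funext fun i => (ha i).symm
      subst e1
      refine ⟨F (A.fn f a), (hF.range _).2 ⟨_, rfl⟩, ?_⟩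
      intro η' hη'
      obtain ⟨m, rfl⟩ := (hF.range η').1 hη'
      change U _ (of2 x.1) ↔ _
      rw [← hF.fn f a m, hF.inj.eq_iff]
      exact eq_comm
    · rintro ⟨x', hx', y', o', rfl, hiso⟩
      refine hmin (opair o'.1 y'.1) hx' ?_
      rw [isCode_iff_isoCode hF, of1_opair, of2_opair]
      exact hiso

end Run7.h936.SO
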