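import Pool.Agent.Run7.h936.SO.DForm
import Pool.Agent.Run7.h936.SO.P1b
import Pool.Agent.Run7.h936.SO.Core2

/-! The type of the least codes of the models of a definable theory. -/

namespace Run7.h936.SO

universe u

open Ordinal Set Run7.h488.SO Run7.h505.SO

/-- `D` defines the set `Y` of natural numbers from `x`. -/
def DDef (Ω : Ordinal.{u}) [COrd Ω] (D : Fm) (Y : Set ℕ) (x : Lvl Ω) : Prop :=
  ∀ n : Lvl Ω, D.Sat (Lv Ω) (PFun.pr (Lv Ω) n (PFun.pr (Lv Ω) x (PFun.z0 (Lv Ω)))) ↔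
    ∃ k ∈ Y, n.1 = (k : ℕ)

/-- The type of the codes and the formula expressing it, for a set of sentences many-one
reducible to a definable set. -/
theorem types_exist {V : Vocab} (T₀ : Set (Formula V)) (Y : Set ℕ)
    (h : ManyOneReducible (fun n : ℕ => ∃ φ ∈ T₀, φ.code = n) (fun n => n ∈ Y)) (D : Fm) :
    ∃ (𝔸 : Set Fm) (Ψ : Fm),
      (∀ (Ω : Ordinal.{u}) [FullΩ Ω] (x : Lvl Ω), DDef Ω D Y x →
        ∀ u y : Lvl Ω, Closed u.1 → y < u →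
        (Ψ.Sat (Lv Ω) (PFun.pr (Lv Ω) u (PFun.pr (Lv Ω) y (PFun.pr (Lv Ω) x
          (PFun.z0 (Lv Ω))))) ↔ ∀ φ ∈ 𝔸, SatT u.1 φ.code (opair y.1 0))) ∧
      ∀ (M : Type u) [Infinite M] [FullΩ (Om M)] (x : Lvl (Om M)),
        (∀ φ ∈ 𝔸, φ.Sat (Lv (Om M)) (PFun.pr (Lv (Om M)) x (PFun.z0 (Lv (Om M))))) ↔
        ∃ A : Str V M, A.ModelsAll T₀ ∧ IsCode A x.1 ∧ ∀ x' < x.1, ¬ IsCode A x' := by
  obtain ⟨P, hP⟩ := wf_exists.{u} V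
  obtain ⟨Am, hAm1, hAm2⟩ := am_exists.{u} V
  obtain ⟨f, hf, hfY⟩ := h
  obtain ⟨Gf, hGf⟩ := partrec_def.{u} (f := (f : ℕ →. ℕ)) (Partrec.nat_iff.1 hf)
  obtain ⟨Gg, hGg⟩ := partrec_def.{u} (f := ((fun m => (Am m).code) : ℕ →. ℕ))
    (Partrec.nat_iff.1 hAm1)
  refine ⟨{P} ∪ {ψ | ∃ φ ∈ T₀, ψ = Am φ.code},
    Fm.and (Fm.ex (Fm.and (Fm.num P.code 0) (Fm.ex (Fm.and (Fm.num 0 0)
      (Fm.ex (Fm.and (Fm.prv 4 1 0) (Fm.STv 3 2 0)))))))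
    (Fm.all (Fm.all (Fm.all (Fm.imp (Fm.ap Gf [2, 1]) (Fm.imp (Fm.ap Gg [2, 0])
      (Fm.imp (Fm.ap D [1, 5]) (Fm.ex (Fm.and (Fm.num 0 0) (Fm.ex (Fm.and (Fm.prv 6 1 0)
        (Fm.STv 5 2 0))))))))))), ?_, ?_⟩
  · intro Ω _ x hx u y hu hyu
    simp only [Fm.sat_all, Fm.sat_imp, sat_ap, Fm.sat_ex', Fm.sat_and, Fm.sat_prv, sat_numL,
      sat_STv, nth_pr_zero, nth_pr_succ, List.map_cons, List.map_nil, stk_cons, stk_nil, hGf, hGg,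
      hx _, Nat.cast_zero, eq_z0_iff]
    have hz : ∀ c : Lvl Ω, (∃ z : Lvl Ω, z = PFun.z0 (Lv Ω) ∧ ∃ p : Lvl Ω,
        PFun.pr (Lv Ω) y z = p ∧ SatT u.1 c.1 p.1) ↔ SatT u.1 c.1 (opair y.1 0) := by
      intro c
      constructor
      · rintro ⟨z, rfl, p, rfl, h⟩; exact h
      · intro h; exact ⟨_, rfl, _, rfl, h⟩
    simp only [hz]
    constructor
    · rintro ⟨⟨c, hc, h0⟩, h1⟩ φ (rfl | ⟨φ', hφ', rfl⟩)
      · rw [hc] at h0; exact h0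
      · have h2 := h1 (nm Ω φ'.code) (nm Ω (f φ'.code)) (nm Ω (Am φ'.code).code)
          ⟨_, _, rfl, rfl, by simp⟩ ⟨_, _, rfl, rfl, by simp⟩
          ⟨f φ'.code, (hfY _).1 ⟨φ', hφ', rfl⟩, rfl⟩
        exact h2
    · intro h
      refine ⟨⟨nm Ω P.code, rfl, h P (Or.inl rfl)⟩, ?_⟩
      rintro m j c ⟨a, b, hm, hj, hb⟩ ⟨a', b', hm', hc, hb'⟩ ⟨k, hk, hjk⟩
      have e1 : b = f a := by simpa using hb
      have e2 : b' = (Am a').code := by simpa using hb'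
      have e3 : a = a' := by
        rw [hm] at hm'
        exact_mod_cast hm'
      have e4 : b = k := by
        rw [hj] at hjk
        exact_mod_cast hjk
      subst e3 e4
      rw [e1] at hk
      obtain ⟨φ', hφ', hcode⟩ := (hfY a).2 hk
      rw [hc, e2, ← hcode]
      exact h _ (Or.inr ⟨φ', hφ', rfl⟩)
  · intro M _ hΩ x
    constructor
    · intro h
      obtain ⟨A, hA1, hA2⟩ := (hP M x _).1 (h P (Or.inl rfl))
      obtain ⟨F, hF⟩ := hA1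
      refine ⟨A, ?_, ⟨F, hF⟩, hA2⟩
      intro φ hφ
      exact (hAm2 (Om M) M A F x _ hF φ).1 (h _ (Or.inr ⟨φ, hφ, rfl⟩))
    · rintro ⟨A, hA0, ⟨F, hF⟩, hA2⟩ φ (rfl | ⟨φ', hφ', rfl⟩)
      · exact (hP M x _).2 ⟨A, ⟨F, hF⟩, hA2⟩
      · exact (hAm2 (Om M) M A F x _ hF φ').2 (hA0 φ' hφ')

end Run7.h936.SO
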