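import Pool.Agent.Run7.h936.SO.Full
import Pool.Agent.Run7.h936.SO.TypesD
import Pool.Agent.Run7.h936.SO.DefAx
import Pool.Agent.Run7.h488.SO.O4
import Pool.Agent.Run7.h488.SO.Q
import Pool.Agent.Run7.h488.SO.R
import Pool.Agent.Run7.h488.SO.G
import Pool.Agent.Run7.h505.SO.O3
import Pool.Agent.Run7.h505.SO.O1b
import Pool.Agent.Run7.h505.SO.N

/-!
# The main theorem
-/

namespace Run7.h936.SO

universe u v

open Ordinal Set

/-! ### Isomorphisms -/

section
variable {V : Vocab} {M N K : Type u}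

theorem Str.Isom.symm {A : Str V M} {B : Str V N} (h : A.Isom B) : B.Isom A := by
  obtain ⟨F, h1, h2⟩ := h
  refine ⟨F.symm, fun R a => ?_, fun f a => ?_⟩
  · rw [h1]; simp
  · rw [Equiv.symm_apply_eq, h2]; simp

theorem Str.Isom.trans {A : Str V M} {B : Str V N} {C : Str V K} (h : A.Isom B)
    (h' : B.Isom C) : A.Isom C := by
  obtain ⟨F, h1, h2⟩ := h
  obtain ⟨G, h3, h4⟩ := h'
  refine ⟨F.trans G, fun R a => ?_, fun f a => ?_⟩
  · rw [h1, h3]; rfl
  · rw [Equiv.trans_apply, h2, h4]; rfl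

/-- Transport of a structure. -/
def Str.map (e : M ≃ N) (A : Str V M) : Str V N where
  rel := fun R a => A.rel R (fun i => e.symm (a i))
  fn := fun f a => e (A.fn f (fun i => e.symm (a i)))

theorem Str.isom_map (e : M ≃ N) (A : Str V M) : A.Isom (A.map e) :=
  ⟨e, fun R a => by simp [Str.map], fun f a => by simp [Str.map]⟩

end

/-! ### The second-order side -/

theorem so_side' (V : Vocab) (ψ : Fm) : ∃ χ : Formula V, χ.IsSentence ∧
    ∀ (M : Type u) [Infinite M] (A : Str V M) [FullΩ (Om M)] (x : Lvl (Om M)),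
      IsCode A x.1 → (∀ x' < x.1, ¬ IsCode A x') →
      (A.Models χ ↔ ψ.Sat (Lv (Om M)) (PFun.pr (Lv (Om M)) x (PFun.z0 (Lv (Om M))))) ∧
      (A.Models (.neg χ) ↔
        ¬ ψ.Sat (Lv (Om M)) (PFun.pr (Lv (Om M)) x (PFun.z0 (Lv (Om M))))) := by
  obtain ⟨χ, h⟩ := Run7.h488.SO.so_side.{u} V (fun φ b n => Run7.h505.SO.tr_exists V φ b n)
    (fun b => Run7.h505.SO.good_exists V b)
    (fun b b' i j hb hij => Run7.h505.SO.same_exists V b b' i j hb hij)
    (fun b i j => Run7.h505.SO.cod_exists V b i j) ψ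
  obtain ⟨χ', h1, h2⟩ := Run7.h488.SO.exists_sentence.{u} χ
  refine ⟨χ', h1, fun M _ A _ x hx hmin => ?_⟩
  obtain ⟨h3, h4⟩ := h2 M A
  rw [h3, h4, h M A x hx hmin]
  exact ⟨Iff.rfl, Iff.rfl⟩

section
variable {V : Vocab} {M : Type u}

theorem exists_least_code [Infinite M] [FullΩ (Om M)] (A : Str V M) :
    ∃ x : Lvl (Om M), IsCode A x.1 ∧ ∀ x' < x.1, ¬ IsCode A x' := by
  obtain ⟨x, hx, hA⟩ := exists_code A
  obtain ⟨y, hy, hmin⟩ := WellFounded.has_min (wellFounded_lt (α := Ordinal.{u}))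
    {y | IsCode A y} ⟨x, hA⟩
  have hyx : y ≤ x := by
    by_contra hlt
    exact hmin x hA (not_le.1 hlt)
  exact ⟨⟨y, hyx.trans_lt hx⟩, hy, fun x' hx' h => hmin x' h hx'⟩

theorem not_models_both {V : Vocab} {M : Type u} [Nonempty M] {A : Str V M} {φ : Formula V}
    (h : A.Models φ) (h' : A.Models (.neg φ)) : False := by
  obtain ⟨m⟩ := ‹Nonempty M›
  exact h' (fun _ => m) (fun _ _ _ => True) (h (fun _ => m) (fun _ _ _ => True))

end

section
variable {V : Vocab} {T T₀ : Set (Formula V)}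

/-- Two models of a complete theory satisfy the same packed formulas at their least codes. -/
theorem same_packed (hcomp : Complete.{u} T) (ψ : Fm) {M N : Type u} [Infinite M] [Infinite N]
    [FullΩ (Om M)] [FullΩ (Om N)] {A : Str V M} {B : Str V N} (hA : A.ModelsAll T)
    (hB : B.ModelsAll T) {x : Lvl (Om M)} {y : Lvl (Om N)}
    (hx : IsCode A x.1) (hx' : ∀ x' < x.1, ¬ IsCode A x')
    (hy : IsCode B y.1) (hy' : ∀ y' < y.1, ¬ IsCode B y')
    (h : ψ.Sat (Lv (Om M)) (PFun.pr (Lv (Om M)) x (PFun.z0 (Lv (Om M))))) :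
    ψ.Sat (Lv (Om N)) (PFun.pr (Lv (Om N)) y (PFun.z0 (Lv (Om N)))) := by
  obtain ⟨χ, hs, hχ⟩ := so_side'.{u} V ψ
  obtain ⟨h1, h2⟩ := hχ M A x hx hx'
  obtain ⟨h3, h4⟩ := hχ N B y hy hy'
  rcases hcomp.2 χ hs with h5 | h5
  · exact h3.1 (h5 N B hB)
  · exact absurd h (h2.1 (h5 M A hA))

/-- The first `k` elements. -/
theorem exists_first {M : Type u} [Infinite M] {A : Str V M} {F : M → Ordinal.{u}}
    {o y : Ordinal.{u}} (hA : Codes A F o y) (k : ℕ) :
    ∃ S : Finset M, S.card = k ∧ ∀ m, m ∈ S ↔ F m < k := by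
  classical
  have hcard := card_of_range hA.inj hA.range
  have hlt : ∀ n : ℕ, (n : Ordinal.{u}) < o := by
    intro n
    by_contra hlt
    rw [not_lt] at hlt
    have h1 := Ordinal.card_le_card hlt
    rw [hcard, Ordinal.card_nat] at h1
    exact absurd (Cardinal.aleph0_le_mk M) (not_le.2 (h1.trans_lt Cardinal.natCast_lt_aleph0))
  have hg : ∀ n : ℕ, ∃ m, F m = n := fun n => (hA.range _).1 (hlt n)
  choose g hg using hg
  have hginj : Function.Injective g := by
    intro a b hab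
    have h1 := hg a
    rw [hab, hg b] at h1
    exact_mod_cast h1.symm
  refine ⟨(Finset.range k).image g, ?_, fun m => ?_⟩
  · rw [Finset.card_image_of_injective _ hginj, Finset.card_range]
  · rw [Finset.mem_image]
    constructor
    · rintro ⟨j, hj, rfl⟩
      rw [hg]
      exact_mod_cast Finset.mem_range.1 hj
    · intro h
      obtain ⟨j, hj⟩ := Ordinal.lt_omega0.1 (h.trans (Ordinal.natCast_lt_omega0 k))
      refine ⟨j, ?_, hA.inj ?_⟩
      · rw [hj] at h
        rw [Finset.mem_range]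
        exact_mod_cast h
      · rw [hg, hj]

/-- `D` defines `Y` from the code of the reference model. -/
theorem ddef_ref {Y : Set ℕ} {θ : Formula V} {D : Fm}
    (hD1 : ∀ (Ω : Ordinal.{u}) [FullΩ Ω] (n x t : Lvl Ω),
      D.Sat (Lv Ω) (PFun.pr (Lv Ω) n (PFun.pr (Lv Ω) x t)) → ∃ k : ℕ, n.1 = k)
    (hD2 : ∀ (Ω : Ordinal.{u}) [FullΩ Ω] (M : Type u) (A : Str V M) (F : M → Ordinal.{u})
      (n x t : Lvl Ω), Codes A F (of1 x.1) (of2 x.1) → ∀ k : ℕ, n.1 = k →
      (D.Sat (Lv Ω) (PFun.pr (Lv Ω) n (PFun.pr (Lv Ω) x t)) ↔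
        ∃ (e : ℕ → M) (W : SOAssign M), (∀ a : Fin 1 → M, W 1 0 a ↔ F (a 0) < k) ∧
          θ.Sat A e W))
    {M : Type u} [Infinite M] [FullΩ (Om M)] {A : Str V M}
    (hθ : ∀ (e : ℕ → M) (W : SOAssign M) (S : Finset M),
      θ.Sat A e (W.upd 1 0 (fun a => a 0 ∈ S)) ↔ S.card ∈ Y)
    {x : Lvl (Om M)} (hx : IsCode A x.1) : DDef (Om M) D Y x := by
  obtain ⟨F, hF⟩ := hx
  intro n
  constructor
  · intro h
    obtain ⟨k, hk⟩ := hD1 _ _ _ _ h
    obtain ⟨e, W, hW, hs⟩ := (hD2 _ M A F n x _ hF k hk).1 h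
    obtain ⟨S, hS1, hS2⟩ := exists_first hF k
    have hWS : W = W.upd 1 0 (fun a => a 0 ∈ S) := by
      funext n' k' a
      by_cases h' : n' = 1
      · subst h'
        by_cases h'' : k' = 0
        · subst h''
          simp only [SOAssign.upd, dif_pos, Function.update_self]
          rw [hS2]
          exact propext (hW a)
        · simp [SOAssign.upd, Function.update_of_ne h'']
      · simp [SOAssign.upd, h']
    rw [hWS, hθ, hS1] at hs
    exact ⟨k, hs, hk⟩
  · rintro ⟨k, hk, hn⟩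
    obtain ⟨S, hS1, hS2⟩ := exists_first hF k
    have m : M := Classical.arbitrary M
    refine (hD2 _ M A F n x _ hF k hn).2 ⟨fun _ => m, SOAssign.upd (fun _ _ _ => True) 1 0
      (fun a => a 0 ∈ S), fun a => ?_, ?_⟩
    · simp only [SOAssign.upd, dif_pos, Function.update_self]
      rw [hS2]
    · rw [hθ, hS1]
      exact hk

/-- `D` defines `Y` from the least code of every model. -/
theorem ddef_all (hcomp : Complete.{u} T) {Y : Set ℕ} {D : Fm}
    (hD1 : ∀ (Ω : Ordinal.{u}) [FullΩ Ω] (n x t : Lvl Ω),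
      D.Sat (Lv Ω) (PFun.pr (Lv Ω) n (PFun.pr (Lv Ω) x t)) → ∃ k : ℕ, n.1 = k)
    {M N : Type u} [Infinite M] [Infinite N]
    [FullΩ (Om M)] [FullΩ (Om N)] {A : Str V M} {B : Str V N} (hA : A.ModelsAll T)
    (hB : B.ModelsAll T) {x : Lvl (Om M)} {y : Lvl (Om N)}
    (hx : IsCode A x.1) (hx' : ∀ x' < x.1, ¬ IsCode A x')
    (hy : IsCode B y.1) (hy' : ∀ y' < y.1, ¬ IsCode B y')
    (h : DDef (Om M) D Y x) : DDef (Om N) D Y y := by
  have key : ∀ (Ω : Ordinal.{u}) [FullΩ Ω] (k : ℕ) (z n : Lvl Ω), n.1 = k →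
      ((Fm.ex (Fm.and (Fm.num k 0) (Fm.ap D [0, 1]))).Sat (Lv Ω)
        (PFun.pr (Lv Ω) z (PFun.z0 (Lv Ω))) ↔
      D.Sat (Lv Ω) (PFun.pr (Lv Ω) n (PFun.pr (Lv Ω) z (PFun.z0 (Lv Ω))))) := by
    intro Ω _ k z n hn
    simp only [Fm.sat_ex', Fm.sat_and, sat_ap, sat_numL, nth_pr_zero, nth_pr_succ, List.map_cons,
      List.map_nil, stk_cons, stk_nil]
    constructor
    · rintro ⟨n', h1, h2⟩
      have : n' = n := Subtype.ext (h1.trans hn.symm)
      rwa [this] at h2
    · intro h2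
      exact ⟨n, hn, h2⟩
  intro n
  constructor
  · intro h1
    obtain ⟨k, hk⟩ := hD1 _ _ _ _ h1
    have h2 := same_packed hcomp _ hB hA hy hy' hx hx' ((key _ k y n hk).2 h1)
    rw [key _ k x (Run7.h488.SO.nm _ k) rfl, h] at h2
    obtain ⟨k', hk', hkk⟩ := h2
    have e : k = k' := by
      have h3 : (k : Ordinal.{u}) = k' := hkk
      exact_mod_cast h3
    rw [← e] at hk'
    exact ⟨k, hk', hk⟩
  · rintro ⟨k, hk, hn⟩
    have h1 := (h (Run7.h488.SO.nm _ k)).2 ⟨k, hk, rfl⟩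
    rw [← key _ k y n hn]
    exact same_packed hcomp _ hA hB hx hx' hy hy' ((key _ k x _ rfl).2 h1)

/-- Two models on the same infinite domain are isomorphic. -/
theorem isom_same (hcomp : Complete.{u} T)
    (hT : ∀ (M : Type u) [Nonempty M] (A : Str V M), A.ModelsAll T ↔ A.ModelsAll T₀)
    {Y : Set ℕ} {D : Fm}
    (hY : ManyOneReducible (fun n : ℕ => ∃ φ ∈ T₀, φ.code = n) (fun n => n ∈ Y))
    {M : Type u} [Infinite M] [hΩ : FullΩ (Om M)]
    (hDD : ∀ (A : Str V M) (x : Lvl (Om M)), A.ModelsAll T → IsCode A x.1 →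
      (∀ x' < x.1, ¬ IsCode A x') → DDef (Om M) D Y x)
    {A B : Str V M} (hA : A.ModelsAll T) (hB : B.ModelsAll T) : A.Isom B := by
  obtain ⟨𝔸, Ψ, hU, hS⟩ := types_exist.{u} T₀ Y hY D
  obtain ⟨x, hx, hx'⟩ := exists_least_code A
  obtain ⟨y, hy, hy'⟩ := exists_least_code B
  have hxy : x = y := by
    refine core (S := {x : Lvl (Om M) | ∃ A : Str V M, A.ModelsAll T₀ ∧ IsCode A x.1 ∧
      ∀ x' < x.1, ¬ IsCode A x'}) ?_ (fun x => (hS M x).symm)
      (Ψ := Ψ) ?_ hΩ.omega_lt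
      ⟨A, (hT M A).1 hA, hx, hx'⟩ ⟨B, (hT M B).1 hB, hy, hy'⟩
    · rintro x ⟨A, hA, hx, hx'⟩ y ⟨B, hB, hy, hy'⟩ φ h
      exact same_packed hcomp φ ((hT M A).2 hA) ((hT M B).2 hB) hx hx' hy hy' h
    · rintro x ⟨A, hA, hx, hx'⟩
      exact hU (Om M) x (hDD A x ((hT M A).2 hA) hx hx')
  subst hxy
  exact isom_of_isCode hx hy

/-- The formula distinguishing cardinalities. -/
theorem card_formula {Y : Set ℕ} {D : Fm}
    (hY : ManyOneReducible (fun n : ℕ => ∃ φ ∈ T₀, φ.code = n) (fun n => n ∈ Y)) : ∃ ψ : Fm,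
    ∀ (M : Type u) [Infinite M] [FullΩ (Om M)],
      (∀ (L : Type u) [Infinite L], FullΩ (Om L)) → ∀ (x : Lvl (Om M)), DDef (Om M) D Y x →
      (ψ.Sat (Lv (Om M)) (PFun.pr (Lv (Om M)) x (PFun.z0 (Lv (Om M)))) ↔
      ∃ (L : Type u) (_ : Infinite L), Cardinal.mk L < Cardinal.mk M ∧
        ∃ A : Str V L, A.ModelsAll T₀) := by
  obtain ⟨𝔸, Ψ, hU, hS⟩ := types_exist.{u} T₀ Y hY D
  obtain ⟨C, hC⟩ := Run7.h505.SO.card_def.{u}
  refine ⟨Fm.ex (Fm.ex (Fm.and (Fm.lt' 0 1) (Fm.and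
    (Fm.all (Fm.imp (Run7.h505.SO.nf 0) (Fm.lt' 0 1)))
    (Fm.and (Fm.all (Fm.imp (Fm.lt' 0 2) (Fm.ap C [0, 1]))) (Fm.and (Fm.not (Fm.ap C [1, 0]))
      (Fm.ex (Fm.and (Fm.lt' 0 2) (Fm.ap Ψ [2, 0, 3])))))))), ?_⟩
  intro M _ _ hfull x hx
  have hC' : ∀ z o : Lvl (Om M), C.Sat (Lv (Om M)) (PFun.pr (Lv (Om M)) z
      (PFun.pr (Lv (Om M)) o (PFun.z0 (Lv (Om M))))) ↔ z.1.card ≤ o.1.card := fun z o => hC _ z o _
  simp only [Fm.sat_ex', Fm.sat_and, sat_ltL, Fm.sat_all, Fm.sat_imp, Run7.h505.SO.sat_nf,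
    Fm.sat_not, sat_ap, List.map_cons, List.map_nil, stk_cons, stk_nil, nth_pr_zero, nth_pr_succ,
    hC']
  constructor
  · rintro ⟨v, o, hov, hω, hz, hvo, x', hx', hΨ⟩
    have hωo : ω ≤ o.1 := by
      by_contra hlt
      obtain ⟨n, hn⟩ := Ordinal.lt_omega0.1 (not_le.1 hlt)
      exact lt_irrefl o (hω o ⟨n, hn⟩)
    have hl : Cardinal.aleph0 ≤ o.1.card := by
      rw [← Ordinal.card_omega0]; exact Ordinal.card_le_card hωo
    have hv : v.1 = (Order.succ o.1.card).ord := by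
      apply le_antisymm
      · by_contra hlt
        rw [not_le] at hlt
        have h1 := hz ⟨_, hlt.trans v.2⟩ hlt
        change (Order.succ o.1.card).ord.card ≤ _ at h1
        rw [Cardinal.card_ord] at h1
        exact absurd h1 (not_le.2 (Order.lt_succ _))
      · rw [Cardinal.ord_le, Order.succ_le_iff]
        exact not_le.1 hvo
    have hmk : Cardinal.mk o.1.ToType = o.1.card := Cardinal.mk_toType _
    have hL : Infinite o.1.ToType := by
      rw [Cardinal.infinite_iff, hmk]; exact hl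
    have hOm : Om o.1.ToType = v.1 := by rw [Om, hmk, hv]
    have hfL := hfull o.1.ToType
    have hcl : Closed v.1 := by rw [← hOm]; exact hfL.closed
    refine ⟨o.1.ToType, hL, ?_, ?_⟩
    · have h1 : v.1 < (Order.succ (Cardinal.mk M)).ord := v.2
      rw [hv, Cardinal.ord_lt_ord, Order.succ_lt_succ_iff] at h1
      rw [hmk]; exact h1
    · have h1 := (hU (Om M) x hx v x' hcl hx').1 hΨ
      rw [← hOm] at h1
      have hx'' : x'.1 < Om o.1.ToType := by rw [hOm]; exact hx'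
      have h0 : (0 : Ordinal.{u}) < Om o.1.ToType := COrd.pos
      have hp : opair x'.1 0 < Om o.1.ToType := COrd.closed _ hx'' _ h0
      obtain ⟨A, hA, _⟩ := (hS o.1.ToType ⟨x'.1, hx''⟩).1 (fun φ hφ =>
        (satT_code hp φ).1 (h1 φ hφ))
      exact ⟨A, hA⟩
  · rintro ⟨L, iL, hLM, A, hA⟩
    have hfL := hfull L
    obtain ⟨x', hx', hmin⟩ := exists_least_code A
    have hvM : Om L < Om M := by
      rw [Om, Om, Cardinal.ord_lt_ord, Order.succ_lt_succ_iff]; exact hLM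
    have hoL : (Cardinal.mk L).ord < Om L := Cardinal.ord_strictMono (Order.lt_succ _)
    refine ⟨⟨Om L, hvM⟩, ⟨(Cardinal.mk L).ord, hoL.trans hvM⟩, hoL, ?_, ?_, ?_,
      ⟨x'.1, x'.2.trans hvM⟩, x'.2, ?_⟩
    · rintro z ⟨n, hn⟩
      change z.1 < (Cardinal.mk L).ord
      rw [hn]
      refine (Ordinal.natCast_lt_omega0 n).trans_le ?_
      rw [← Cardinal.ord_aleph0]
      exact Cardinal.ord_le_ord.2 (Cardinal.aleph0_le_mk L)
    · intro z hz
      change z.1.card ≤ (Cardinal.mk L).ord.card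
      rw [Cardinal.card_ord]
      have hz' : z.1 < (Order.succ (Cardinal.mk L)).ord := hz
      rwa [Cardinal.lt_ord, Order.lt_succ_iff] at hz'
    · change ¬ (Om L).card ≤ (Cardinal.mk L).ord.card
      rw [Om, Cardinal.card_ord, Cardinal.card_ord, not_le]
      exact Order.lt_succ _
    · rw [hU (Om M) x hx ⟨Om L, hvM⟩ ⟨x'.1, x'.2.trans hvM⟩ hfL.closed x'.2]
      intro φ hφ
      have h0 : (0 : Ordinal.{u}) < Om L := COrd.pos
      have hp : opair x'.1 0 < Om L := COrd.closed _ x'.2 _ h0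
      refine (satT_code hp φ).2 ?_
      exact (hS L x').2 ⟨A, hA, hx', hmin⟩ φ hφ

end

/-- The main theorem, given fullness. -/
theorem main_of_full (hfull : ∀ (L : Type u) [Infinite L], FullΩ (Om L)) (V : Vocab)
    (T : Set (Formula V)) (hdef : DefinablyAxiomatized.{u} T) (hcomp : Complete.{u} T) :
    Categorical.{u} T := by
  obtain ⟨T₀, hsent, hT, M₁, hne₁, A₁, Y, hA₁, ⟨θ, hθ⟩, hY⟩ := hdef
  by_cases hfin : ∃ (M : Type u) (_ : Nonempty M) (A : Str V M), Finite M ∧ A.ModelsAll T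
  · obtain ⟨M, hne, A, hM, hA⟩ := hfin
    obtain ⟨ψ, h1, h2, h3⟩ := Run7.h488.SO.finite_described A
    have key : ∀ (N : Type u) [Nonempty N] (B : Str V N), B.ModelsAll T → A.Isom B := by
      intro N _ B hB
      rcases hcomp.2 ψ h1 with h | h
      · exact h3 N B (h N B hB)
      · exact (not_models_both h2 (h M A hA)).elim
    intro N K _ _ B C hB hC
    exact (key N B hB).symm.trans (key K C hC)
  · have hinf : ∀ (M : Type u) [Nonempty M] (A : Str V M), A.ModelsAll T → Infinite M := by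
      intro M hne A hA
      rw [← not_finite_iff_infinite]
      intro h
      exact hfin ⟨M, hne, A, h, hA⟩
    -- the definition of `Y`
    obtain ⟨D, hD1, hD2⟩ := d_exists.{u} V θ
    have i₁ := hinf M₁ A₁ hA₁
    have f₁ := hfull M₁
    obtain ⟨x₁, hx₁, hx₁'⟩ := exists_least_code A₁
    have hD₁ : DDef (Om M₁) D Y x₁ := ddef_ref hD1 hD2 hθ hx₁
    have hDD : ∀ (N : Type u) [Infinite N] [FullΩ (Om N)] (B : Str V N) (y : Lvl (Om N)),
        B.ModelsAll T → IsCode B y.1 → (∀ y' < y.1, ¬ IsCode B y') → DDef (Om N) D Y y :=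
      fun N _ _ B y hB hy hy' => ddef_all hcomp hD1 hA₁ hB hx₁ hx₁' hy hy' hD₁
    -- all models have the same cardinality
    have hcard : ∀ (M N : Type u) [Nonempty M] [Nonempty N] (A : Str V M) (B : Str V N),
        A.ModelsAll T → B.ModelsAll T → Cardinal.mk M = Cardinal.mk N := by
      obtain ⟨κ, ⟨M, hM, A, hA, rfl⟩, hmin⟩ := WellFounded.has_min
        (wellFounded_lt (α := Cardinal.{u}))
        {c | ∃ (M : Type u) (_ : Nonempty M) (A : Str V M), A.ModelsAll T ∧ Cardinal.mk M = c}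
        ⟨_, M₁, hne₁, A₁, hA₁, rfl⟩
      have key : ∀ (N : Type u) [Nonempty N] (B : Str V N), B.ModelsAll T →
          Cardinal.mk N = Cardinal.mk M := by
        intro N _ B hB
        have hle : Cardinal.mk M ≤ Cardinal.mk N := by
          by_contra hlt
          exact hmin _ ⟨N, inferInstance, B, hB, rfl⟩ (not_le.1 hlt)
        rcases hle.lt_or_eq with hlt | heq
        · exfalso
          have iM := hinf M A hA
          have iN := hinf N B hB
          have fM := hfull M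
          have fN := hfull N
          obtain ⟨ψ, hψ⟩ := card_formula.{u} (D := D) hY
          obtain ⟨x, hx, hx'⟩ := exists_least_code A
          obtain ⟨y, hy, hy'⟩ := exists_least_code B
          have h1 := (hψ N hfull y (hDD N B y hB hy hy')).2 ⟨M, iM, hlt, A, (hT M A).1 hA⟩
          have h2 := same_packed hcomp ψ hB hA hy hy' hx hx' h1
          obtain ⟨L, iL, hL, C, hC⟩ := (hψ M hfull x (hDD M A x hA hx hx')).1 h2
          exact hmin _ ⟨L, inferInstance, C, (hT L C).2 hC, rfl⟩ hL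
        · exact heq.symm
      intro N K _ _ B C hB hC
      rw [key N B hB, key K C hC]
    intro M N _ _ A B hA hB
    obtain ⟨e⟩ := Cardinal.eq.1 (hcard M N A B hA hB)
    have iN := hinf N B hB
    have fN := hfull N
    have h1 := Str.isom_map e A
    have h2 : (A.map e).ModelsAll T := fun φ hφ => (models_congr h1 φ).1 (hA φ hφ)
    exact h1.trans (isom_same hcomp hT hY (fun C z hC hz hz' => hDD N C z hC hz hz') h2 hB)

/-- The main theorem. -/
theorem main (hVL : VeqL.{u}) (V : Vocab) (T : Set (Formula V))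
    (hdef : DefinablyAxiomatized.{u} T) (hcomp : Complete.{u} T) : Categorical.{u} T := by
  refine main_of_full ?_ V T hdef hcomp
  intro L hL
  exact full_of_names (fun x => Run7.h488.SO.exists_name hVL x) (Cardinal.aleph0_le_mk L)

end Run7.h936.SO
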