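import Pool.Agent.Run7.h936.SO.Pair

/-!
# Packed first-order logic

Formulas are evaluated at a single element `a`, which codes the environment
`a = ⟨v0, ⟨v1, ⟨v2, …⟩⟩⟩` through a pairing function.
-/

namespace Run7.h936.SO

universe u v w

/-- Packed formulas. -/
inductive Fm : Type
  | atom (s : ℕ) : Fm
  | nand (φ ψ : Fm) : Fm
  | ex (φ : Fm) : Fm
  | top (φ : Fm) : Fm
  | drop (φ : Fm) : Fm

/-- Structures for packed logic: `P x y z` says that `z` is the pair of `x` and `y`,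
`Q` interprets `top`, `r s` interprets the atoms. -/
structure FStr (A : Type v) where
  P : A → A → A → Prop
  Q : A → A → Prop
  r : ℕ → A → A → A → Prop

/-- Satisfaction. -/
def Fm.Sat {A : Type v} (M : FStr A) : Fm → A → Prop
  | .atom s, a => ∃ x y z t₁ t₂ t₃, M.P x t₁ a ∧ M.P y t₂ t₁ ∧ M.P z t₃ t₂ ∧ M.r s x y z
  | .nand φ ψ, a => ¬ (φ.Sat M a ∧ ψ.Sat M a)
  | .ex φ, a => ∃ x z, M.P x a z ∧ φ.Sat M z
  | .top φ, a => ∃ x, M.Q x a ∧ φ.Sat M x
  | .drop φ, a => ∃ x t y b z, M.P x t a ∧ M.P y b t ∧ M.P x b z ∧ φ.Sat M z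

/-- Satisfaction is invariant under isomorphism. -/
theorem Fm.sat_iso {A : Type v} {B : Type w} {M : FStr A} {N : FStr B} (c : A ≃ B)
    (hP : ∀ x y z, M.P x y z ↔ N.P (c x) (c y) (c z))
    (hQ : ∀ x y, M.Q x y ↔ N.Q (c x) (c y))
    (hr : ∀ s x y z, M.r s x y z ↔ N.r s (c x) (c y) (c z)) (φ : Fm) (a : A) :
    φ.Sat M a ↔ φ.Sat N (c a) := by
  induction φ generalizing a with
  | atom s =>
    simp only [Fm.Sat]
    constructor
    · rintro ⟨x, y, z, t₁, t₂, t₃, h1, h2, h3, h4⟩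
      exact ⟨c x, c y, c z, c t₁, c t₂, c t₃, (hP _ _ _).1 h1, (hP _ _ _).1 h2,
        (hP _ _ _).1 h3, (hr _ _ _ _).1 h4⟩
    · rintro ⟨x, y, z, t₁, t₂, t₃, h1, h2, h3, h4⟩
      refine ⟨c.symm x, c.symm y, c.symm z, c.symm t₁, c.symm t₂, c.symm t₃, ?_, ?_, ?_, ?_⟩
      · rw [hP]; simpa using h1
      · rw [hP]; simpa using h2
      · rw [hP]; simpa using h3
      · rw [hr]; simpa using h4
  | nand φ ψ h1 h2 => simp only [Fm.Sat, h1, h2]
  | ex φ ih =>
    simp only [Fm.Sat]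
    constructor
    · rintro ⟨x, z, h1, h2⟩
      exact ⟨c x, c z, (hP _ _ _).1 h1, (ih _).1 h2⟩
    · rintro ⟨x, z, h1, h2⟩
      refine ⟨c.symm x, c.symm z, ?_, ?_⟩
      · rw [hP]; simpa using h1
      · rw [ih]; simpa using h2
  | top φ ih =>
    simp only [Fm.Sat]
    constructor
    · rintro ⟨x, h1, h2⟩
      exact ⟨c x, (hQ _ _).1 h1, (ih _).1 h2⟩
    · rintro ⟨x, h1, h2⟩
      refine ⟨c.symm x, ?_, ?_⟩
      · rw [hQ]; simpa using h1
      · rw [ih]; simpa using h2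
  | drop φ ih =>
    simp only [Fm.Sat]
    constructor
    · rintro ⟨x, t, y, b, z, h1, h2, h3, h4⟩
      exact ⟨c x, c t, c y, c b, c z, (hP _ _ _).1 h1, (hP _ _ _).1 h2, (hP _ _ _).1 h3,
        (ih _).1 h4⟩
    · rintro ⟨x, t, y, b, z, h1, h2, h3, h4⟩
      refine ⟨c.symm x, c.symm t, c.symm y, c.symm b, c.symm z, ?_, ?_, ?_, ?_⟩
      · rw [hP]; simpa using h1
      · rw [hP]; simpa using h2
      · rw [hP]; simpa using h3
      · rw [ih]; simpa using h4

/-- Satisfaction only depends on the interpretation. -/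
theorem Fm.sat_congr {A : Type v} {M N : FStr A}
    (hP : ∀ x y z, M.P x y z ↔ N.P x y z)
    (hQ : ∀ x y, M.Q x y ↔ N.Q x y)
    (hr : ∀ s x y z, M.r s x y z ↔ N.r s x y z) (φ : Fm) (a : A) :
    φ.Sat M a ↔ φ.Sat N a := Fm.sat_iso (Equiv.refl A) hP hQ hr φ a

/-- Pairing functions for a structure. -/
class PFun {A : Type v} (M : FStr A) where
  pr : A → A → A
  f1 : A → A
  f2 : A → A
  tp : A → A
  z0 : A
  f1_pr : ∀ x y, f1 (pr x y) = x
  f2_pr : ∀ x y, f2 (pr x y) = y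
  pr_f : ∀ z, pr (f1 z) (f2 z) = z
  P_iff : ∀ x y z, M.P x y z ↔ pr x y = z
  Q_iff : ∀ x a, M.Q x a ↔ tp a = x

attribute [simp] PFun.f1_pr PFun.f2_pr PFun.pr_f

section
variable {A : Type v} (M : FStr A) [PFun M]


theorem pr_inj {x y x' y' : A} : (PFun.pr M x y) = (PFun.pr M x' y') ↔ x = x' ∧ y = y' := by
  constructor
  · intro h
    have h1 := congrArg (PFun.f1 M) h
    have h2 := congrArg (PFun.f2 M) h
    simpa using And.intro h1 h2
  · rintro ⟨rfl, rfl⟩; rfl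

theorem sat_atom (s : ℕ) (a : A) : (Fm.atom s).Sat M a ↔
    M.r s (PFun.f1 M a) (PFun.f1 M (PFun.f2 M a)) (PFun.f1 M (PFun.f2 M (PFun.f2 M a))) := by
  simp only [Fm.Sat, PFun.P_iff]
  constructor
  · rintro ⟨x, y, z, t₁, t₂, t₃, rfl, rfl, rfl, h⟩
    simpa using h
  · intro h
    exact ⟨_, _, _, _, _, _, PFun.pr_f a, PFun.pr_f _, PFun.pr_f _, h⟩

omit [PFun M] in
theorem sat_nand (φ ψ : Fm) (a : A) :
    (Fm.nand φ ψ).Sat M a ↔ ¬ (φ.Sat M a ∧ ψ.Sat M a) := Iff.rfl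

theorem sat_ex (φ : Fm) (a : A) : (Fm.ex φ).Sat M a ↔ ∃ x, φ.Sat M (PFun.pr M x a) := by
  simp only [Fm.Sat, PFun.P_iff]
  constructor
  · rintro ⟨x, z, rfl, h⟩; exact ⟨x, h⟩
  · rintro ⟨x, h⟩; exact ⟨x, _, rfl, h⟩

theorem sat_top (φ : Fm) (a : A) : (Fm.top φ).Sat M a ↔ φ.Sat M (PFun.tp M a) := by
  simp [Fm.Sat, PFun.Q_iff]

theorem sat_drop (φ : Fm) (a : A) : (Fm.drop φ).Sat M a ↔
    φ.Sat M (PFun.pr M (PFun.f1 M a) (PFun.f2 M (PFun.f2 M a))) := by
  simp only [Fm.Sat, PFun.P_iff]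
  constructor
  · rintro ⟨x, t, y, b, z, rfl, rfl, rfl, h⟩
    simpa using h
  · intro h
    exact ⟨_, _, _, _, _, PFun.pr_f a, PFun.pr_f _, rfl, h⟩

/-- `n`-th component of the environment. -/
def nth : A → ℕ → A
  | a, 0 => PFun.f1 M a
  | a, n + 1 => nth (PFun.f2 M a) n

@[simp] theorem nth_pr_zero (x a : A) : nth M (PFun.pr M x a) 0 = x := by simp [nth]
@[simp] theorem nth_pr_succ (x a : A) (n : ℕ) : nth M (PFun.pr M x a) (n + 1) = nth M a n := by
  simp [nth]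
theorem nth_zero' (a : A) : nth M a 0 = PFun.f1 M a := rfl

/-- The stack coding a list. -/
def stk : List A → A
  | [] => PFun.z0 M
  | x :: l => (PFun.pr M x (stk l))

@[simp] theorem stk_nil : stk M [] = PFun.z0 M := rfl
@[simp] theorem stk_cons (x : A) (l : List A) : stk M (x :: l) = (PFun.pr M x (stk M l)) := rfl

end

/-- Standard structures: `top` is evaluation at the first component, atom `0` is equality,
atom `1` is the pairing relation. -/
class Std {A : Type v} (M : FStr A) extends PFun M where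
  tp_eq : ∀ a, tp a = f1 a
  r0 : ∀ x y z, M.r 0 x y z ↔ x = y
  r1 : ∀ x y z, M.r 1 x y z ↔ pr x y = z

namespace Fm

/-- Negation. -/
def not (φ : Fm) : Fm := nand φ φ
/-- Conjunction. -/
def and (φ ψ : Fm) : Fm := not (nand φ ψ)
/-- Disjunction. -/
def or (φ ψ : Fm) : Fm := nand (not φ) (not ψ)
/-- Implication. -/
def imp (φ ψ : Fm) : Fm := nand φ (not ψ)
/-- Equivalence. -/
def iff (φ ψ : Fm) : Fm := and (imp φ ψ) (imp ψ φ)
/-- Universal quantifier. -/
def all (φ : Fm) : Fm := not (ex (not φ))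
/-- Truth. -/
def tt : Fm := or (atom 0) (not (atom 0))
/-- Falsity. -/
def ff : Fm := not tt

section
variable {A : Type v} (M : FStr A)

@[simp] theorem sat_not (φ : Fm) (a : A) : (not φ).Sat M a ↔ ¬ φ.Sat M a := by
  simp [not, Fm.Sat]
@[simp] theorem sat_and (φ ψ : Fm) (a : A) : (and φ ψ).Sat M a ↔ φ.Sat M a ∧ ψ.Sat M a := by
  rw [and, sat_not, Fm.Sat]; tauto
@[simp] theorem sat_or (φ ψ : Fm) (a : A) : (or φ ψ).Sat M a ↔ φ.Sat M a ∨ ψ.Sat M a := by
  rw [or, Fm.Sat, sat_not, sat_not]; tauto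
@[simp] theorem sat_imp (φ ψ : Fm) (a : A) :
    (imp φ ψ).Sat M a ↔ (φ.Sat M a → ψ.Sat M a) := by
  rw [imp, Fm.Sat, sat_not]; tauto
@[simp] theorem sat_iff (φ ψ : Fm) (a : A) :
    (iff φ ψ).Sat M a ↔ (φ.Sat M a ↔ ψ.Sat M a) := by
  rw [iff, sat_and, sat_imp, sat_imp]; tauto
@[simp] theorem sat_tt (a : A) : tt.Sat M a := by
  rw [tt, sat_or, sat_not]; tauto
@[simp] theorem sat_ff (a : A) : ¬ ff.Sat M a := by
  rw [ff, sat_not]; simp

@[simp] theorem sat_all [PFun M] (φ : Fm) (a : A) :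
    (all φ).Sat M a ↔ ∀ x, φ.Sat M (PFun.pr M x a) := by
  rw [all, sat_not, sat_ex]; simp

@[simp] theorem sat_ex' [PFun M] (φ : Fm) (a : A) :
    (ex φ).Sat M a ↔ ∃ x, φ.Sat M (PFun.pr M x a) := sat_ex M φ a
end

/-- Iterated `drop`. -/
def drops : ℕ → Fm → Fm
  | 0, φ => φ
  | n + 1, φ => drop (drops n φ)

/-- `v0 = v_{i+1}` -/
def eq0 (i : ℕ) : Fm := drops i (atom 0)

theorem sat_drops {A : Type v} (M : FStr A) [PFun M] (n : ℕ) (φ : Fm) (x a : A) :
    (drops n φ).Sat M (PFun.pr M x a) ↔ φ.Sat M (PFun.pr M x ((PFun.f2 M)^[n] a)) := by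
  induction n generalizing a with
  | zero => rfl
  | succ n ih =>
    rw [drops, sat_drop, PFun.f1_pr, PFun.f2_pr, ih, Function.iterate_succ_apply]

theorem nth_eq {A : Type v} (M : FStr A) [PFun M] (n : ℕ) (a : A) :
    nth M a n = PFun.f1 M ((PFun.f2 M)^[n] a) := by
  induction n generalizing a with
  | zero => rfl
  | succ n ih => rw [nth, ih, Function.iterate_succ_apply]

@[simp] theorem sat_eq0 {A : Type v} (M : FStr A) [Std M] (i : ℕ) (x a : A) :
    (eq0 i).Sat M (PFun.pr M x a) ↔ x = nth M a i := by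
  rw [eq0, sat_drops, sat_atom, Std.r0, nth_eq]
  simp

/-- `r_s(v_i, v_j, v_k)` -/
def rel (s i j k : ℕ) : Fm :=
  ex (and (eq0 k) (ex (and (eq0 (j + 1)) (ex (and (eq0 (i + 2)) (atom s))))))

@[simp] theorem sat_rel {A : Type v} (M : FStr A) [Std M] (s i j k : ℕ) (a : A) :
    (rel s i j k).Sat M a ↔ M.r s (nth M a i) (nth M a j) (nth M a k) := by
  simp [rel, sat_atom]

/-- `v_i = v_j` -/
def eqv (i j : ℕ) : Fm := rel 0 i j 0
@[simp] theorem sat_eqv {A : Type v} (M : FStr A) [Std M] (i j : ℕ) (a : A) :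
    (eqv i j).Sat M a ↔ nth M a i = nth M a j := by
  simp [eqv, Std.r0]

/-- `⟨v_i, v_j⟩ = v_k` -/
def prv (i j k : ℕ) : Fm := rel 1 i j k
@[simp] theorem sat_prv {A : Type v} (M : FStr A) [Std M] (i j k : ℕ) (a : A) :
    (prv i j k).Sat M a ↔ PFun.pr M (nth M a i) (nth M a j) = nth M a k := by
  simp [prv, Std.r1]

/-- Auxiliary for `app`. -/
def appAux (φ : Fm) : List ℕ → ℕ → Fm
  | [], _ => top φ
  | i :: l, d => ex (and (prv (i + d + 1) 1 0) (appAux φ l (d + 1)))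

/-- `app φ l z`: evaluate `φ` at the stack `[v_{i1},…,v_{in}, v_z]` (the last one as tail),
`l = [i1,…,in]`. -/
def app (φ : Fm) (l : List ℕ) (z : ℕ) : Fm := ex (and (eq0 z) (appAux φ l.reverse 1))

theorem sat_appAux {A : Type v} (M : FStr A) [Std M] (φ : Fm) (l : List ℕ) (d : ℕ) (a b : A)
    (x : A) (h : ∀ i, nth M (PFun.pr M x b) (i + d) = nth M a i) :
    (appAux φ l d).Sat M (PFun.pr M x b) ↔
      φ.Sat M (((l.reverse).map (nth M a)).foldr (PFun.pr M) x) := by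
  induction l generalizing d b x with
  | nil => simp [appAux, sat_top, Std.tp_eq]
  | cons i l ih =>
    simp only [appAux, sat_ex', sat_and, sat_prv, nth_pr_zero, nth_pr_succ]
    simp only [List.reverse_cons, List.map_append, List.map_cons, List.map_nil,
      List.foldr_append, List.foldr_cons, List.foldr_nil]
    constructor
    · rintro ⟨y, h1, h2⟩
      have h3 := (ih (d + 1) (PFun.pr M x b) y (fun j => by
        rw [← add_assoc, nth_pr_succ, h])).1 h2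
      have h4 := h1
      rw [h] at h4
      rw [h4]; exact h3
    · intro h2
      refine ⟨PFun.pr M (nth M a i) x, ?_, ?_⟩
      · rw [h]
      · rw [ih (d + 1) (PFun.pr M x b) _ (fun j => by rw [← add_assoc, nth_pr_succ, h])]
        exact h2

@[simp] theorem sat_app {A : Type v} (M : FStr A) [Std M] (φ : Fm) (l : List ℕ) (z : ℕ) (a : A) :
    (app φ l z).Sat M a ↔ φ.Sat M ((l.map (nth M a)).foldr (PFun.pr M) (nth M a z)) := by
  simp only [app, sat_ex', sat_and, sat_eq0]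
  constructor
  · rintro ⟨x, rfl, h⟩
    rw [sat_appAux M φ _ 1 a a _ (fun i => nth_pr_succ M _ _ _)] at h
    simpa using h
  · intro h
    refine ⟨_, rfl, ?_⟩
    rw [sat_appAux M φ _ 1 a a _ (fun i => nth_pr_succ M _ _ _)]
    simpa using h

end Fm

end Run7.h936.SO
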