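import Pool.Agent.Run7.h936.SO.Core2
import Pool.Agent.Run7.h488.SO.L2

/-!
# Fullness of `κ⁺` when every set has a name
-/

namespace Run7.h936.SO

universe u v

open Ordinal Set

theorem Fm.code_inj : Function.Injective Fm.code := by
  intro φ ψ h
  have h1 := dec_code.{0} φ
  rw [h, dec_code] at h1
  exact h1.symm

instance : Countable Fm := Fm.code_inj.countable

section
variable {δ : Ordinal.{u}} [COrd δ]

/-- The hull of a set. -/
def HullC (C : Set (Lvl δ)) : Set (Lvl δ) :=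
  {y | ∃ b ∈ {b | ∃ l : List C, b = stk (Lv δ) (l.map Subtype.val)}, Dfn b y}

theorem dfn_stk {b : Lvl δ} {l : List (Lvl δ)} (h : ∀ y ∈ l, Dfn b y) : Dfn b (stk (Lv δ) l) := by
  induction l with
  | nil => exact Dfn.z0 b
  | cons x l ih =>
    rw [stk_cons]
    exact (h x (by simp)).pair (ih fun y hy => h y (by simp [hy]))

theorem elSub_HullC (C : Set (Lvl δ)) : ElSub (HullC C) := by
  apply elSub_hull
  · exact ⟨_, [], rfl⟩
  · rintro _ ⟨l₁, rfl⟩ _ ⟨l₂, rfl⟩
    refine ⟨_, ⟨l₁ ++ l₂, rfl⟩, ?_, ?_⟩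
    · apply dfn_stk
      intro y hy
      apply sub_dfn (Dfn.refl _)
      simp only [List.map_append, List.mem_append]
      exact Or.inl hy
    · apply dfn_stk
      intro y hy
      apply sub_dfn (Dfn.refl _)
      simp only [List.map_append, List.mem_append]
      exact Or.inr hy

theorem subset_HullC (C : Set (Lvl δ)) : C ⊆ HullC C := by
  intro x hx
  exact ⟨_, ⟨[⟨x, hx⟩], rfl⟩, sub_dfn (Dfn.refl _) x (by simp)⟩

theorem card_HullC (C : Set (Lvl δ)) {c : Cardinal.{u + 1}} (hc : Cardinal.aleph0 ≤ c)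
    (hC : Cardinal.mk C ≤ c) : Cardinal.mk (HullC C) ≤ c := by
  classical
  have h1 : ∀ y : HullC C, ∃ p : List C × Fm, DefBy p.2 (stk (Lv δ) (p.1.map Subtype.val)) y.1 := by
    rintro ⟨y, _, ⟨l, rfl⟩, φ, h⟩
    exact ⟨(l, φ), h⟩
  choose f hf using h1
  have hinj : Function.Injective f := by
    intro y y' h
    apply Subtype.ext
    have := hf y
    rw [h] at this
    exact this.unique (hf y')
  have h2 := Cardinal.mk_le_of_injective hinj
  have h3 : Cardinal.lift.{u+1} (Cardinal.mk Fm) ≤ c :=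
    (Cardinal.lift_le_aleph0.2 Cardinal.mk_le_aleph0).trans hc
  refine h2.trans ?_
  rw [Cardinal.mk_prod, Cardinal.lift_id']
  refine (Cardinal.mul_le_max _ _).trans ?_
  refine max_le (max_le ?_ ?_) hc
  · refine (Cardinal.mk_list_le_max _).trans (max_le hc hC)
  · exact h3

/-- Small elementary levels. -/
theorem small_level {κ : Cardinal.{u}} (hκ : Cardinal.aleph0 ≤ κ) (C : Set (Lvl δ))
    (hC : Cardinal.mk C ≤ Cardinal.lift.{u+1} κ) :
    ∃ (ζ : Ordinal.{u}) (_ : COrd ζ) (j : Lvl ζ → Lvl δ), ζ < (Order.succ κ).ord ∧ Emb ζ δ j ∧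
      C ⊆ Set.range j ∧ (∀ x, x.1 ≤ (j x).1) ∧
      (∀ y : Lvl δ, (∀ z : Lvl δ, z ≤ y → z ∈ C) → ∃ x : Lvl ζ, x.1 = y.1 ∧ j x = y) := by
  have hκ' : Cardinal.aleph0 ≤ Cardinal.lift.{u+1} κ := by
    rw [← Cardinal.lift_aleph0.{u+1, u}, Cardinal.lift_le]; exact hκ
  obtain ⟨ζ, hζ, j, hj, hr, _, hle, hfix⟩ := (elSub_HullC C).collapse
  have hsub := subset_HullC C
  refine ⟨ζ, hζ, j, ?_, hj, ?_, hle, ?_⟩
  · rw [Cardinal.lt_ord, Order.lt_succ_iff, ← Cardinal.lift_le.{u+1}, ← Cardinal.mk_Iio_ordinal]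
    have h1 : Cardinal.mk (Iio ζ) ≤ Cardinal.mk (HullC C) := by
      rw [← hr]
      exact Cardinal.mk_le_of_injective (f := fun x : Iio ζ => (⟨j x, x, rfl⟩ : Set.range j))
        (fun x y h => hj.inj (congrArg Subtype.val h))
    exact h1.trans (card_HullC C hκ' hC)
  · rw [hr]; exact hsub
  · intro y hy
    have h1 : y ∈ Set.range j := by rw [hr]; exact hsub (hy y le_rfl)
    obtain ⟨x, hx⟩ := h1
    have hxy : x.1 ≤ y.1 := by rw [← hx]; exact hle x
    set w : Lvl δ := ⟨x.1, hxy.trans_lt y.2⟩ with hw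
    have h2 : j x = w := by
      refine hfix x (fun z hz => hsub (hy z ?_)) w (hsub (hy w hxy)) rfl
      exact le_of_lt (lt_of_lt_of_le (show z < w from hz) hxy)
    rw [hx] at h2
    exact ⟨x, by rw [h2], hx⟩

end

theorem cord_succ {κ : Cardinal.{u}} (hκ : Cardinal.aleph0 ≤ κ) : COrd (Order.succ κ).ord := by
  have h : Cardinal.aleph0 ≤ Order.succ κ := hκ.trans (Order.le_succ κ)
  refine ⟨closed_ord h, ?_⟩
  rw [Cardinal.ord_pos]
  exact Cardinal.aleph0_pos.trans_le h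

theorem mk_bdd {κ : Cardinal.{u}} (hκ : Cardinal.aleph0 ≤ κ) {δ a : Ordinal.{u}}
    (ha : a < (Order.succ κ).ord) (C : Set (Lvl δ)) (hC : ∀ x ∈ C, x.1 ≤ a) :
    Cardinal.mk C ≤ Cardinal.lift.{u+1} κ := by
  have h : (a + 1).card ≤ κ := by
    rw [← Order.lt_succ_iff, ← Cardinal.lt_ord]
    have hlim := Cardinal.isSuccLimit_ord (hκ.trans (Order.le_succ κ))
    rw [← Order.succ_eq_add_one]
    exact hlim.succ_lt ha
  have h2 : Cardinal.mk C ≤ Cardinal.mk (Iio (a + 1)) := by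
    refine Cardinal.mk_le_of_injective (f := fun x : C => (⟨x.1.1, ?_⟩ : Iio (a + 1))) ?_
    · exact Order.lt_add_one_iff.2 (hC x.1 x.2)
    · intro x y h
      have h' : x.1.1 = y.1.1 := congrArg (fun z : Iio (a + 1) => z.1) h
      exact Subtype.ext (Subtype.ext h')
  refine h2.trans ?_
  rw [Cardinal.mk_Iio_ordinal, Cardinal.lift_le]
  exact h

/-- If every set has a name then `κ⁺` is full. -/
theorem full_of_names (hn : ∀ x : ZFSet.{u}, ∃ n : Ordinal.{u}, val n = x) {κ : Cardinal.{u}}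
    (hκ : Cardinal.aleph0 ≤ κ) : FullΩ (Order.succ κ).ord := by
  have hc : COrd (Order.succ κ).ord := cord_succ hκ
  refine { hc with omega_lt := ?_, lim := ?_, full := ?_ }
  · rw [← Cardinal.ord_aleph0]
    exact Cardinal.ord_strictMono (Order.lt_succ_of_le hκ)
  · intro a ha
    obtain ⟨ζ, hζ, j, h1, hj, hC, hle, hfix⟩ := small_level hκ
      ({x | x.1 ≤ a} : Set (Lvl (Order.succ κ).ord)) (mk_bdd hκ ha _ (fun x hx => hx))
    obtain ⟨x, hx, _⟩ := hfix ⟨a, ha⟩ (fun z hz => hz)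
    refine ⟨ζ, h1, ?_, hζ.closed⟩
    have := x.2
    rwa [hx] at this
  · intro γ hγ X hX
    classical
    obtain ⟨n, hn⟩ := hn (ZFSet.range (fun x : {x : Iio γ // x.1 ∈ X} => toZFSet x.1.1))
    have hUn : ∀ ξ, U ξ n ↔ ξ ∈ X := by
      intro ξ
      rw [U, hn, ZFSet.mem_range]
      constructor
      · rintro ⟨x, hx⟩
        rw [← toZFSet_injective hx]; exact x.2
      · intro hξ
        exact ⟨⟨⟨ξ, hX ξ hξ⟩, hξ⟩, rfl⟩
    -- a big level
    set μ : Cardinal.{u} := max (max n γ).card Cardinal.aleph0 with hμ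
    have hδ : COrd (Order.succ μ).ord := cord_succ (le_max_right _ _)
    have hbig : max n γ < (Order.succ μ).ord := by
      rw [Cardinal.lt_ord, Order.lt_succ_iff]; exact le_max_left _ _
    have hnδ : n < (Order.succ μ).ord := (le_max_left _ _).trans_lt hbig
    have hγδ : γ < (Order.succ μ).ord := (le_max_right _ _).trans_lt hbig
    set N : Lvl (Order.succ μ).ord := ⟨n, hnδ⟩ with hN
    have hκ' : Cardinal.aleph0 ≤ Cardinal.lift.{u+1} κ := by
      rw [← Cardinal.lift_aleph0.{u+1, u}, Cardinal.lift_le]; exact hκ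
    obtain ⟨ζ, hζ, j, h1, hj, hC, hle, hfix⟩ := small_level hκ
      ({x | x.1 ≤ γ} ∪ {N} : Set (Lvl (Order.succ μ).ord)) (by
        refine (Cardinal.mk_union_le _ _).trans ?_
        refine (add_le_add (mk_bdd hκ hγ _ (fun x hx => hx))
          (Cardinal.mk_singleton _).le).trans ?_
        refine Cardinal.add_le_of_le hκ' le_rfl (Cardinal.one_le_aleph0.trans hκ'))
    obtain ⟨m, hm⟩ : ∃ m, j m = N := hC (Or.inr rfl)
    refine ⟨m.1, m.2.trans h1, ?_⟩
    intro ξ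
    have key : ∀ x : Lvl ζ, U x.1 m.1 ↔ U (j x).1 n := by
      intro x
      have := hj.el (Fm.Uv 0 1) (PFun.pr (Lv ζ) x (PFun.pr (Lv ζ) m m))
      simpa [hj.pr, hm] using this
    constructor
    · intro hU
      have hξm : ξ < m.1 := Run7.h488.SO.U_lt hU
      have hU' := (key ⟨ξ, hξm.trans m.2⟩).1 hU
      rw [hUn] at hU'
      have h5 : ξ < γ := lt_of_le_of_lt (hle ⟨ξ, hξm.trans m.2⟩) (hX _ hU')
      obtain ⟨x, hx1, hx2⟩ := hfix ⟨ξ, h5.trans hγδ⟩
        (fun z hz => Or.inl (le_trans (show z.1 ≤ ξ from hz) h5.le))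
      have h6 : x = ⟨ξ, hξm.trans m.2⟩ := Subtype.ext hx1
      rw [h6] at hx2
      rw [hx2] at hU'
      exact hU'
    · intro hξ
      have h5 : ξ < γ := hX ξ hξ
      obtain ⟨x, hx1, hx2⟩ := hfix ⟨ξ, h5.trans hγδ⟩
        (fun z hz => Or.inl (le_trans (show z.1 ≤ ξ from hz) h5.le))
      have h6 := (key x).2 (by rw [hx2, hUn]; exact hξ)
      rw [hx1] at h6
      exact h6

end Run7.h936.SO
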