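import Pool.Agent.Run7.h936.SO.Fm
import Pool.Agent.Run7.h936.SO.Defs

/-!
# The levels

Every ordinal is a name; `val n` is the constructible set named by `n`.
-/

namespace Run7.h936.SO

universe u

open Ordinal Set

/-- The ordinals below `δ`. -/
abbrev Lvl (δ : Ordinal.{u}) : Type (u + 1) := {x : Ordinal.{u} // x < δ}

instance small_Lvl (δ : Ordinal.{u}) : Small.{u} (Lvl δ) := small_Iio δ

/-- The natural number named by an ordinal (default `7`). -/
noncomputable def natOf (x : Ordinal.{u}) : ℕ := by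
  classical exact if h : ∃ n : ℕ, (n : Ordinal.{u}) = x then Classical.choose h else 7

theorem natOf_nat (n : ℕ) : natOf (n : Ordinal.{u}) = n := by
  have h : ∃ m : ℕ, (m : Ordinal.{u}) = n := ⟨n, rfl⟩
  rw [natOf, dif_pos h]
  exact_mod_cast Classical.choose_spec h

theorem natOf_eq_iff {x : Ordinal.{u}} {n : ℕ} (hn : n ≠ 7) : natOf x = n ↔ x = n := by
  constructor
  · intro h
    by_cases hx : ∃ m : ℕ, (m : Ordinal.{u}) = x
    · obtain ⟨m, rfl⟩ := hx
      rw [natOf_nat] at h; rw [h]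
    · rw [natOf, dif_neg hx] at h
      exact absurd h.symm hn
  · rintro rfl; exact natOf_nat n

/-- Decoding formulas: every ordinal codes a formula. -/
noncomputable def dec (m : Ordinal.{u}) : Fm := by
  classical exact
  if h1 : of1 m = 1 then Fm.nand (dec (of1 (of2 m))) (dec (of2 (of2 m)))
  else if h2 : of1 m = 2 then Fm.ex (dec (of2 m))
  else if h3 : of1 m = 3 then Fm.top (dec (of2 m))
  else if h4 : of1 m = 4 then Fm.drop (dec (of2 m))
  else Fm.atom (natOf (of2 m))
termination_by m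
decreasing_by
  · exact (of1_le _).trans_lt (of2_lt (by rw [h1]; exact zero_lt_one))
  · exact (of2_le _).trans_lt (of2_lt (by rw [h1]; exact zero_lt_one))
  · exact of2_lt (by rw [h2]; exact two_pos)
  · exact of2_lt (by rw [h3]; exact three_pos)
  · exact of2_lt (by rw [h4]; exact four_pos)

/-- Coding formulas by natural numbers. -/
def Fm.code : Fm → ℕ
  | .atom s => Nat.pair 0 s
  | .nand φ ψ => Nat.pair 1 (Nat.pair φ.code ψ.code)
  | .ex φ => Nat.pair 2 φ.code
  | .top φ => Nat.pair 3 φ.code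
  | .drop φ => Nat.pair 4 φ.code

theorem of1_nat (n : ℕ) : of1 (n : Ordinal.{u}) = (n.unpair.1 : ℕ) := by
  conv_lhs => rw [← Nat.pair_unpair n, ← opair_nat, of1_opair]
theorem of2_nat (n : ℕ) : of2 (n : Ordinal.{u}) = (n.unpair.2 : ℕ) := by
  conv_lhs => rw [← Nat.pair_unpair n, ← opair_nat, of2_opair]

theorem dec_code (φ : Fm) : dec (φ.code : Ordinal.{u}) = φ := by
  have h12 : ((1 : ℕ) : Ordinal.{u}) = 1 := Nat.cast_one
  induction φ with
  | atom s =>
    rw [dec, Fm.code]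
    simp only [of1_nat, of2_nat, Nat.unpair_pair]
    rw [dif_neg, dif_neg, dif_neg, dif_neg, natOf_nat]
    all_goals norm_num
  | nand φ ψ h1 h2 =>
    rw [dec, Fm.code]
    simp only [of1_nat, of2_nat, Nat.unpair_pair]
    rw [dif_pos (by norm_num), h1, h2]
  | ex φ ih =>
    rw [dec, Fm.code]
    simp only [of1_nat, of2_nat, Nat.unpair_pair]
    rw [dif_neg, dif_pos, ih]
    · norm_num
    · exact_mod_cast (by norm_num : (2 : ℕ) ≠ 1)
  | top φ ih =>
    rw [dec, Fm.code]
    simp only [of1_nat, of2_nat, Nat.unpair_pair]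
    rw [dif_neg, dif_neg, dif_pos, ih]
    · norm_num
    · exact_mod_cast (by norm_num : (3 : ℕ) ≠ 2)
    · exact_mod_cast (by norm_num : (3 : ℕ) ≠ 1)
  | drop φ ih =>
    rw [dec, Fm.code]
    simp only [of1_nat, of2_nat, Nat.unpair_pair]
    rw [dif_neg, dif_neg, dif_neg, dif_pos, ih]
    · norm_num
    · exact_mod_cast (by norm_num : (4 : ℕ) ≠ 3)
    · exact_mod_cast (by norm_num : (4 : ℕ) ≠ 2)
    · exact_mod_cast (by norm_num : (4 : ℕ) ≠ 1)

/-- The set named by `n`. -/
noncomputable def val (n : Ordinal.{u}) : ZFSet.{u} := by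
  classical exact
  if h : Closed (of1 n) ∧ of2 (of2 n) < of1 n then
    ZFSet.range (fun k : {k : Lvl (of1 n) //
      (dec (of1 (of2 n))).Sat (A := Lvl (of1 n))
        { P := fun x y z => opair x.1 y.1 = z.1
          Q := fun x a => x = a
          r := fun _ x y _ => val x.1 ∈ val y.1 }
        ⟨opair k.1 (of2 (of2 n)), h.1 _ k.2 _ h.2⟩} => val k.1.1)
  else ∅
termination_by n
decreasing_by
  all_goals exact lt_of_lt_of_le (Subtype.prop (p := fun y => y < of1 n) _) (of1_le n)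

/-- The `∈`-structure on the names below `δ`. -/
def LvE (δ : Ordinal.{u}) : FStr (Lvl δ) where
  P := fun x y z => opair x.1 y.1 = z.1
  Q := fun x a => x = a
  r := fun _ x y _ => val x.1 ∈ val y.1

theorem mem_val {n : Ordinal.{u}} {y : ZFSet.{u}} : y ∈ val n ↔
    ∃ (h : Closed (of1 n) ∧ of2 (of2 n) < of1 n) (k : Lvl (of1 n)),
      (dec (of1 (of2 n))).Sat (LvE (of1 n)) ⟨opair k.1 (of2 (of2 n)), h.1 _ k.2 _ h.2⟩ ∧
        val k.1 = y := by
  rw [val]
  split_ifs with h
  · rw [ZFSet.mem_range]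
    constructor
    · rintro ⟨⟨k, hk⟩, rfl⟩
      exact ⟨h, k, hk, rfl⟩
    · rintro ⟨_, k, hk, rfl⟩
      exact ⟨⟨k, hk⟩, rfl⟩
  · constructor
    · intro hy; exact absurd hy (ZFSet.notMem_empty y)
    · rintro ⟨h', _⟩; exact absurd h' h

/-- Satisfaction for the `∈`-structure of level `δ`. -/
def SatE (δ m a : Ordinal.{u}) : Prop :=
  Closed δ ∧ ∃ h : a < δ, (dec m).Sat (LvE δ) ⟨a, h⟩

/-- Satisfaction for the full structure of level `δ`. -/
def SatT (δ m a : Ordinal.{u}) : Prop :=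
  Closed δ ∧ ∃ h : a < δ, (dec m).Sat (A := Lvl δ)
    { P := fun x y z => opair x.1 y.1 = z.1
      Q := fun x a => of1 a.1 = x.1
      r := fun s x y z =>
        match s with
        | 0 => x.1 = y.1
        | 1 => opair x.1 y.1 = z.1
        | 2 => x.1 < y.1
        | 3 => val x.1 ∈ val y.1
        | 4 => val y.1 = toZFSet x.1
        | 5 => SatE x.1 y.1 z.1
        | 6 => SatT x.1 y.1 z.1
        | _ => False } ⟨a, h⟩
termination_by δ
decreasing_by exact x.2

/-- The relations of the full structure. -/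
def orel : ℕ → Ordinal.{u} → Ordinal.{u} → Ordinal.{u} → Prop
  | 0, x, y, _ => x = y
  | 1, x, y, z => opair x y = z
  | 2, x, y, _ => x < y
  | 3, x, y, _ => val x ∈ val y
  | 4, x, y, _ => val y = toZFSet x
  | 5, x, y, z => SatE x y z
  | 6, x, y, z => SatT x y z
  | _, _, _, _ => False

/-- The full structure of level `δ`. -/
def Lv (δ : Ordinal.{u}) : FStr (Lvl δ) where
  P := fun x y z => opair x.1 y.1 = z.1
  Q := fun x a => of1 a.1 = x.1
  r := fun s x y z => orel s x.1 y.1 z.1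

theorem satT_iff {δ m a : Ordinal.{u}} :
    SatT δ m a ↔ Closed δ ∧ ∃ h : a < δ, (dec m).Sat (Lv δ) ⟨a, h⟩ := by
  rw [SatT]
  refine and_congr_right fun _ => exists_congr fun h => ?_
  apply Fm.sat_congr
  · intro x y z; rfl
  · intro x y; rfl
  · intro s x y z
    match s with
    | 0 | 1 | 2 | 3 | 4 | 5 | 6 => rfl
    | s + 7 => rfl

/-- Positive closed ordinals. -/
class COrd (δ : Ordinal.{u}) : Prop where
  closed : Closed δ
  pos : 0 < δ

noncomputable instance (δ : Ordinal.{u}) [COrd δ] : PFun (LvE δ) where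
  pr := fun x y => ⟨opair x.1 y.1, COrd.closed _ x.2 _ y.2⟩
  f1 := fun x => ⟨of1 x.1, (of1_le _).trans_lt x.2⟩
  f2 := fun x => ⟨of2 x.1, (of2_le _).trans_lt x.2⟩
  tp := fun x => x
  z0 := ⟨0, COrd.pos⟩
  f1_pr := fun x y => Subtype.ext (by simp)
  f2_pr := fun x y => Subtype.ext (by simp)
  pr_f := fun z => Subtype.ext (by simp)
  P_iff := fun x y z => by simp [LvE, Subtype.ext_iff]
  Q_iff := fun x a => by simp [LvE, eq_comm]

noncomputable instance (δ : Ordinal.{u}) [COrd δ] : Std (Lv δ) where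
  pr := fun x y => ⟨opair x.1 y.1, COrd.closed _ x.2 _ y.2⟩
  f1 := fun x => ⟨of1 x.1, (of1_le _).trans_lt x.2⟩
  f2 := fun x => ⟨of2 x.1, (of2_le _).trans_lt x.2⟩
  tp := fun x => ⟨of1 x.1, (of1_le _).trans_lt x.2⟩
  z0 := ⟨0, COrd.pos⟩
  f1_pr := fun x y => Subtype.ext (by simp)
  f2_pr := fun x y => Subtype.ext (by simp)
  pr_f := fun z => Subtype.ext (by simp)
  P_iff := fun x y z => by simp [Lv, Subtype.ext_iff]
  Q_iff := fun x a => by simp [Lv, Subtype.ext_iff]
  tp_eq := fun _ => rfl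
  r0 := fun x y z => by simp [Lv, orel, Subtype.ext_iff]
  r1 := fun x y z => by simp [Lv, orel, Subtype.ext_iff]

section
variable {δ : Ordinal.{u}} [COrd δ]

@[simp] theorem pr_val (x y : Lvl δ) : (PFun.pr (Lv δ) x y).1 = opair x.1 y.1 := rfl
@[simp] theorem f1_val (x : Lvl δ) : (PFun.f1 (Lv δ) x).1 = of1 x.1 := rfl
@[simp] theorem f2_val (x : Lvl δ) : (PFun.f2 (Lv δ) x).1 = of2 x.1 := rfl
@[simp] theorem z0_val : (PFun.z0 (Lv δ)).1 = 0 := rfl
@[simp] theorem prE_val (x y : Lvl δ) : (PFun.pr (LvE δ) x y).1 = opair x.1 y.1 := rfl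
@[simp] theorem f1E_val (x : Lvl δ) : (PFun.f1 (LvE δ) x).1 = of1 x.1 := rfl
@[simp] theorem f2E_val (x : Lvl δ) : (PFun.f2 (LvE δ) x).1 = of2 x.1 := rfl
end

end Run7.h936.SO
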