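import Pool.Agent.Run7.h936.SO.Groups
import Pool.Agent.Run7.h488.SO.L3

/-! Codes and isomorphisms. -/

namespace Run7.h936.SO

universe u

open Ordinal Set

/-- Isomorphic structures have the same codes. -/
theorem isCode_congr' {V : Vocab} {M N : Type u} {A : Str V M} {B : Str V N} (h : A.Isom B)
    {x : Ordinal.{u}} (hx : IsCode A x) : IsCode B x := by
  obtain ⟨e, h1, h2⟩ := h
  obtain ⟨F, hF⟩ := hx
  have hc : ∀ {n : ℕ} (a : Fin n → N), (fun i => F (e.symm (a i))) =
      fun i => F ((fun i => e.symm (a i)) i) := fun a => rfl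
  refine ⟨fun n => F (e.symm n), fun a b hab => e.symm.injective (hF.inj hab), fun ξ => ?_,
    fun R a => ?_, fun f a z => ?_⟩
  · rw [hF.range]
    constructor
    · rintro ⟨m, hm⟩
      exact ⟨e m, by rw [Equiv.symm_apply_apply]; exact hm⟩
    · rintro ⟨n, hn⟩
      exact ⟨e.symm n, hn⟩
  · rw [← hF.rel R (fun i => e.symm (a i)), h1]
    simp
  · rw [← hF.fn f (fun i => e.symm (a i)) (e.symm z), Equiv.eq_symm_apply, h2]
    simp

theorem isom_symm' {V : Vocab} {M N : Type u} {A : Str V M} {B : Str V N}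
    (h : A.Isom B) : B.Isom A := by
  obtain ⟨F, h1, h2⟩ := h
  refine ⟨F.symm, fun R a => ?_, fun f a => ?_⟩
  · rw [h1]; simp
  · rw [Equiv.symm_apply_eq, h2]; simp

theorem isCode_congr {V : Vocab} {M N : Type u} {A : Str V M} {B : Str V N} (h : A.Isom B)
    (x : Ordinal.{u}) : IsCode A x ↔ IsCode B x :=
  ⟨isCode_congr' h, isCode_congr' (isom_symm' h)⟩

/-- Structures with a common code are isomorphic. -/
theorem isom_of_isCode {V : Vocab} {M N : Type u} {A : Str V M} {B : Str V N} {x : Ordinal.{u}}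
    (h : IsCode A x) (h' : IsCode B x) : A.Isom B := by
  obtain ⟨F, hF⟩ := h
  obtain ⟨G, hG⟩ := h'
  have h1 : ∀ m, ∃ n, G n = F m := fun m => (hG.range _).1 ((hF.range _).2 ⟨m, rfl⟩)
  choose g hg using h1
  have hbij : Function.Bijective g := by
    constructor
    · intro a b hab
      apply hF.inj
      rw [← hg a, ← hg b, hab]
    · intro n
      obtain ⟨m, hm⟩ := (hF.range _).1 ((hG.range _).2 ⟨n, rfl⟩)
      exact ⟨m, hG.inj (by rw [hg, hm])⟩
  refine ⟨Equiv.ofBijective g hbij, fun R a => ?_, fun f a => ?_⟩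
  · rw [hF.rel, hG.rel]
    simp only [Equiv.ofBijective_apply, hg]
  · symm
    rw [hG.fn]
    simp only [Equiv.ofBijective_apply, hg]
    exact (hF.fn f a _).1 rfl

/-! ### Transport of satisfaction -/

theorem term_val_iso {V : Vocab} {M N : Type u} {A : Str V M} {B : Str V N} (F : M ≃ N)
    (h2 : ∀ f a, F (A.fn f a) = B.fn f (fun i => F (a i))) (e : ℕ → M) (t : Term V) :
    F (t.val A e) = t.val B (fun i => F (e i)) := by
  induction t with
  | var i => rfl
  | app f ts ih =>
    rw [Term.val, Term.val, h2]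
    congr 1
    funext i
    exact ih i

/-- Transport of an assignment. -/
def SOAssign.map {M N : Type u} (F : M ≃ N) (W : SOAssign M) : SOAssign N :=
  fun n k b => W n k (fun i => F.symm (b i))

theorem SOAssign.map_upd {M N : Type u} (F : M ≃ N) (W : SOAssign M) (n k : ℕ)
    (R : (Fin n → M) → Prop) :
    (W.upd n k R).map F = (W.map F).upd n k (fun b => R (fun i => F.symm (b i))) := by
  funext n' k' b
  by_cases h : n' = n
  · subst h
    by_cases h' : k' = k
    · subst h'
      simp [SOAssign.upd, SOAssign.map]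
    · simp [SOAssign.upd, SOAssign.map, Function.update_of_ne h']
  · simp [SOAssign.upd, SOAssign.map, h]

theorem sat_iso {V : Vocab} {M N : Type u} {A : Str V M} {B : Str V N} (F : M ≃ N)
    (h1 : ∀ R a, A.rel R a ↔ B.rel R (fun i => F (a i)))
    (h2 : ∀ f a, F (A.fn f a) = B.fn f (fun i => F (a i))) (φ : Formula V) :
    ∀ (e : ℕ → M) (W : SOAssign M), φ.Sat A e W ↔ φ.Sat B (fun i => F (e i)) (W.map F) := by
  induction φ with
  | eq t s =>
    intro e W
    simp only [Formula.Sat, ← term_val_iso F h2, EmbeddingLike.apply_eq_iff_eq]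
  | rel R ts =>
    intro e W
    simp only [Formula.Sat, ← term_val_iso F h2, h1]
  | sov n k ts =>
    intro e W
    simp only [Formula.Sat, ← term_val_iso F h2, SOAssign.map, Equiv.symm_apply_apply]
  | neg φ ih =>
    intro e W
    simp only [Formula.Sat, ih]
  | and φ ψ ih1 ih2 =>
    intro e W
    simp only [Formula.Sat, ih1, ih2]
  | all i φ ih =>
    intro e W
    simp only [Formula.Sat]
    rw [F.forall_congr_left]
    refine forall_congr' fun x => ?_
    rw [ih]
    have : (fun j => F (Function.update e i (F.symm x) j)) =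
        Function.update (fun j => F (e j)) i x := by
      funext j
      by_cases h : j = i
      · subst h; simp
      · simp [Function.update_of_ne h]
    rw [this]
  | allR n k φ ih =>
    intro e W
    simp only [Formula.Sat]
    constructor
    · intro h R
      have := (ih _ _).1 (h (fun a => R (fun i => F (a i))))
      rw [SOAssign.map_upd] at this
      simpa using this
    · intro h R
      rw [ih, SOAssign.map_upd]
      exact h _

/-- Isomorphic structures satisfy the same second-order formulas. -/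
theorem models_congr {V : Vocab} {M N : Type u} {A : Str V M} {B : Str V N} (h : A.Isom B)
    (φ : Formula V) : A.Models φ ↔ B.Models φ := by
  have key : ∀ {M N : Type u} {A : Str V M} {B : Str V N}, A.Isom B → A.Models φ → B.Models φ := by
    rintro M N A B ⟨F, h1, h2⟩ hA e W
    have := (sat_iso F h1 h2 φ (fun i => F.symm (e i)) (W.map F.symm)).1 (hA _ _)
    have h3 : (W.map F.symm).map F = W := by
      funext n k b
      simp [SOAssign.map]
    rw [h3] at this
    simpa using this
  exact ⟨key h, key (isom_symm' h)⟩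

/-! ### Existence of codes -/

/-- An enumeration of `M` by the ordinals below `(#M).ord`. -/
theorem exists_enum (M : Type u) : ∃ F : M → Ordinal.{u}, Function.Injective F ∧
    ∀ ξ, ξ < (Cardinal.mk M).ord ↔ ∃ m, F m = ξ := by
  have h : Cardinal.mk M = Cardinal.mk (Cardinal.mk M).ord.ToType := by
    rw [Cardinal.mk_toType, Cardinal.card_ord]
  obtain ⟨e⟩ := Cardinal.eq.1 h
  refine ⟨fun m => ((Ordinal.ToType.mk.symm (e m) : Iio (Cardinal.mk M).ord) : Ordinal.{u}),
    ?_, fun ξ => ?_⟩
  · intro a b hab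
    exact e.injective (Ordinal.ToType.mk.symm.injective (Subtype.ext hab))
  · constructor
    · intro hξ
      exact ⟨e.symm (Ordinal.ToType.mk ⟨ξ, hξ⟩), by simp⟩
    · rintro ⟨m, rfl⟩
      exact (Ordinal.ToType.mk.symm (e m)).2

theorem exists_code_aux {V : Vocab} {M : Type u} {Ω : Ordinal.{u}} [hΩ : FullΩ Ω] (A : Str V M)
    (F : M → Ordinal.{u}) (o : Ordinal.{u}) (ho : o < Ω) (hF : Function.Injective F)
    (hr : ∀ ξ, ξ < o ↔ ∃ m, F m = ξ) : ∃ y < Ω, Codes A F o y := by
  obtain ⟨γ, hγ, hoγ, hωγ, hc⟩ := Run7.h488.SO.exists_closed Ω o ho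
  haveI : COrd γ := ⟨hc, lt_of_le_of_lt zero_le hoγ⟩
  have hnat : ∀ n : ℕ, (n : Ordinal.{u}) < γ := fun n =>
    (Ordinal.natCast_lt_omega0 n).trans hωγ
  have hFγ : ∀ m, F m < γ := fun m => ((hr _).2 ⟨m, rfl⟩).trans hoγ
  have hst : ∀ {n : ℕ} (a : Fin n → M), ostk (List.ofFn fun i => F (a i)) < γ := by
    intro n a
    apply ostk_lt
    intro x hx
    rw [List.mem_ofFn] at hx
    obtain ⟨i, rfl⟩ := hx
    exact hFγ _
  obtain ⟨y, hy, hyU⟩ := hΩ.full γ hγ
    ({z | ∃ (R : Fin V.nRel) (a : Fin (V.relAr R) → M), A.rel R a ∧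
      z = opair ((R : ℕ) : Ordinal.{u}) (ostk (List.ofFn fun i => F (a i)))} ∪
    {z | ∃ (f : Fin V.nFun) (a : Fin (V.funAr f) → M),
      z = opair ((V.nRel + f : ℕ) : Ordinal.{u})
        (opair (F (A.fn f a)) (ostk (List.ofFn fun i => F (a i))))}) (by
    rintro ξ (⟨R, a, _, rfl⟩ | ⟨f, a, rfl⟩)
    · exact hc _ (hnat _) _ (hst a)
    · exact hc _ (hnat _) _ (hc _ (hFγ _) _ (hst a)))
  refine ⟨y, hy, hF, hr, fun R a => ?_, fun f a x => ?_⟩
  · rw [hyU]
    constructor
    · intro h
      exact Or.inl ⟨R, a, h, rfl⟩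
    · rintro (⟨R', a', h, he⟩ | ⟨f, a', he⟩)
      · obtain ⟨h1, h2⟩ := opair_inj he
        have h3 : R = R' := Fin.ext (Nat.cast_injective h1)
        subst h3
        have h4 := Run7.h488.SO.ostk_ofFn_inj h2
        have h5 : a = a' := by
          funext i
          exact hF (congrFun h4 i)
        rw [h5]; exact h
      · obtain ⟨h1, _⟩ := opair_inj he
        have h3 : (R : ℕ) = V.nRel + f := Nat.cast_injective h1
        have := R.2
        omega
  · rw [hyU]
    constructor
    · rintro rfl
      exact Or.inr ⟨f, a, rfl⟩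
    · rintro (⟨R', a', h, he⟩ | ⟨f', a', he⟩)
      · obtain ⟨h1, _⟩ := opair_inj he
        have h3 : V.nRel + f = (R' : ℕ) := Nat.cast_injective h1
        have := R'.2
        omega
      · obtain ⟨h1, h2⟩ := opair_inj he
        have h3 : V.nRel + (f : ℕ) = V.nRel + (f' : ℕ) := Nat.cast_injective h1
        have h3' : f = f' := Fin.ext (by omega)
        subst h3'
        obtain ⟨h4, h5⟩ := opair_inj h2
        have h6 := Run7.h488.SO.ostk_ofFn_inj h5
        have h7 : a = a' := by
          funext i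
          exact hF (congrFun h6 i)
        rw [h7]
        exact (hF h4).symm

/-- Every structure has a code below `κ⁺`. -/
theorem exists_code {V : Vocab} {M : Type u} [Infinite M] [FullΩ (Om M)] (A : Str V M) :
    ∃ x < Om M, IsCode A x := by
  obtain ⟨F, hF, hr⟩ := exists_enum M
  have ho : (Cardinal.mk M).ord < Om M := Cardinal.ord_strictMono (Order.lt_succ _)
  obtain ⟨y, hy, hc⟩ := exists_code_aux A F _ ho hF hr
  refine ⟨opair (Cardinal.mk M).ord y, COrd.closed _ ho _ hy, F, ?_⟩
  rw [of1_opair, of2_opair]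
  exact hc

end Run7.h936.SO
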