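import Mathlib

/-!
# The Gödel pairing of ordinals
-/

namespace Run7.h936.SO

universe u

open Ordinal Set

/-- The Gödel order on pairs of ordinals. -/
def GLt (p q : Ordinal.{u} × Ordinal.{u}) : Prop :=
  max p.1 p.2 < max q.1 q.2 ∨
    (max p.1 p.2 = max q.1 q.2 ∧ (p.1 < q.1 ∨ (p.1 = q.1 ∧ p.2 < q.2)))

theorem GLt.wf : WellFounded (GLt.{u}) := by
  have h := InvImage.wf (fun p : Ordinal.{u} × Ordinal.{u} => (max p.1 p.2, (p.1, p.2)))
    (WellFounded.prod_lex (wellFounded_lt (α := Ordinal.{u}))
      (WellFounded.prod_lex (wellFounded_lt (α := Ordinal.{u})) (wellFounded_lt (α := Ordinal.{u}))))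
  refine Subrelation.wf ?_ h
  intro p q hpq
  rcases hpq with h1 | ⟨h1, h2 | ⟨h2, h3⟩⟩
  · exact Prod.Lex.left _ _ h1
  · change Prod.Lex _ _ (max p.1 p.2, (p.1, p.2)) (max q.1 q.2, (q.1, q.2))
    rw [h1]
    exact Prod.Lex.right _ (Prod.Lex.left _ _ h2)
  · change Prod.Lex _ _ (max p.1 p.2, (p.1, p.2)) (max q.1 q.2, (q.1, q.2))
    rw [h1, h2]
    exact Prod.Lex.right _ (Prod.Lex.right _ h3)

theorem GLt.trans {p q r : Ordinal.{u} × Ordinal.{u}} (h1 : GLt p q) (h2 : GLt q r) : GLt p r := by
  unfold GLt at *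
  rcases h1 with h1 | ⟨h1, h1'⟩ <;> rcases h2 with h2 | ⟨h2, h2'⟩
  · exact Or.inl (h1.trans h2)
  · exact Or.inl (h2 ▸ h1)
  · exact Or.inl (h1 ▸ h2)
  · refine Or.inr ⟨h1.trans h2, ?_⟩
    rcases h1' with h | ⟨h, h'⟩ <;> rcases h2' with k | ⟨k, k'⟩
    · exact Or.inl (h.trans k)
    · exact Or.inl (k ▸ h)
    · exact Or.inl (h ▸ k)
    · exact Or.inr ⟨h.trans k, h'.trans k'⟩

theorem GLt.irrefl (p : Ordinal.{u} × Ordinal.{u}) : ¬ GLt p p := by
  unfold GLt
  simp

theorem GLt.trichotomy (p q : Ordinal.{u} × Ordinal.{u}) : GLt p q ∨ p = q ∨ GLt q p := by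
  unfold GLt
  rcases lt_trichotomy (max p.1 p.2) (max q.1 q.2) with h | h | h
  · exact Or.inl (Or.inl h)
  · rcases lt_trichotomy p.1 q.1 with k | k | k
    · exact Or.inl (Or.inr ⟨h, Or.inl k⟩)
    · rcases lt_trichotomy p.2 q.2 with l | l | l
      · exact Or.inl (Or.inr ⟨h, Or.inr ⟨k, l⟩⟩)
      · exact Or.inr (Or.inl (Prod.ext k l))
      · exact Or.inr (Or.inr (Or.inr ⟨h.symm, Or.inr ⟨k.symm, l⟩⟩))
    · exact Or.inr (Or.inr (Or.inr ⟨h.symm, Or.inl k⟩))
  · exact Or.inr (Or.inr (Or.inl h))

instance small_GLt (p : Ordinal.{u} × Ordinal.{u}) : Small.{u} {q // GLt q p} := by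
  refine small_of_injective (β := Set.Iic (max p.1 p.2) × Set.Iic (max p.1 p.2))
    (f := fun q => (⟨q.1.1, ?_⟩, ⟨q.1.2, ?_⟩)) ?_
  · rcases q.2 with h | h
    · exact (le_max_left _ _).trans h.le
    · exact (le_max_left _ _).trans h.1.le
  · rcases q.2 with h | h
    · exact (le_max_right _ _).trans h.le
    · exact (le_max_right _ _).trans h.1.le
  · intro a b hab
    simp only [Prod.mk.injEq, Subtype.mk.injEq] at hab
    exact Subtype.ext (Prod.ext hab.1 hab.2)

/-- The rank of a pair in the Gödel order. -/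
noncomputable def gp : Ordinal.{u} × Ordinal.{u} → Ordinal.{u} :=
  GLt.wf.fix (fun p ih => ⨆ q : {q // GLt q p}, ih q.1 q.2 + 1)

theorem gp_eq (p : Ordinal.{u} × Ordinal.{u}) : gp p = ⨆ q : {q // GLt q p}, gp q.1 + 1 := by
  rw [gp, GLt.wf.fix_eq]

theorem gp_lt {p q : Ordinal.{u} × Ordinal.{u}} (h : GLt p q) : gp p < gp q := by
  rw [gp_eq q]
  exact Ordinal.lt_iSup_add_one (fun q' : {q' // GLt q' q} => gp q'.1) ⟨p, h⟩

theorem gp_lt_iff {p q : Ordinal.{u} × Ordinal.{u}} : gp p < gp q ↔ GLt p q := by
  refine ⟨fun h => ?_, gp_lt⟩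
  rcases GLt.trichotomy p q with k | k | k
  · exact k
  · exact absurd (k ▸ h) (lt_irrefl _)
  · exact absurd (gp_lt k) h.asymm

theorem gp_inj {p q : Ordinal.{u} × Ordinal.{u}} (h : gp p = gp q) : p = q := by
  rcases GLt.trichotomy p q with k | k | k
  · exact absurd h (gp_lt k).ne
  · exact k
  · exact absurd h (gp_lt k).ne'

theorem exists_of_lt_gp (p : Ordinal.{u} × Ordinal.{u}) :
    ∀ z, z < gp p → ∃ q, GLt q p ∧ gp q = z := by
  induction p using GLt.wf.induction with
  | _ p ih =>
    intro z hz
    rw [gp_eq, Ordinal.lt_iSup_add_one_iff] at hz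
    obtain ⟨q, hq⟩ := hz
    rcases hq.eq_or_lt with h | h
    · exact ⟨q.1, q.2, h.symm⟩
    · obtain ⟨q', h1, h2⟩ := ih q.1 q.2 z h
      exact ⟨q', h1.trans q.2, h2⟩

/-- The pairing function. -/
noncomputable def opair (a b : Ordinal.{u}) : Ordinal.{u} := gp (a, b)

theorem le_opair_left (a b : Ordinal.{u}) : a ≤ opair a b := by
  induction a using WellFoundedLT.induction generalizing b with
  | _ a ih =>
    by_contra hlt
    push Not at hlt
    have h1 := ih _ hlt b
    have h2 : opair (opair a b) b < opair a b := by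
      apply gp_lt
      unfold GLt
      simp only
      rcases le_or_gt a b with hab | hab
      · right
        refine ⟨?_, Or.inl hlt⟩
        rw [max_eq_right hab, max_eq_right (hlt.le.trans hab)]
      · left
        rw [max_eq_left hab.le]
        exact max_lt hlt hab
    exact absurd h2 (not_lt.2 h1)

theorem le_opair_right (a b : Ordinal.{u}) : b ≤ opair a b := by
  induction b using WellFoundedLT.induction generalizing a with
  | _ b ih =>
    by_contra hlt
    push Not at hlt
    have h1 := ih _ hlt a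
    have h2 : opair a (opair a b) < opair a b := by
      apply gp_lt
      unfold GLt
      simp only
      rcases le_or_gt b a with hab | hab
      · right
        refine ⟨?_, Or.inr ⟨trivial, hlt⟩⟩
        rw [max_eq_left hab, max_eq_left (hlt.le.trans hab)]
      · left
        rw [max_eq_right hab.le]
        exact max_lt hab hlt
    exact absurd h2 (not_lt.2 h1)

theorem gp_surj (z : Ordinal.{u}) : ∃ p, gp p = z := by
  have h : z < gp (Order.succ z, 0) := by
    have := le_opair_left (Order.succ z) 0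
    exact lt_of_lt_of_le (Order.lt_succ z) this
  obtain ⟨q, _, hq⟩ := exists_of_lt_gp _ z h
  exact ⟨q, hq⟩

/-- First component. -/
noncomputable def of1 (z : Ordinal.{u}) : Ordinal.{u} := (Classical.choose (gp_surj z)).1
/-- Second component. -/
noncomputable def of2 (z : Ordinal.{u}) : Ordinal.{u} := (Classical.choose (gp_surj z)).2

@[simp] theorem opair_of (z : Ordinal.{u}) : opair (of1 z) (of2 z) = z :=
  Classical.choose_spec (gp_surj z)

theorem opair_inj {a b c d : Ordinal.{u}} (h : opair a b = opair c d) : a = c ∧ b = d := by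
  have := gp_inj h
  simpa using this

@[simp] theorem opair_inj_iff {a b c d : Ordinal.{u}} :
    opair a b = opair c d ↔ a = c ∧ b = d :=
  ⟨opair_inj, fun h => by rw [h.1, h.2]⟩

@[simp] theorem of1_opair (a b : Ordinal.{u}) : of1 (opair a b) = a :=
  (opair_inj (opair_of (opair a b))).1

@[simp] theorem of2_opair (a b : Ordinal.{u}) : of2 (opair a b) = b :=
  (opair_inj (opair_of (opair a b))).2

theorem opair_lt_iff {a b c d : Ordinal.{u}} :
    opair a b < opair c d ↔ GLt (a, b) (c, d) := gp_lt_iff

theorem of1_le (z : Ordinal.{u}) : of1 z ≤ z := by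
  conv_rhs => rw [← opair_of z]
  exact le_opair_left _ _

theorem of2_le (z : Ordinal.{u}) : of2 z ≤ z := by
  conv_rhs => rw [← opair_of z]
  exact le_opair_right _ _

theorem lt_opair_right {a b : Ordinal.{u}} (ha : 0 < a) : b < opair a b := by
  refine lt_of_le_of_lt (le_opair_right 0 b) ?_
  rw [opair_lt_iff]
  unfold GLt
  simp only
  rcases le_or_gt a b with hab | hab
  · right
    refine ⟨?_, Or.inl ha⟩
    rw [max_eq_right hab, max_eq_right (zero_le)]
  · left
    rw [max_eq_left hab.le, max_eq_right (zero_le)]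
    exact hab

theorem of2_lt {z : Ordinal.{u}} (h : 0 < of1 z) : of2 z < z := by
  conv_rhs => rw [← opair_of z]
  exact lt_opair_right h

theorem opair_mono {a b c d : Ordinal.{u}} (h1 : a ≤ c) (h2 : b ≤ d) : opair a b ≤ opair c d := by
  by_contra hlt
  push Not at hlt
  rw [opair_lt_iff] at hlt
  rcases hlt with h | ⟨h, h' | ⟨h', h''⟩⟩
  · exact absurd (max_le_max h1 h2) (not_le.2 h)
  · exact absurd h1 (not_le.2 h')
  · exact absurd h2 (not_le.2 h'')

@[simp] theorem opair_zero_zero : opair (0 : Ordinal.{u}) 0 = 0 := by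
  rw [opair, gp_eq]
  have : IsEmpty {q : Ordinal.{u} × Ordinal.{u} // GLt q (0, 0)} := by
    constructor
    rintro ⟨q, hq⟩
    unfold GLt at hq
    simp at hq
  simp

@[simp] theorem of1_zero : of1 (0 : Ordinal.{u}) = 0 := by
  have := of1_opair (0 : Ordinal.{u}) 0
  rwa [opair_zero_zero] at this

@[simp] theorem of2_zero : of2 (0 : Ordinal.{u}) = 0 := by
  have := of2_opair (0 : Ordinal.{u}) 0
  rwa [opair_zero_zero] at this

/-- `δ` is closed under pairing. -/
def Closed (δ : Ordinal.{u}) : Prop := ∀ a < δ, ∀ b < δ, opair a b < δ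

theorem nat_max (a b : ℕ) : max (a : Ordinal.{u}) b = ((max a b : ℕ) : Ordinal.{u}) := by
  rcases le_total a b with h | h
  · rw [max_eq_right h, max_eq_right (Nat.cast_le.2 h)]
  · rw [max_eq_left h, max_eq_left (Nat.cast_le.2 h)]

/-- On natural numbers the Gödel pairing is `Nat.pair`. -/
theorem GLt_nat {a b c d : ℕ} : GLt ((a : Ordinal.{u}), (b : Ordinal.{u})) (c, d) ↔
    Nat.pair a b < Nat.pair c d := by
  unfold GLt
  simp only [nat_max, Nat.cast_lt, Nat.cast_inj]
  unfold Nat.pair
  constructor
  · intro h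
    split_ifs with h1 h2 h2
    · rcases h with h | ⟨h, h'⟩
      · have : b < d := by omega
        nlinarith
      · have : b = d := by omega
        subst this; omega
    · rcases h with h | ⟨h, h'⟩
      · have : b < c := by omega
        nlinarith
      · have : b = c := by omega
        subst this; omega
    · rcases h with h | ⟨h, h'⟩
      · have : a < d := by omega
        nlinarith
      · omega
    · rcases h with h | ⟨h, h'⟩
      · have : a < c := by omega
        nlinarith
      · have : a = c := by omega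
        subst this; omega
  · intro h
    by_contra hcon
    push Not at hcon
    obtain ⟨hc1, hc2⟩ := hcon
    split_ifs at h with h1 h2 h2
    · rcases hc1.lt_or_eq with h3 | h3
      · have : d < b := by omega
        nlinarith
      · have h5 : b = d := by omega
        obtain ⟨h6, h7⟩ := hc2 h3.symm
        subst h5; omega
    · rcases hc1.lt_or_eq with h3 | h3
      · have : c < b := by omega
        nlinarith
      · have h5 : b = c := by omega
        obtain ⟨h6, h7⟩ := hc2 h3.symm
        subst h5; omega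
    · rcases hc1.lt_or_eq with h3 | h3
      · have : d < a := by omega
        nlinarith
      · have h5 : a = d := by omega
        obtain ⟨h6, h7⟩ := hc2 h3.symm
        subst h5; omega
    · rcases hc1.lt_or_eq with h3 | h3
      · have : c < a := by omega
        nlinarith
      · have h5 : a = c := by omega
        obtain ⟨h6, h7⟩ := hc2 h3.symm
        subst h5
        have := h7 rfl
        omega

theorem opair_nat (a b : ℕ) : opair (a : Ordinal.{u}) b = (Nat.pair a b : ℕ) := by
  suffices H : ∀ n : ℕ, ∀ a b : ℕ, Nat.pair a b = n → opair (a : Ordinal.{u}) b = n from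
    H _ a b rfl
  intro n
  induction n using Nat.strong_induction_on with
  | _ n ih =>
    intro a b hab
    apply le_antisymm
    · rw [opair, gp_eq]
      apply Ordinal.iSup_add_one_le
      rintro ⟨⟨c, d⟩, hq⟩
      have hc : max c d ≤ max (a : Ordinal.{u}) b := by
        rcases hq with h | h
        · exact h.le
        · exact h.1.le
      have hω : max (a : Ordinal.{u}) b < ω := max_lt (natCast_lt_omega0 a) (natCast_lt_omega0 b)
      obtain ⟨c', rfl⟩ := lt_omega0.1 ((le_max_left c d).trans_lt (hc.trans_lt hω))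
      obtain ⟨d', rfl⟩ := lt_omega0.1 ((le_max_right (c' : Ordinal.{u}) d).trans_lt (hc.trans_lt hω))
      rw [GLt_nat, hab] at hq
      have := ih _ hq c' d' rfl
      change opair _ _ < _
      rw [this]
      exact_mod_cast hq
    · by_contra hlt
      push Not at hlt
      obtain ⟨m, hm⟩ := lt_omega0.1 (hlt.trans (natCast_lt_omega0 n))
      have hmn : m < n := by
        rw [hm] at hlt
        exact_mod_cast hlt
      have h2 := ih m hmn m.unpair.1 m.unpair.2 (Nat.pair_unpair m)
      rw [← hm] at h2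
      obtain ⟨h3, h4⟩ := opair_inj h2
      have h3' : m.unpair.1 = a := by exact_mod_cast h3
      have h4' : m.unpair.2 = b := by exact_mod_cast h4
      have : Nat.pair a b = m := by
        rw [← h3', ← h4', Nat.pair_unpair]
      omega

theorem closed_ord {c : Cardinal.{u}} (hc : Cardinal.aleph0 ≤ c) : Closed c.ord := by
  intro a ha b hb
  rw [Cardinal.lt_ord]
  set μ := max a b + 1 with hμ
  have hlim := Cardinal.isSuccLimit_ord hc
  have hμc : μ < c.ord := by
    rw [hμ, ← Order.succ_eq_add_one]
    exact hlim.succ_lt (max_lt ha hb)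
  have hcard : μ.card < c := Cardinal.lt_ord.1 hμc
  have key : Cardinal.lift.{u+1} (opair a b).card ≤ Cardinal.lift.{u+1} (μ.card * μ.card) := by
    rw [Cardinal.lift_mul, ← Cardinal.mk_Iio_ordinal, ← Cardinal.mk_Iio_ordinal,
      Cardinal.mul_def]
    have hlt : ∀ z : Iio (opair a b), of1 z.1 < μ ∧ of2 z.1 < μ := by
      rintro ⟨z, hz⟩
      have hz' : opair (of1 z) (of2 z) < opair a b := by rw [opair_of]; exact hz
      rw [opair_lt_iff] at hz'
      have hmax : max (of1 z) (of2 z) ≤ max a b := by
        rcases hz' with h | h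
        · exact h.le
        · exact h.1.le
      have hlt' : max (of1 z) (of2 z) < μ := by
        rw [hμ, ← Order.succ_eq_add_one]
        exact Order.lt_succ_of_le hmax
      exact ⟨(le_max_left _ _).trans_lt hlt', (le_max_right _ _).trans_lt hlt'⟩
    refine Cardinal.mk_le_of_injective (f := fun z : Iio (opair a b) =>
      ((⟨of1 z.1, (hlt z).1⟩, ⟨of2 z.1, (hlt z).2⟩) : Iio μ × Iio μ)) ?_
    intro z w h
    rw [Prod.mk.injEq] at h
    have h1 : of1 z.1 = of1 w.1 := congrArg Subtype.val h.1
    have h2 : of2 z.1 = of2 w.1 := congrArg Subtype.val h.2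
    apply Subtype.ext
    rw [← opair_of z.1, ← opair_of w.1, h1, h2]
  rw [Cardinal.lift_le] at key
  refine key.trans_lt ?_
  exact Cardinal.mul_lt_of_lt hc hcard hcard

end Run7.h936.SO
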