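import Pool.Agent.Run7.h936.SO.Unique

/-!
# A formula expressing the local clauses
-/

namespace Run7.h936.SO

universe u v

open Ordinal Set

namespace Fm

/-- `v_i < v_j` -/
def lt' (i j : ℕ) : Fm := rel 2 i j j

/-- `v_i` is the `n`-th element. -/
def num : ℕ → ℕ → Fm
  | 0, i => not (ex (lt' 0 (i + 1)))
  | n + 1, i => ex (and (num n 0) (and (lt' 0 (i + 1)) (not (ex (and (lt' 1 0) (lt' 0 (i + 2)))))))

/-- `v_d` is closed. -/
def clF (d : ℕ) : Fm :=
  all (all (imp (lt' 1 (d + 2)) (imp (lt' 0 (d + 2)) (all (imp (prv 2 1 0) (lt' 0 (d + 3)))))))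

def sE : Fm := all (all (all (all (all (all (imp (prv 3 2 0) (all (imp (prv 5 1 0)
  (iff (rel 3 6 0 2) (and (clF 5) (and (lt' 3 5) (ex (and (lt' 0 6)
    (and (all (imp (or (lt' 0 8) (lt' 0 1)) (iff (rel 3 0 8 0) (rel 3 0 1 0))))
      (all (imp (prv 1 5 0) (rel 5 7 6 0)))))))))))))))))

def sV : Fm := all (all (all (iff (rel 4 2 1 0)
  (and (all (imp (rel 3 0 2 0) (ex (and (lt' 0 4) (rel 4 0 1 1)))))
    (all (imp (lt' 0 3) (ex (and (rel 3 0 3 0) (rel 4 1 0 0)))))))))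

def s1 (R : ℕ) : Fm := all (all (all (all (all (all (imp (prv 3 2 0) (all (imp (prv 5 1 0)
  (imp (num 1 5) (iff (rel R 6 0 2)
    (and (clF 6) (and (lt' 2 6) (not (and (rel R 6 4 2) (rel R 6 3 2)))))))))))))))

def s2 (R : ℕ) : Fm := all (all (all (all (all (imp (prv 3 2 0) (imp (num 2 3)
  (iff (rel R 4 0 1) (and (clF 4) (and (lt' 1 4)
    (ex (and (lt' 0 5) (all (imp (prv 1 3 0) (rel R 6 4 0))))))))))))))

def s3 : Fm := all (all (all (all (all (imp (prv 3 2 0) (imp (num 3 3)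
  (iff (rel 5 4 0 1) (and (clF 4) (and (lt' 1 4) (rel 5 4 2 1))))))))))

def s4 (R : ℕ) : Fm := all (all (all (all (all (all (all (imp (prv 5 4 0) (all (imp (prv 3 2 0)
  (all (imp (prv 5 1 0) (imp (num 4 7) (iff (rel R 8 2 0)
    (and (clF 8) (and (lt' 0 8) (all (imp (prv 6 4 0) (rel R 9 7 0))))))))))))))))))

def s0 : Fm := all (all (all (all (all (all (all (imp (prv 5 4 0) (all (imp (prv 3 2 0)
  (all (imp (prv 5 1 0) (imp (not (num 1 7)) (imp (not (num 2 7)) (imp (not (num 3 7))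
    (imp (not (num 4 7)) (iff (rel 5 8 2 0)
    (and (clF 8) (and (lt' 0 8) (rel 3 5 4 5)))))))))))))))))))

def t3 : Fm := all (all (all (all (all (all (imp (prv 4 3 0) (all (imp (prv 3 2 0)
  (imp (num 3 5) (iff (rel 6 6 1 0) (and (clF 6) (and (lt' 0 6) (rel 6 6 4 3)))))))))))))

def t0 : Fm := all (all (all (all (all (all (all (all (imp (prv 6 5 0) (all (imp (prv 3 2 0)
  (all (imp (prv 5 1 0) (all (imp (prv 7 1 0)
    (imp (not (num 1 9)) (imp (not (num 2 9)) (imp (not (num 3 9)) (imp (not (num 4 9))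
    (iff (rel 6 10 3 0) (and (clF 10) (and (lt' 0 10)
      (or (and (num 0 8) (rel 0 7 6 5)) (or (and (num 1 8) (rel 1 7 6 5))
      (or (and (num 2 8) (rel 2 7 6 5)) (or (and (num 3 8) (rel 3 7 6 5))
      (or (and (num 4 8) (rel 4 7 6 5)) (or (and (num 5 8) (rel 5 7 6 5))
      (and (num 6 8) (rel 6 7 6 5)))))))))))))))))))))))))))))

/-- The conjunction of the local clauses. -/
def sigma : Fm := and sE (and sV (and (s1 5) (and (s2 5) (and s3 (and (s4 5) (and s0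
  (and (s1 6) (and (s2 6) (and t3 (and (s4 6) t0))))))))))

end Fm

section
variable {A : Type v} {M : FStr A} [Std M] {δ : Ordinal.{u}} {c : A ≃ Lvl δ}
  (hlt : ∀ x y z, M.r 2 x y z ↔ (c x).1 < (c y).1)

include hlt

theorem sat_lt' (i j : ℕ) (a : A) :
    (Fm.lt' i j).Sat M a ↔ (c (nth M a i)).1 < (c (nth M a j)).1 := by
  rw [Fm.lt', Fm.sat_rel, hlt]

theorem sat_num (n i : ℕ) (a : A) :
    (Fm.num n i).Sat M a ↔ (c (nth M a i)).1 = (n : ℕ) := by
  induction n generalizing i a with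
  | zero =>
    simp only [Fm.num, Fm.sat_not, Fm.sat_ex', sat_lt' hlt, nth_pr_zero, nth_pr_succ,
      Nat.cast_zero]
    constructor
    · intro h
      by_contra hne
      have hpos : 0 < (c (nth M a i)).1 := by
        exact pos_iff_ne_zero.2 hne
      exact h ⟨c.symm ⟨0, hpos.trans (c _).2⟩, by simpa using hpos⟩
    · rintro h ⟨x, hx⟩
      rw [h] at hx
      exact not_lt_zero hx
  | succ n ih =>
    simp only [Fm.num, Fm.sat_not, Fm.sat_ex', Fm.sat_and, sat_lt' hlt, ih, nth_pr_zero,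
      nth_pr_succ]
    constructor
    · rintro ⟨x, h1, h2, h3⟩
      rw [h1] at h2 h3
      apply le_antisymm
      · by_contra hlt'
        push Not at hlt'
        apply h3
        have h4 : ((n + 1 : ℕ) : Ordinal.{u}) < δ := hlt'.trans (c _).2
        refine ⟨c.symm ⟨((n + 1 : ℕ) : Ordinal.{u}), h4⟩, ?_, ?_⟩
        · simp only [Equiv.apply_symm_apply]
          exact_mod_cast Nat.lt_succ_self n
        · simpa only [Equiv.apply_symm_apply] using hlt'
      · rw [Nat.cast_succ]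
        exact Order.add_one_le_of_lt h2
    · intro h
      have h5 : ((n : ℕ) : Ordinal.{u}) < (c (nth M a i)).1 := by
        rw [h]; exact_mod_cast Nat.lt_succ_self n
      have h4 : ((n : ℕ) : Ordinal.{u}) < δ := h5.trans (c _).2
      refine ⟨c.symm ⟨(n : Ordinal.{u}), h4⟩, by simp, by simpa using h5, ?_⟩
      rintro ⟨z, h6, h7⟩
      simp only [Equiv.apply_symm_apply] at h6
      rw [h, Nat.cast_succ] at h7
      exact absurd (Order.lt_add_one_iff.1 h7) (not_le.2 h6)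

theorem sat_clF (d : ℕ) (a : A) :
    (Fm.clF d).Sat M a ↔ Cl M (fun x => (c x).1) (nth M a d) := by
  simp only [Fm.clF, Fm.sat_all, Fm.sat_imp, sat_lt' hlt, Fm.sat_prv, nth_pr_zero,
    nth_pr_succ]
  constructor
  · intro h x y hx hy; exact h x y hx hy _ rfl
  · rintro h x y hx hy z rfl; exact h x y hx hy

theorem sat_sigma (a : A) :
    Fm.sigma.Sat M a ↔ Clauses M (fun x => (c x).1) := by
  simp only [Fm.sigma, Fm.sE, Fm.sV, Fm.s1, Fm.s2, Fm.s3, Fm.s4, Fm.s0, Fm.t3, Fm.t0,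
    Fm.sat_and, Fm.sat_all, Fm.sat_imp, Fm.sat_iff, Fm.sat_or, Fm.sat_not, Fm.sat_ex',
    Fm.sat_rel, Fm.sat_prv, sat_lt' hlt, sat_num hlt, sat_clF hlt, nth_pr_zero, nth_pr_succ,
    forall_eq', Nat.cast_one, Nat.cast_ofNat]
  constructor
  · rintro ⟨hE, hV, h1, h2, h3, h4, h0, k1, k2, k3, k4, k0⟩
    refine ⟨?_, ?_, ?_, ?_, ?_, ?_, ?_, ?_, ?_, ?_, ?_, ?_⟩
    all_goals first
      | assumption
      | simpa only [Nat.cast_zero, Nat.cast_one, Nat.cast_ofNat] using k0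
  · rintro ⟨hE, hV, h1, h2, h3, h4, h0, k1, k2, k3, k4, k0⟩
    refine ⟨?_, ?_, ?_, ?_, ?_, ?_, ?_, ?_, ?_, ?_, ?_, ?_⟩
    all_goals first
      | assumption
      | simpa only [Nat.cast_zero, Nat.cast_one, Nat.cast_ofNat] using k0

end

end Run7.h936.SO
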