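import Pool.Agent.Run7.h936.SO.Clauses

/-!
# The local clauses determine the structure
-/

namespace Run7.h936.SO

universe u v

open Ordinal Set

section
variable {A : Type v} (M : FStr A) [Std M] {δ : Ordinal.{u}} (c : A ≃ Lvl δ)


/-- The pairing of `M` is order isomorphic to the Gödel pairing. -/
def PrMono : Prop := ∀ x y x' y' : A, (c (PFun.pr M x y)).1 < (c (PFun.pr M x' y')).1 ↔
    GLt ((c x).1, (c y).1) ((c x').1, (c y').1)

variable {M c}

theorem PrMono.eq (h : PrMono M c) (x y : A) : (c (PFun.pr M x y)).1 = opair (c x).1 (c y).1 := by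
  suffices H : ∀ p : Ordinal.{u} × Ordinal.{u}, ∀ x y : A, p = ((c x).1, (c y).1) →
      (c (PFun.pr M x y)).1 = gp p from H _ x y rfl
  intro p
  induction p using GLt.wf.induction with
  | _ p ih =>
    intro x y hp
    apply le_antisymm
    · by_contra hlt
      push Not at hlt
      -- `gp p < c (PFun.pr M x y)`
      set z : A := c.symm ⟨gp p, hlt.trans (c (PFun.pr M x y)).2⟩ with hz
      have hcz : (c z).1 = gp p := by rw [hz, Equiv.apply_symm_apply]
      have hz2 : z = (PFun.pr M (PFun.f1 M z) (PFun.f2 M z)) := (PFun.pr_f z).symm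
      have h1 : (c (PFun.pr M (PFun.f1 M z) (PFun.f2 M z))).1 < (c (PFun.pr M x y)).1 := by
        rw [← hz2, hcz]; exact hlt
      rw [h] at h1
      have h2 := ih _ (by rw [hp]; exact h1) (PFun.f1 M z) (PFun.f2 M z) rfl
      rw [← hz2, hcz] at h2
      rw [← hp] at h1
      exact absurd h2 (gp_lt h1).ne'
    · rw [gp_eq]
      apply Ordinal.iSup_add_one_le
      rintro ⟨⟨α, β⟩, hq⟩
      have hmax : max α β ≤ max (c x).1 (c y).1 := by
        rw [hp] at hq
        rcases hq with k | k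
        · exact k.le
        · exact k.1.le
      have hδ : max α β < δ := hmax.trans_lt (max_lt (c x).2 (c y).2)
      have hα : α < δ := (le_max_left _ _).trans_lt hδ
      have hβ : β < δ := (le_max_right _ _).trans_lt hδ
      have e1 : (c (c.symm ⟨α, hα⟩)).1 = α := by rw [Equiv.apply_symm_apply]
      have e2 : (c (c.symm ⟨β, hβ⟩)).1 = β := by rw [Equiv.apply_symm_apply]
      have h3 := ih _ hq (c.symm ⟨α, hα⟩) (c.symm ⟨β, hβ⟩) (by rw [e1, e2])
      change gp (α, β) < _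
      rw [← h3, h, e1, e2, ← hp]
      exact hq

theorem PrMono.closed (h : PrMono M c) : Closed δ := by
  intro a ha b hb
  have := h.eq (c.symm ⟨a, ha⟩) (c.symm ⟨b, hb⟩)
  rw [Equiv.apply_symm_apply, Equiv.apply_symm_apply] at this
  simp only at this
  rw [← this]
  exact (c _).2

theorem PrMono.cpr [COrd δ] (h : PrMono M c) (x y : A) :
    c (PFun.pr M x y) = PFun.pr (Lv δ) (c x) (c y) := Subtype.ext (h.eq x y)

theorem PrMono.cf1 [COrd δ] (h : PrMono M c) (x : A) :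
    c (PFun.f1 M x) = PFun.f1 (Lv δ) (c x) := by
  conv_rhs => rw [← PFun.pr_f (M := M) x, h.cpr, PFun.f1_pr]

theorem PrMono.cf2 [COrd δ] (h : PrMono M c) (x : A) :
    c (PFun.f2 M x) = PFun.f2 (Lv δ) (c x) := by
  conv_rhs => rw [← PFun.pr_f (M := M) x, h.cpr, PFun.f2_pr]

theorem PrMono.f1_le [COrd δ] (h : PrMono M c) (x : A) : (c (PFun.f1 M x)).1 ≤ (c x).1 := by
  rw [h.cf1, f1_val]; exact of1_le _
theorem PrMono.f2_le [COrd δ] (h : PrMono M c) (x : A) : (c (PFun.f2 M x)).1 ≤ (c x).1 := by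
  rw [h.cf2, f2_val]; exact of2_le _
theorem PrMono.l_le [COrd δ] (h : PrMono M c) (x y : A) : (c x).1 ≤ (c (PFun.pr M x y)).1 := by
  rw [h.eq]; exact le_opair_left _ _
theorem PrMono.r_le [COrd δ] (h : PrMono M c) (x y : A) : (c y).1 ≤ (c (PFun.pr M x y)).1 := by
  rw [h.eq]; exact le_opair_right _ _

theorem PrMono.cl_iff [COrd δ] (h : PrMono M c) (d : A) :
    Cl M (fun x => (c x).1) d ↔ Cl (Lv δ) (fun x => x.1) (c d) := by
  constructor
  · intro hd a b ha hb
    have := hd (c.symm a) (c.symm b) (by simpa using ha) (by simpa using hb)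
    simp only [h.cpr, Equiv.apply_symm_apply] at this
    exact this
  · intro hd a b ha hb
    have := hd (c a) (c b) ha hb
    simp only [← h.cpr] at this
    exact this

theorem ex_iff {p : Lvl δ → Prop} : (∃ x : Lvl δ, p x) ↔ ∃ a : A, p (c a) := by
  constructor
  · rintro ⟨x, hx⟩; exact ⟨c.symm x, by simpa using hx⟩
  · rintro ⟨a, ha⟩; exact ⟨_, ha⟩

theorem all_iff {p : Lvl δ → Prop} : (∀ x : Lvl δ, p x) ↔ ∀ a : A, p (c a) := by
  constructor
  · intro h a; exact h _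
  · intro h x; simpa using h (c.symm x)

variable [COrd δ] (h : PrMono M c) (hc : Clauses M (fun x => (c x).1))

include h hc

/-- Truth for the `∈`-structure is determined. -/
theorem unique_S (d : A)
    (hE : ∀ x y : A, (c x).1 < (c d).1 → (c y).1 < (c d).1 →
      (M.r 3 x y x ↔ (Lv δ).r 3 (c x) (c y) (c x))) :
    ∀ (m a : A), M.r 5 d m a ↔ (Lv δ).r 5 (c d) (c m) (c a) := by
  have hL := clauses_Lv (δ := δ)
  suffices H : ∀ μ : Ordinal.{u}, ∀ m : A, (c m).1 = μ → ∀ a : A,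
      M.r 5 d m a ↔ (Lv δ).r 5 (c d) (c m) (c a) from fun m a => H _ m rfl a
  intro μ
  induction μ using WellFoundedLT.induction with
  | _ μ ih =>
    intro m hm a
    obtain ⟨g, m', rfl⟩ : ∃ g m', m = (PFun.pr M g m') := ⟨_, _, (PFun.pr_f m).symm⟩
    have hlt : 0 < (c g).1 → (c m').1 < μ := by
      intro hg
      rw [← hm, h.eq]; exact lt_opair_right hg
    by_cases h1 : (c g).1 = 1
    · obtain ⟨m₁, m₂, rfl⟩ : ∃ m₁ m₂, m' = (PFun.pr M m₁ m₂) := ⟨_, _, (PFun.pr_f m').symm⟩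
      have hl := hlt (by rw [h1]; exact zero_lt_one)
      rw [hc.cS1 _ _ _ _ _ h1, h.cl_iff, ih _ ((h.l_le _ _).trans_lt hl) m₁ rfl,
        ih _ ((h.r_le _ _).trans_lt hl) m₂ rfl, h.cpr, h.cpr, hL.cS1 _ _ _ _ _ h1]
    by_cases h2 : (c g).1 = 2
    · have hl := hlt (by rw [h2]; exact two_pos)
      rw [hc.cS2 _ _ _ _ h2, h.cl_iff, h.cpr g, hL.cS2 _ _ _ _ h2]
      refine and_congr_right fun _ => and_congr_right fun _ => ?_
      rw [ex_iff (c := c)]
      refine exists_congr fun x => and_congr_right fun _ => ?_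
      rw [ih _ hl m' rfl, h.cpr]
    by_cases h3 : (c g).1 = 3
    · have hl := hlt (by rw [h3]; exact three_pos)
      rw [hc.cS3 _ _ _ _ h3, h.cl_iff, h.cpr g, hL.cS3 _ _ _ _ h3, ih _ hl m' rfl]
    obtain ⟨x, t, rfl⟩ : ∃ x t, a = (PFun.pr M x t) := ⟨_, _, (PFun.pr_f a).symm⟩
    obtain ⟨y, b, rfl⟩ : ∃ y b, t = (PFun.pr M y b) := ⟨_, _, (PFun.pr_f t).symm⟩
    by_cases h4 : (c g).1 = 4
    · have hl := hlt (by rw [h4]; exact four_pos)
      rw [hc.cS4 _ _ _ _ _ _ h4, h.cl_iff, h.cpr g, h.cpr x, h.cpr y, hL.cS4 _ _ _ _ _ _ h4,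
        ih _ hl m' rfl, h.cpr x]
    · rw [hc.cS0 _ _ _ _ _ _ h1 h2 h3 h4, h.cl_iff, h.cpr g, h.cpr x, h.cpr y,
        hL.cS0 _ _ _ _ _ _ h1 h2 h3 h4]
      refine and_congr_right fun _ => and_congr_right fun hlt' => ?_
      rw [← h.cpr, ← h.cpr] at hlt'
      exact hE x y ((h.l_le _ _).trans_lt hlt')
        (((h.l_le y b).trans (h.r_le x _)).trans_lt hlt')

/-- Membership is determined. -/
theorem unique_E : ∀ (k n z : A), M.r 3 k n z ↔ (Lv δ).r 3 (c k) (c n) (c z) := by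
  have hL := clauses_Lv (δ := δ)
  -- one step
  have step : ∀ k n z : A,
      (∀ x y : A, (c x).1 < (c n).1 → (c y).1 < (c n).1 →
        (M.r 3 x y x ↔ (Lv δ).r 3 (c x) (c y) (c x))) →
      (∀ k' : A, (c k').1 < (c n).1 → ∀ j : A, ((c j).1 < (c k).1 ∨ (c j).1 < (c k').1) →
        (M.r 3 j k j ↔ (Lv δ).r 3 (c j) (c k) (c j)) ∧
        (M.r 3 j k' j ↔ (Lv δ).r 3 (c j) (c k') (c j))) →
      (M.r 3 k n z ↔ (Lv δ).r 3 (c k) (c n) (c z)) := by
    intro k n z h1 h2
    obtain ⟨d, t, rfl⟩ : ∃ x t, n = (PFun.pr M x t) := ⟨_, _, (PFun.pr_f n).symm⟩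
    obtain ⟨m, a, rfl⟩ : ∃ y b, t = (PFun.pr M y b) := ⟨_, _, (PFun.pr_f t).symm⟩
    have hdn : (c d).1 ≤ (c (PFun.pr M d (PFun.pr M m a))).1 := h.l_le _ _
    have hS := unique_S h hc d (fun x y hx hy => h1 x y (hx.trans_le hdn) (hy.trans_le hdn))
    rw [hc.cE, h.cl_iff, h.cpr d, h.cpr m, hL.cE]
    refine and_congr_right fun _ => and_congr_right fun _ => ?_
    rw [ex_iff (c := c)]
    refine exists_congr fun k' => and_congr_right fun hk' => ?_
    rw [all_iff (c := c), hS, h.cpr k']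
    refine and_congr_left fun _ => forall_congr' fun j => forall_congr' fun hj => ?_
    obtain ⟨e1, e2⟩ := h2 k' (hk'.trans_le hdn) j hj
    rw [e1, e2]
  suffices H : ∀ μ : Ordinal.{u}, ∀ k n z : A, max (c k).1 (c n).1 = μ →
      (M.r 3 k n z ↔ (Lv δ).r 3 (c k) (c n) (c z)) from fun k n z => H _ k n z rfl
  intro μ
  induction μ using WellFoundedLT.induction with
  | _ μ ih =>
    have ih' : ∀ k n z : A, (c k).1 < μ → (c n).1 < μ →
        (M.r 3 k n z ↔ (Lv δ).r 3 (c k) (c n) (c z)) :=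
      fun k n z hk hn => ih _ (max_lt hk hn) k n z rfl
    -- first part: `k < n`
    have part1 : ∀ k n z : A, (c n).1 = μ → (c k).1 < μ →
        (M.r 3 k n z ↔ (Lv δ).r 3 (c k) (c n) (c z)) := by
      intro k n z hn hk
      apply step
      · intro x y hx hy
        exact ih' _ _ _ (hn ▸ hx) (hn ▸ hy)
      · intro k' hk' j hj
        have hk'' : (c k').1 < μ := hn ▸ hk'
        have hj' : (c j).1 < μ := by
          rcases hj with hj | hj
          · exact hj.trans hk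
          · exact hj.trans hk''
        exact ⟨ih' _ _ _ hj' hk, ih' _ _ _ hj' hk''⟩
    intro k n z hμ
    rcases lt_or_ge (c k).1 (c n).1 with hkn | hkn
    · rw [max_eq_right hkn.le] at hμ
      exact part1 k n z hμ (hμ ▸ hkn)
    · rw [max_eq_left hkn] at hμ
      have hnμ : (c n).1 ≤ μ := hμ ▸ hkn
      apply step
      · intro x y hx hy
        exact ih' _ _ _ (hx.trans_le hnμ) (hy.trans_le hnμ)
      · intro k' hk' j hj
        have hk'' : (c k').1 < μ := hk'.trans_le hnμ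
        have hj' : (c j).1 < μ := by
          rcases hj with hj | hj
          · exact hj.trans_le hμ.le
          · exact hj.trans hk''
        exact ⟨part1 _ _ _ hμ hj', ih' _ _ _ hj' hk''⟩

/-- `V` is determined. -/
theorem unique_V : ∀ (ξ k z : A), M.r 4 ξ k z ↔ (Lv δ).r 4 (c ξ) (c k) (c z) := by
  have hL := clauses_Lv (δ := δ)
  suffices H : ∀ μ : Ordinal.{u}, ∀ ξ : A, (c ξ).1 = μ → ∀ k z : A,
      (M.r 4 ξ k z ↔ (Lv δ).r 4 (c ξ) (c k) (c z)) from fun ξ k z => H _ ξ rfl k z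
  intro μ
  induction μ using WellFoundedLT.induction with
  | _ μ ih =>
    intro ξ hξ k z
    rw [hc.cV, hL.cV, all_iff (c := c), all_iff (c := c)]
    refine and_congr ?_ ?_
    · refine forall_congr' fun j => ?_
      rw [unique_E h hc]
      refine imp_congr_right fun _ => ?_
      rw [ex_iff (c := c)]
      refine exists_congr fun η => and_congr_right fun hη => ?_
      exact ih _ (hξ ▸ hη) η rfl j j
    · refine forall_congr' fun η => imp_congr_right fun hη => ?_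
      rw [ex_iff (c := c)]
      refine exists_congr fun j => ?_
      rw [unique_E h hc, ih _ (hξ ▸ hη) η rfl j j]

/-- Truth for the full structure is determined. -/
theorem unique_T (hlt : ∀ x y z, M.r 2 x y z ↔ (c x).1 < (c y).1) :
    ∀ (d m a : A), M.r 6 d m a ↔ (Lv δ).r 6 (c d) (c m) (c a) := by
  have hL := clauses_Lv (δ := δ)
  suffices H : ∀ ν : Ordinal.{u}, ∀ d : A, (c d).1 = ν →
      ∀ μ : Ordinal.{u}, ∀ m : A, (c m).1 = μ → ∀ a : A,
      M.r 6 d m a ↔ (Lv δ).r 6 (c d) (c m) (c a) from fun d m a => H _ d rfl _ m rfl a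
  intro ν
  induction ν using WellFoundedLT.induction with
  | _ ν ihν =>
  intro d hd μ
  induction μ using WellFoundedLT.induction with
  | _ μ ih =>
    intro m hm a
    obtain ⟨g, m', rfl⟩ : ∃ g m', m = (PFun.pr M g m') := ⟨_, _, (PFun.pr_f m).symm⟩
    have hlt' : 0 < (c g).1 → (c m').1 < μ := by
      intro hg
      rw [← hm, h.eq]; exact lt_opair_right hg
    by_cases h1 : (c g).1 = 1
    · obtain ⟨m₁, m₂, rfl⟩ : ∃ m₁ m₂, m' = (PFun.pr M m₁ m₂) := ⟨_, _, (PFun.pr_f m').symm⟩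
      have hl := hlt' (by rw [h1]; exact zero_lt_one)
      rw [hc.cT1 _ _ _ _ _ h1, h.cl_iff, ih _ ((h.l_le _ _).trans_lt hl) m₁ rfl,
        ih _ ((h.r_le _ _).trans_lt hl) m₂ rfl, h.cpr, h.cpr, hL.cT1 _ _ _ _ _ h1]
    by_cases h2 : (c g).1 = 2
    · have hl := hlt' (by rw [h2]; exact two_pos)
      rw [hc.cT2 _ _ _ _ h2, h.cl_iff, h.cpr g, hL.cT2 _ _ _ _ h2]
      refine and_congr_right fun _ => and_congr_right fun _ => ?_
      rw [ex_iff (c := c)]
      refine exists_congr fun x => and_congr_right fun _ => ?_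
      rw [ih _ hl m' rfl, h.cpr]
    obtain ⟨x, t, rfl⟩ : ∃ x t, a = (PFun.pr M x t) := ⟨_, _, (PFun.pr_f a).symm⟩
    by_cases h3 : (c g).1 = 3
    · have hl := hlt' (by rw [h3]; exact three_pos)
      rw [hc.cT3 _ _ _ _ _ h3, h.cl_iff, h.cpr g, h.cpr x, hL.cT3 _ _ _ _ _ h3, ih _ hl m' rfl]
    obtain ⟨y, b, rfl⟩ : ∃ y b, t = (PFun.pr M y b) := ⟨_, _, (PFun.pr_f t).symm⟩
    by_cases h4 : (c g).1 = 4
    · have hl := hlt' (by rw [h4]; exact four_pos)
      rw [hc.cT4 _ _ _ _ _ _ h4, h.cl_iff, h.cpr g, h.cpr x, h.cpr y, hL.cT4 _ _ _ _ _ _ h4,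
        ih _ hl m' rfl, h.cpr x]
    · obtain ⟨z, e, rfl⟩ : ∃ y e, b = (PFun.pr M y e) := ⟨_, _, (PFun.pr_f b).symm⟩
      rw [hc.cT0 _ _ _ _ _ _ _ h1 h2 h3 h4, h.cl_iff, h.cpr g, h.cpr x, h.cpr y, h.cpr z,
        hL.cT0 _ _ _ _ _ _ _ h1 h2 h3 h4]
      refine and_congr_right fun hcl => and_congr_right fun hlt'' => ?_
      rw [← h.cpr, ← h.cpr, ← h.cpr] at hlt''
      have e0 : M.r 0 x y z ↔ (Lv δ).r 0 (c x) (c y) (c z) := by
        rw [Std.r0, Std.r0]; exact c.injective.eq_iff.symm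
      have e1 : M.r 1 x y z ↔ (Lv δ).r 1 (c x) (c y) (c z) := by
        rw [Std.r1, Std.r1, ← h.cpr]; exact c.injective.eq_iff.symm
      have e2 : M.r 2 x y z ↔ (Lv δ).r 2 (c x) (c y) (c z) := hlt x y z
      have e3 := unique_E h hc x y z
      have e4 := unique_V h hc x y z
      have e5 : M.r 5 x y z ↔ (Lv δ).r 5 (c x) (c y) (c z) :=
        unique_S h hc x (fun _ _ _ _ => unique_E h hc _ _ _) y z
      have e6 : M.r 6 x y z ↔ (Lv δ).r 6 (c x) (c y) (c z) :=
        ihν (c x).1 (hd ▸ (h.l_le _ _).trans_lt hlt'') x rfl _ y rfl z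
      rw [e0, e1, e2, e3, e4, e5, e6]

/-- All relations are determined. -/
theorem unique_all (hlt : ∀ x y z, M.r 2 x y z ↔ (c x).1 < (c y).1)
    (h7 : ∀ s x y z, ¬ M.r (s + 7) x y z) (s : ℕ) (x y z : A) :
    M.r s x y z ↔ (Lv δ).r s (c x) (c y) (c z) := by
  match s with
  | 0 => rw [Std.r0, Std.r0]; exact c.injective.eq_iff.symm
  | 1 => rw [Std.r1, Std.r1, ← h.cpr]; exact c.injective.eq_iff.symm
  | 2 => exact hlt x y z
  | 3 => exact unique_E h hc x y z
  | 4 => exact unique_V h hc x y z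
  | 5 => exact unique_S h hc x (fun _ _ _ _ => unique_E h hc _ _ _) y z
  | 6 => exact unique_T h hc hlt x y z
  | s + 7 =>
    constructor
    · intro hh; exact absurd hh (h7 s x y z)
    · intro hh; exact absurd hh (by simp [Lv, orel])

/-- Satisfaction is preserved. -/
theorem unique_sat (hlt : ∀ x y z, M.r 2 x y z ↔ (c x).1 < (c y).1)
    (h7 : ∀ s x y z, ¬ M.r (s + 7) x y z) (φ : Fm) (a : A) :
    φ.Sat M a ↔ φ.Sat (Lv δ) (c a) := by
  apply Fm.sat_iso c
  · intro x y z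
    rw [PFun.P_iff, PFun.P_iff, ← h.cpr]; exact c.injective.eq_iff.symm
  · intro x y
    rw [PFun.Q_iff, PFun.Q_iff, Std.tp_eq, Std.tp_eq, ← h.cf1]; exact c.injective.eq_iff.symm
  · exact fun s x y z => unique_all h hc hlt h7 s x y z

end

end Run7.h936.SO
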